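import Mathlib
import Pool.Agent.TH813.Ell0

/-!
# Liouville's theorem for meromorphic periodic functions (codiscrete), closure lemmas (job 1794)
-/

set_option autoImplicit false

open Filter
open scoped Topology PeriodPair

noncomputable section

namespace Pool.Agent.TH813.Ell

open H667R3 Pool.Agent.W245.EB

variable {L : PeriodPair}

/-- equality on a codiscrete set means equality near every point (the point excluded) -/
theorem eventuallyEq_codiscrete_iff {f g : ℂ → ℂ} :
    f =ᶠ[codiscrete ℂ] g ↔ ∀ x, f =ᶠ[𝓝[≠] x] g := by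
  constructor
  · intro h x
    have h2 : {z | f z = g z} ∈ codiscrete ℂ := h
    rw [mem_codiscrete] at h2
    have h3 := h2 x
    rw [disjoint_principal_right, compl_compl] at h3
    exact h3
  · intro h
    have : {z | f z = g z} ∈ codiscrete ℂ := by
      rw [mem_codiscrete]
      intro x
      rw [disjoint_principal_right, compl_compl]
      exact h x
    exact this

theorem Ellip.add {f g : ℂ → ℂ} (hf : Ellip L f) (hg : Ellip L g) :
    Ellip L (fun z => f z + g z) := by
  refine ⟨Meromorphic.fun_add hf.1 hg.1, fun l hl => ?_⟩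
  filter_upwards [hf.2 l hl, hg.2 l hl] with z h1 h2
  rw [h1, h2]

theorem Ellip.mul {f g : ℂ → ℂ} (hf : Ellip L f) (hg : Ellip L g) :
    Ellip L (fun z => f z * g z) := by
  refine ⟨Meromorphic.fun_mul hf.1 hg.1, fun l hl => ?_⟩
  filter_upwards [hf.2 l hl, hg.2 l hl] with z h1 h2
  rw [h1, h2]

theorem Ellip.inv {f : ℂ → ℂ} (hf : Ellip L f) : Ellip L (fun z => (f z)⁻¹) := by
  refine ⟨Meromorphic.fun_inv hf.1, fun l hl => ?_⟩
  filter_upwards [hf.2 l hl] with z h1
  rw [h1]

theorem Ellip.zpow {f : ℂ → ℂ} (hf : Ellip L f) (n : ℤ) : Ellip L (fun z => f z ^ n) := by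
  refine ⟨Meromorphic.fun_zpow hf.1, fun l hl => ?_⟩
  filter_upwards [hf.2 l hl] with z h1
  rw [h1]

theorem Ellip.const (c : ℂ) : Ellip L (fun _ => c) :=
  ⟨Meromorphic.const c, fun _ _ => EventuallyEq.rfl⟩

theorem Ellip.prod {ι : Type*} (s : Finset ι) {f : ι → ℂ → ℂ} (hf : ∀ i ∈ s, Ellip L (f i)) :
    Ellip L (fun z => ∏ i ∈ s, f i z) := by
  classical
  induction s using Finset.induction_on with
  | empty => simpa using (Ellip.const (L := L) 1)
  | insert a s ha ih =>
    simp_rw [Finset.prod_insert ha]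
    exact Ellip.mul (hf a (Finset.mem_insert_self a s))
      (ih fun i hi => hf i (Finset.mem_insert_of_mem hi))

theorem Ellip.deriv {f : ℂ → ℂ} (hf : Ellip L f) : Ellip L (deriv f) := by
  refine ⟨hf.1.deriv, fun l hl => ?_⟩
  rw [eventuallyEq_codiscrete_iff]
  intro x
  have h1 := eventuallyEq_codiscrete_iff.1 (hf.2 l hl) x
  have h2 := h1.nhdsNE_deriv
  have h3 : _root_.deriv (fun z => f (z + l)) = fun z => _root_.deriv f (z + l) := by
    funext z
    exact deriv_comp_add_const f l z
  rw [h3] at h2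
  exact h2

theorem Ellip.congr {f g : ℂ → ℂ} (hf : Ellip L f) (h : f =ᶠ[codiscrete ℂ] g) : Ellip L g := by
  refine ⟨hf.1.congr_codiscrete h, fun l hl => ?_⟩
  have hshift : (fun z => f (z + l)) =ᶠ[codiscrete ℂ] (fun z => g (z + l)) := by
    rw [eventuallyEq_codiscrete_iff]
    intro x
    have h1 := eventuallyEq_codiscrete_iff.1 h (x + l)
    have ht : Tendsto (fun z : ℂ => z + l) (𝓝[≠] x) (𝓝[≠] (x + l)) := by
      apply tendsto_nhdsWithin_of_tendsto_nhds_of_eventually_within
      · exact (continuous_add_const l).continuousAt.tendsto.mono_left nhdsWithin_le_nhds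
      · filter_upwards [self_mem_nhdsWithin] with z hz
        simpa using hz
    exact ht.eventually h1
  exact hshift.symm.trans ((hf.2 l hl).trans h)

theorem ellip_wp : Ellip L ℘[L] :=
  ⟨L.meromorphic_weierstrassP, fun l hl => Eventually.of_forall fun z =>
    L.periodic_weierstrassP ⟨l, hl⟩ z⟩

theorem ellip_wp' : Ellip L ℘'[L] :=
  ⟨L.meromorphic_derivWeierstrassP, fun l hl => Eventually.of_forall fun z =>
    L.periodic_derivWeierstrassP ⟨l, hl⟩ z⟩

/-- **Liouville's theorem** for meromorphic periodic functions without poles -/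
theorem liouville {f : ℂ → ℂ} (hf : Ellip L f) (h : ∀ z, 0 ≤ meromorphicOrderAt f z) :
    ∃ c : ℂ, f =ᶠ[codiscrete ℂ] fun _ => c := by
  have hm : MeromorphicOn f Set.univ := hf.1.meromorphicOn
  set g : ℂ → ℂ := toMeromorphicNFOn f Set.univ with hg
  have hfg : f =ᶠ[codiscrete ℂ] g := toMeromorphicNFOn_eqOn_codiscrete hm
  have han : ∀ z, AnalyticAt ℂ g z := by
    intro z
    have h1 : MeromorphicNFAt g z := meromorphicNFOn_toMeromorphicNFOn f Set.univ (Set.mem_univ z)
    rw [← h1.meromorphicOrderAt_nonneg_iff_analyticAt, hg,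
      meromorphicOrderAt_toMeromorphicNFOn hm (Set.mem_univ z)]
    exact h z
  have hdiff : Differentiable ℂ g := fun z => (han z).differentiableAt
  have hge : Ellip L g := hf.congr hfg
  have hper : ∀ z w, w ∈ L.lattice → g (z + w) = g z := by
    intro z w hw
    have h1 := eventuallyEq_codiscrete_iff.1 (hge.2 w hw) z
    have hc1 : ContinuousAt (fun z => g (z + w)) z :=
      (hdiff.continuous.comp (continuous_add_const w)).continuousAt
    exact (hc1.eventuallyEq_nhds_iff_eventuallyEq_nhdsNE hdiff.continuous.continuousAt).1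
      h1 |>.eq_of_nhds
  refine ⟨g 0, hfg.trans (Eventually.of_forall fun z => ?_)⟩
  exact hdiff.apply_eq_apply_of_bounded (IsZLattice.isCompact_range_of_periodic L.lattice _
    hdiff.continuous hper).isBounded z 0

end Pool.Agent.TH813.Ell
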