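import Mathlib
import Pool.Agent.TH881.RK.Defs
import Pool.Agent.TH554.J2921

/-! # RK-D (job 3804): the Mertens type bound for the moments `Mk` -/

set_option autoImplicit false

namespace Pool.Agent.TH921.J3804

open Finset Filter Topology
open Pool.Agent.TH881
open Pool.Agent.TH881.RG
open Pool.Agent.TH881.RQ
open Pool.Agent.TH881.RK
open Pool.Agent.H373R2.T7

lemma Aq_ge (pr : Bool) {p : ℕ} (hp : p.Prime) : p - 1 ≤ Aq pr p ∧ 1 ≤ Aq pr p := by
  have h2 := hp.two_le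
  unfold Aq
  cases pr <;> simp <;> omega

lemma uk_nonneg (pr : Bool) (m p : ℕ) : 0 ≤ uk pr m p :=
  div_nonneg (Nat.cast_nonneg _) (Nat.cast_nonneg _)

lemma uk_lt (pr : Bool) (m : ℕ) {p : ℕ} (hp : p.Prime) : uk pr m p < 1 := by
  have h1 := (Aq_ge pr hp).2
  have h2 : (0 : ℝ) < Aq pr p := by exact_mod_cast h1
  unfold uk
  rw [div_lt_one h2]
  have h3 : min m (Aq pr p - 1) < Aq pr p := by omega
  exact_mod_cast h3

lemma uk_le (pr : Bool) (m : ℕ) {p : ℕ} (hp : p.Prime) : uk pr m p ≤ (2 * m : ℝ) / p := by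
  obtain ⟨h0, h1⟩ := Aq_ge pr hp
  have h2 : (0 : ℝ) < Aq pr p := by exact_mod_cast h1
  have h3 : (2 : ℝ) ≤ p := by exact_mod_cast hp.two_le
  have h4 : (p : ℝ) ≤ 2 * Aq pr p := by
    have : p ≤ 2 * Aq pr p := by
      have := hp.two_le
      omega
    exact_mod_cast this
  have h5 : ((min m (Aq pr p - 1) : ℕ) : ℝ) ≤ m := by
    exact_mod_cast min_le_left _ _
  have hm : (0 : ℝ) ≤ m := Nat.cast_nonneg m
  unfold uk
  rw [div_le_div_iff₀ h2 (by linarith)]
  calc ((min m (Aq pr p - 1) : ℕ) : ℝ) * p ≤ m * p :=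
        mul_le_mul_of_nonneg_right h5 (by linarith)
    _ ≤ m * (2 * Aq pr p) := mul_le_mul_of_nonneg_left h4 hm
    _ = _ := by ring

theorem stMBk_in (pr : Bool) (m : ℕ) : StMBk pr m := by
  intro K δ hδ
  set u : ℕ → ℝ := uk pr m with hu
  have hu0 : ∀ p : ℕ, 0 ≤ u p := uk_nonneg pr m
  have hu1 : ∀ p : ℕ, p.Prime → u p < 1 := fun p hp => uk_lt pr m hp
  have hD : ∀ p : ℕ, p.Prime → u p ≤ (2 * m : ℝ) / p := fun p hp => uk_le pr m hp
  set D : ℝ := 2 * m with hDd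
  have hD0 : 0 ≤ D := by positivity
  have hK : (0 : ℝ) ≤ K := Nat.cast_nonneg K
  have hm2 : (0 : ℝ) ≤ (m : ℝ) ^ 2 := by positivity
  have h := Pool.Agent.TH554.J2921.gen (c := fun p => (K : ℝ) * ((m : ℝ) ^ 2 / ((p : ℝ) - 1)))
    (x := fun p => 1 / (1 - u p))
    (C := 2 * K * m ^ 2) (E := 2 * D) (p₀ := ⌈2 * D⌉₊) ?_ ?_ ?_ (by positivity) ?_ hδ
  · obtain ⟨k0, hk0⟩ := h
    refine ⟨k0, fun k hk w => ?_⟩
    have h2 := hk0 k hk w
    have e : (Phq u k)⁻¹ = ∏ p ∈ (Icc 1 k).filter Nat.Prime, (1 / (1 - u p)) := by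
      unfold Phq pz
      rw [← prod_inv_distrib]
      refine prod_congr rfl fun p _ => ?_
      rw [one_div]
    rw [e]
    exact h2
  · intro p hp
    have h2 : (2 : ℝ) ≤ p := by exact_mod_cast hp.two_le
    push_cast
    rw [← mul_div_assoc, div_le_div_iff₀ (by linarith) (by linarith)]
    have h3 : 0 ≤ (K : ℝ) * (m : ℝ) ^ 2 := mul_nonneg hK hm2
    nlinarith
  · intro p hp
    have h2 : (2 : ℝ) ≤ p := by exact_mod_cast hp.two_le
    exact mul_nonneg hK (div_nonneg hm2 (by linarith))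
  · intro p hp
    have h1 := hu0 p
    have h2 := hu1 p hp
    rw [le_div_iff₀ (by linarith)]
    linarith
  · intro p hp hp0
    have h1 := hu0 p
    have h2 := hu1 p hp
    have h3 := hD p hp
    have h4 : (0 : ℝ) < p := by exact_mod_cast hp.pos
    have h5 : 2 * D ≤ p := (Nat.le_ceil _).trans (by exact_mod_cast hp0)
    have h6 : u p ≤ 1 / 2 := by
      refine h3.trans ?_
      rw [div_le_iff₀ h4]
      linarith
    have h7 : 1 / (1 - u p) ≤ 1 + 2 * u p := by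
      rw [div_le_iff₀ (by linarith)]
      nlinarith
    have h8 := Real.add_one_le_exp (2 * D / (p : ℝ))
    have h9 : 2 * u p ≤ 2 * D / p := by
      rw [mul_div_assoc]
      linarith
    linarith

end Pool.Agent.TH921.J3804
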