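import Mathlib
import Pool.Agent.TH202.FlRes
import Pool.Agent.TH202.RL
import Pool.Agent.TH202.Cen
import Pool.Agent.TH202.FlDn
import Pool.Agent.TH111.FL_PM
import Pool.Agent.TH89.FL_SMT
set_option autoImplicit false

/-!
# The pairs in the sequence of flips are gklt (job FL-GK of MP_aa0b3f_ag)
-/

namespace Pool.Agent.TH921.FL_GK
open Pool.Agent.H436R3.Fol Pool.Agent.TH202 MvPolynomial
open Pool.Agent.TH573.C8_NEFA (Th_eq Ak_rel kap_eq kap_pos kap_lt)

open Pool.Agent.TH111.FL_PM (free_pm)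

open Pool.Agent.TH89.FL_SMT (small_three L_eq_Th)


section one

variable {K : Type} [Field K] [Algebra ℂ K]

theorem B_step {d : Dat K} (s : Sq d) (k : ℕ) :
    ((-kap) • Th s k + (1 - kap) • Th s (k + 1) + Th s (k + 2)) -
      kap • ((-kap) • Th s (k + 1) + (1 - kap) • Th s (k + 2) + Th s (k + 3)) ∈ Prin K := by
  have h := Submodule.smul_mem (Prin K) (-kap) (Ak_rel s k)
  have e : ((-kap) • Th s k + (1 - kap) • Th s (k + 1) + Th s (k + 2)) -
      kap • ((-kap) • Th s (k + 1) + (1 - kap) • Th s (k + 2) + Th s (k + 3)) =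
      (-kap) • (Ak s (k + 2) - (3 : ℝ) • Ak s (k + 1) + Ak s k) := by
    funext v
    simp only [Ak, Pi.add_apply, Pi.sub_apply, Pi.smul_apply, smul_eq_mul]
    have a1 : Th s (k + 2 + 1) v = Th s (k + 3) v := rfl
    have a2 : Th s (k + 1 + 1) v = Th s (k + 2) v := rfl
    rw [a1, a2]
    linear_combination (-(Th s (k + 1) v) - Th s (k + 2) v) * kap_eq
  rw [e]
  exact h

/-- `bet` in terms of the `Th`. -/
theorem bet_shift' {d : Dat K} (s : Sq d) (k : ℕ) :
    bet s - kap ^ k • ((-kap) • Th s (k + 1) + (1 - kap) • Th s (k + 1 + 1) + Th s (k + 1 + 2)) ∈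
      Prin K := by
  induction k with
  | zero =>
    have e : bet s - kap ^ 0 • ((-kap) • Th s (0 + 1) + (1 - kap) • Th s (0 + 1 + 1) +
        Th s (0 + 1 + 2)) = 0 := by
      funext v
      simp only [bet, Ak, Pi.add_apply, Pi.sub_apply, Pi.smul_apply, smul_eq_mul, Pi.zero_apply]
      have a1 : Th s (2 + 1) v = Th s (0 + 1 + 2) v := rfl
      have a2 : Th s (1 + 1) v = Th s (0 + 1 + 1) v := rfl
      have a3 : Th s 2 v = Th s (0 + 1 + 1) v := rfl
      have a4 : Th s 1 v = Th s (0 + 1) v := rfl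
      rw [a1, a2, a3, a4]
      ring
    rw [e]
    exact zero_mem _
  | succ n ih =>
    have h := Submodule.smul_mem (Prin K) (kap ^ n) (B_step s (n + 1))
    have h2 := add_mem ih h
    have e : bet s - kap ^ (n + 1) • ((-kap) • Th s (n + 1 + 1) + (1 - kap) • Th s (n + 1 + 1 + 1) +
        Th s (n + 1 + 1 + 2)) = (bet s - kap ^ n • ((-kap) • Th s (n + 1) +
          (1 - kap) • Th s (n + 1 + 1) + Th s (n + 1 + 2))) +
        kap ^ n • (((-kap) • Th s (n + 1) + (1 - kap) • Th s (n + 1 + 1) + Th s (n + 1 + 2)) -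
      kap • ((-kap) • Th s (n + 1 + 1) + (1 - kap) • Th s (n + 1 + 2) + Th s (n + 1 + 3))) := by
      funext v
      simp only [Pi.add_apply, Pi.sub_apply, Pi.smul_apply, smul_eq_mul]
      have a1 : Th s (n + 1 + 1 + 1) v = Th s (n + 1 + 2) v := rfl
      have a2 : Th s (n + 1 + 1 + 2) v = Th s (n + 1 + 3) v := rfl
      rw [a1, a2]
      ring
    rw [e]
    exact h2

theorem Lk_ge {d : Dat K} (s : Sq d) (k : ℕ) (v : DVal K) : Th s k v ≤ Lk s k v := by
  rw [Th_eq]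
  apply max_le
  · have h1 := Lin_le (e3 s k) v 0
    have h2 : (v.ord (e3 s k 0) : ℝ) = 0 := by
      change (v.ord (1 : K) : ℝ) = 0
      rw [v.ord_one]
      simp
    rw [h2, neg_zero] at h1
    exact h1
  · exact Lin_le (e3 s k) v 1

theorem Lk_le {d : Dat K} (s : Sq d) (k : ℕ) (v : DVal K) :
    Lk s k v - Th s k v ≤ ps (v.ord d.c) := by
  have h0 : 0 ≤ Th s k v := by rw [Th_eq]; exact le_max_left _ _
  have h1 : -(v.ord (s.y k) : ℝ) ≤ Th s k v := by rw [Th_eq]; exact le_max_right _ _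
  have h2 : 0 ≤ ps (v.ord d.c) := le_max_left _ _
  have h3 : (v.ord d.c : ℝ) ≤ ps (v.ord d.c) := le_max_right _ _
  have h : Lk s k v ≤ Th s k v + ps (v.ord d.c) := by
    unfold Lk
    rw [Lin_le_iff]
    intro j
    fin_cases j
    · have : (v.ord (1 : K) : ℝ) = 0 := by rw [v.ord_one]; simp
      change -(v.ord (1 : K) : ℝ) ≤ _
      rw [this]
      linarith
    · change -(v.ord (s.y k) : ℝ) ≤ _
      linarith
    · change -(v.ord (d.c⁻¹) : ℝ) ≤ _
      rw [v.ord_inv d.c_ne]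
      push_cast
      linarith
  linarith

theorem kap_three {n : ℕ} (hn : 2 ≤ n) : kap ^ n * (2 - kap) < 1 / 3 := by
  have h1 := kap_pos
  have h2 := kap_lt
  have h3 := kap_eq
  have h4 : kap ^ n ≤ kap ^ 2 := pow_le_pow_of_le_one h1.le (by linarith) hn
  have h5 : kap ^ 2 * (2 - kap) < 1 / 3 := by
    have h6 : kap ^ 2 = 3 * kap - 1 := by linarith [h3]
    have h7 : kap < 0.39 := by
      by_contra hc
      push Not at hc
      nlinarith
    rw [h6]
    nlinarith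
  have h8 : 0 < 2 - kap := by linarith
  calc kap ^ n * (2 - kap) ≤ kap ^ 2 * (2 - kap) := mul_le_mul_of_nonneg_right h4 h8.le
    _ < 1 / 3 := h5

end one

variable {K : Type} [Field K] [Algebra ℂ K] [Algebra.EssFiniteType ℂ K]

omit [Algebra.EssFiniteType ℂ K] in
theorem ps_sub (x : ℤ) : (x : ℝ) = ps x - ng x := by
  rw [Pool.Agent.TH246.C8_POS.ps_eq]
  ring

omit [Algebra.EssFiniteType ℂ K] in
/-- `bet` in terms of the `Th`. -/
theorem bet_shift {d : Dat K} (s : Sq d) (k : ℕ) (hk : 1 ≤ k) :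
    bet s - kap ^ (k - 1) • ((-kap) • Th s k + (1 - kap) • Th s (k + 1) + Th s (k + 2)) ∈
      Prin K := by
  obtain ⟨n, rfl⟩ : ∃ n, k = n + 1 := ⟨k - 1, by omega⟩
  exact bet_shift' s n

omit [Algebra.EssFiniteType ℂ K] in
theorem rcar_Dn {d : Dat K} (s : Sq d) (k : ℕ) (hk : 1 ≤ k) :
    IsRCar (M3 s k hk) (Dn s k) := by
  have hfr : IsFree (M3 s k hk) (sys3 s k) := free_ξ (M3 s k hk)
  have hfr1 := ((free_pm (pm_ne (pm_ne (e3_ne s k) (e3_ne s _)) (e3_ne s _)) (e2_ne d)).1 hfr).1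
  have hfr2 := (free_pm (pm_ne (e3_ne s k) (e3_ne s _)) (e3_ne s _)).1 hfr1
  have hfr3 := (free_pm (e3_ne s k) (e3_ne s _)).1 hfr2.1
  have e : Dn s k = ((bet s - kap ^ (k - 1) • ((-kap) • Th s k + (1 - kap) • Th s (k + 1) +
      Th s (k + 2))) + pr d) + kap ^ (k - 1) • ((-kap) • Lk s k + (1 - kap) • Lk s (k + 1) +
        Lk s (k + 2)) := by
    funext v
    simp only [Dn, Pi.add_apply, Pi.sub_apply, Pi.smul_apply, smul_eq_mul]
    ring
  rw [e]
  refine (rcar_of_prin ((Prin K).add_mem (bet_shift s k hk) (pr_mem d))).add (IsRCar.smul ?_ _)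
  exact (((free_rcar hfr3.1).smul _).add ((free_rcar hfr3.2).smul _)).add (free_rcar hfr2.2)

theorem gk {d : Dat K} (h : XiAlg d) (s : Sq d) (hfil : FilV s) (T : Foliation K 3)
    (hT : IsPd d T) (k : ℕ) (hk : 3 ≤ k) :
    IsGklt T (M3 s k (by omega)) 0 (bt s) (Dn s k) := by
  refine ⟨fun w _ => le_rfl, ⟨∅, Set.finite_empty, fun w _ h0 => absurd rfl h0⟩,
    ⟨_, Pool.Agent.TH246.C8_POS.bt_nef h s⟩, ⟨rcar_Dn s k (by omega), ?_⟩, ?_⟩
  · intro w hw n hn
    obtain ⟨h1, h2⟩ := small_three h s hfil k (by omega) w hw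
    obtain ⟨⟨n', hn', h3⟩, -⟩ := Pool.Agent.TH796.C8_XM2.prime_X d h T hT w h1
    have h4 : n = n' := IsLeast.unique hn hn'
    subst h4
    have e0 := L_eq_Th s hfil w h2 k (by omega)
    have e1 := L_eq_Th s hfil w h2 (k + 1) (by omega)
    have e2 := L_eq_Th s hfil w h2 (k + 2) (by omega)
    have e3 := ps_sub (w.ord d.c)
    have e4 : mn d w = ps (w.ord d.c) := by
      unfold Sb at h2
      linarith
    simp only [Dn, bt, pr, dv, Pi.add_apply, Pi.sub_apply, Pi.smul_apply, smul_eq_mul,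
      Pi.zero_apply]
    rw [h3, e0, e1, e2, e4]
    linear_combination (2 / 3 : ℝ) * e3
  · intro v _ n hn
    have hk1 := kap_pos
    have hk2 := kap_lt
    have hpow : 0 < kap ^ (k - 1) := pow_pos hk1 _
    have h1 := Pool.Agent.TH986.C8_GKLT.gklt_bound d T hT (kap ^ (k - 1) * (2 - kap))
      (mul_nonneg hpow.le (by linarith)) (kap_three (by omega)) v n hn
    have g0 := Lk_ge s k v
    have g1 := Lk_ge s (k + 1) v
    have g2 := Lk_ge s (k + 2) v
    have l1 := Lk_le s (k + 1) v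
    have l2 := Lk_le s (k + 2) v
    have e3 := ps_sub (v.ord d.c)
    have hM : (-kap) * (Lk s k v - Th s k v) + (1 - kap) * (Lk s (k + 1) v - Th s (k + 1) v) +
        (Lk s (k + 2) v - Th s (k + 2) v) ≤ (2 - kap) * ps (v.ord d.c) := by
      nlinarith
    have hM2 := mul_le_mul_of_nonneg_left hM hpow.le
    have h3 : 1 + (n : ℝ) + bt s v - Dn s k v = 1 + (n : ℝ)
        - 2 / 3 * (v.ord ((1 - d.a ^ 2) / d.a ^ 2) : ℝ)
        - 2 / 3 * (v.ord ((1 - d.b ^ 2) / d.b ^ 2) : ℝ) - 2 * (v.ord d.a : ℝ) - 2 * (v.ord d.b : ℝ)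
        + 2 * ng (v.ord d.c) - 2 / 3 * ps (v.ord d.c) - kap ^ (k - 1) *
          ((-kap) * (Lk s k v - Th s k v) + (1 - kap) * (Lk s (k + 1) v - Th s (k + 1) v) +
        (Lk s (k + 2) v - Th s (k + 2) v)) := by
      simp only [Dn, bt, pr, dv, Pi.add_apply, Pi.sub_apply, Pi.smul_apply, smul_eq_mul]
      linear_combination (-(2 / 3 : ℝ)) * e3
    rw [h3]
    linarith

end Pool.Agent.TH921.FL_GK
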