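import Mathlib
import Pool.Agent.TH202.FlRes
import Pool.Agent.TH202.RL
import Pool.Agent.TH202.Cen
import Pool.Agent.TH189.C8_VS
import Pool.Agent.TH111.FL_PM
import Pool.Agent.TH790.FL_P0
import Pool.Agent.TH26.FL_GAUSS
import Pool.Agent.TH874.FL_EP
set_option autoImplicit false

/-!
# The contractions are not isomorphisms (job FL-NI of MP_aa0b3f_ag)
-/

namespace Pool.Agent.TH921.FL_NI
open Pool.Agent.H436R3.Fol Pool.Agent.TH202 MvPolynomial

open Pool.Agent.TH790.FL_P0 (p0_two)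
open Pool.Agent.TH26.FL_GAUSS (gauss_min)
open Pool.Agent.TH111.FL_PM (free_pm free_of_mor)

open Pool.Agent.TH874.FL_EP (exists_pole)


variable {K : Type} [Field K] [Algebra ℂ K]

theorem core {d : Dat K} (s : Sq d) (hy : ∀ j, s.y j ∈ Fc d) (m : ℕ) (hm : 1 ≤ m) (i : ℕ)
    (hfree : IsFree (M2 s m hm) (e3 s i)) (w : DVal K) (hG : IsGauss d w)
    (hwm : ∀ j, m ≤ j → j ≤ m + 1 → 0 ≤ w.ord (s.y j)) (hwi : w.ord (s.y i) < 0) : False := by
  obtain ⟨vS, hvS, hvc, -⟩ := Pool.Agent.TH189.C8_VS.exists_vS d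
  have hT : IsTriv d vS := fun f hf hf0 =>
    Pool.Agent.TH189.C8_VS.ord_kap d hvS ⟨f, hf⟩ (fun h => hf0 (congrArg Subtype.val h))
  obtain ⟨x, hx1, hx2, hx3, hx4⟩ := p0_two s hy m hm vS hT hvc
  have hyi := s.y_ne i
  have hc0 := d.c_ne
  have hvy : vS.ord (s.y i) = 0 := hT _ (hy i) hyi
  have hvreg : ∀ g : Fc d, vS.Reg (g : K) := by
    intro g
    by_cases h0 : (g : K) = 0
    · exact Or.inl h0
    · exact Or.inr (hT _ g.2 h0).ge
  -- the point lies under `w`
  have hthr : x.Thr w := by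
    rw [Pt.thr_iff]
    refine ⟨hx3 w hG.1.ge hwm, fun f hf => ?_⟩
    obtain ⟨p, hp, z, hz⟩ := hx4 f f.2
    by_cases hf0 : (f : K) = 0
    · have : f = 0 := Subtype.ext hf0
      rw [this]
      exact x.p.zero_mem
    have hpos : 0 < w.ord (f : K) := hf.resolve_left hf0
    have hp0 : p ≠ 0 := by
      rintro rfl
      rw [map_zero] at hp
      exact hf0 hp.symm
    obtain ⟨j, hj0, hj1, hj2⟩ := gauss_min hG hp0
    have hc : p.coeff 0 = 0 := by
      by_contra hne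
      have h1 := hj2 0 hne
      rw [hp] at hj1
      have hz0 : z ≠ 0 := by
        rintro rfl
        rw [map_zero] at hz
        exact hne (Subtype.ext hz)
      rw [hz, w.const z hz0] at h1
      omega
    have hf1 : (f : K) = d.c * Polynomial.aeval d.c p.divX := by
      rw [← hp]
      conv_lhs => rw [← Polynomial.X_mul_divX_add p]
      rw [hc, map_zero, add_zero, map_mul, Polynomial.aeval_X]
    rw [hx2, hf1, mul_comm]
    refine vS.pos_mul_left ?_ (Or.inr (by rw [hvc]; exact one_pos))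
    rw [Polynomial.aeval_eq_sum_range]
    apply vS.O.sum_mem
    intro l _
    rw [Algebra.smul_def]
    apply vS.O.mul_mem
    · exact hvreg _
    · exact vS.O.pow_mem (Or.inr (by rw [hvc]; exact zero_le_one)) _
  obtain ⟨l, hl⟩ := hfree.2 x
  fin_cases l
  · have h1 : vS.Reg (d.c⁻¹ / 1) := hx1 _ (hl 2)
    rw [div_one] at h1
    have h2 := h1.resolve_left (inv_ne_zero hc0)
    rw [vS.ord_inv hc0, hvc] at h2
    omega
  · have h1 : vS.Reg (d.c⁻¹ / s.y i) := hx1 _ (hl 2)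
    have h2 := h1.resolve_left (div_ne_zero (inv_ne_zero hc0) hyi)
    rw [vS.ord_div (inv_ne_zero hc0) hyi, vS.ord_inv hc0, hvc, hvy] at h2
    omega
  · have h1 : w.Reg (s.y i / d.c⁻¹) := hthr _ (hl 1)
    have h2 := h1.resolve_left (div_ne_zero hyi (inv_ne_zero hc0))
    rw [w.ord_div hyi (inv_ne_zero hc0), w.ord_inv hc0, hG.1] at h2
    omega

variable [Algebra.EssFiniteType ℂ K]

theorem noniso {d : Dat K} (s : Sq d) (hfil : FilV s) (hy : ∀ j, s.y j ∈ Fc d) (k : ℕ)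
    (hk : 1 ≤ k) : ¬ IsMor (M2 s (k + 1) (by omega)) (M3 s k hk) ∧
      ¬ IsMor (M2 s k hk) (M3 s k hk) := by
  obtain ⟨⟨w, hw, h1, h2, h3⟩, ⟨w', hw', h1', h2', h3'⟩⟩ := exists_pole s hfil hy k hk
  have hfr : IsFree (M3 s k hk) (sys3 s k) := free_ξ (M3 s k hk)
  have hfr1 := ((free_pm (pm_ne (pm_ne (e3_ne s k) (e3_ne s _)) (e3_ne s _)) (e2_ne d)).1 hfr).1
  have hfr2 := (free_pm (pm_ne (e3_ne s k) (e3_ne s _)) (e3_ne s _)).1 hfr1
  have hfr3 := (free_pm (e3_ne s k) (e3_ne s _)).1 hfr2.1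
  constructor
  · intro hmor
    refine core s hy (k + 1) (by omega) k (free_of_mor hmor hfr3.1) w hw ?_ h1
    intro j hj1 hj2
    obtain rfl | rfl : j = k + 1 ∨ j = k + 2 := by omega
    · exact h2
    · exact h3
  · intro hmor
    refine core s hy k hk (k + 2) (free_of_mor hmor hfr2.2) w' hw' ?_ h1'
    intro j hj1 hj2
    obtain rfl | rfl : j = k ∨ j = k + 1 := by omega
    · exact h3'
    · exact h2'

end Pool.Agent.TH921.FL_NI
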