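import Pool.Agent.TH161.KS.Defs

set_option autoImplicit false

/-! Project KS (helper161), job LLN: values versus ranks. -/

namespace Pool.Agent.TH921.KS_LLN

open Finset Filter Topology
open scoped Classical
open Pool.Agent.TH161 Pool.Agent.TH161.LW Pool.Agent.TH161.KS

/-! ### elements of a finite set -/

/-- the `i`-th element (from 0) -/
noncomputable def el (t : Finset ℕ) (i : ℕ) : ℕ := if h : i < t.card then t.orderEmbOfFin rfl ⟨i, h⟩ else 0

lemma el_eq {t : Finset ℕ} {n : ℕ} (ht : t.card = n) (i : Fin n) : el t i = t.orderEmbOfFin ht i := by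
  subst ht
  unfold el
  rw [dif_pos i.2]

lemma ev_el {t : Finset ℕ} {n : ℕ} (ht : t.card = n) (M : ℕ) (i : Fin n) :
    ev t M ((i : ℕ) + 1) = (el t i : ℤ) := by
  have hi : (i : ℕ) < t.card := by rw [ht]; exact i.2
  unfold ev el
  rw [if_neg (Nat.succ_ne_zero _)]
  simp only [Nat.add_sub_cancel]
  rw [dif_pos hi, dif_pos hi]

lemma ev_last {t : Finset ℕ} {n : ℕ} (ht : t.card = n) (M : ℕ) : ev t M (n + 1) = M := by
  unfold ev
  rw [if_neg (Nat.succ_ne_zero _)]
  simp only [Nat.add_sub_cancel]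
  rw [dif_neg (by omega)]

lemma ev_zero (t : Finset ℕ) (M : ℕ) : ev t M 0 = -1 := by
  unfold ev
  rw [if_pos rfl]

lemma card_down {n : ℕ} (P : Fin n → Prop) [DecidablePred P] (hP : ∀ a b, a ≤ b → P b → P a) (i : Fin n) :
    P i ↔ (i : ℕ) + 1 ≤ (univ.filter P).card := by
  constructor
  · intro h
    have h1 : Iic i ⊆ univ.filter P := by
      intro a ha
      rw [mem_filter]
      exact ⟨mem_univ _, hP a i (mem_Iic.mp ha) h⟩
    have h2 := card_le_card h1
    rwa [Fin.card_Iic] at h2
  · intro h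
    by_contra hn
    have h1 : univ.filter P ⊆ Iio i := by
      intro a ha
      rw [mem_Iio]
      by_contra hc
      exact hn (hP i a (not_lt.mp hc) (mem_filter.mp ha).2)
    have h2 := card_le_card h1
    rw [Fin.card_Iio] at h2
    omega

lemma cnt_fin {t : Finset ℕ} {n : ℕ} (ht : t.card = n) (w : ℤ) :
    (t.filter fun a : ℕ => (a : ℤ) ≤ w).card =
      (univ.filter fun j : Fin n => ((t.orderEmbOfFin ht j : ℕ) : ℤ) ≤ w).card := by
  symm
  refine card_bij (fun j _ => t.orderEmbOfFin ht j) ?_ ?_ ?_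
  · intro j hj
    rw [mem_filter]
    exact ⟨orderEmbOfFin_mem t ht j, (mem_filter.mp hj).2⟩
  · intro a _ b _ hab
    exact (t.orderEmbOfFin ht).injective hab
  · intro a ha
    obtain ⟨h1, h2⟩ := mem_filter.mp ha
    have h3 : a ∈ Set.range (t.orderEmbOfFin ht) := by
      rw [range_orderEmbOfFin]; exact h1
    obtain ⟨j, hj⟩ := h3
    refine ⟨j, ?_, hj⟩
    rw [mem_filter]
    refine ⟨mem_univ _, ?_⟩
    rw [hj]; exact h2

lemma ev_le_iff {t : Finset ℕ} {n : ℕ} (ht : t.card = n) (M i : ℕ) (h1 : 1 ≤ i) (h2 : i ≤ n) (w : ℤ) :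
    ev t M i ≤ w ↔ i ≤ (t.filter fun a : ℕ => (a : ℤ) ≤ w).card := by
  obtain ⟨j, rfl⟩ : ∃ j : ℕ, i = j + 1 := ⟨i - 1, by omega⟩
  have hj : j < n := by omega
  have e1 := ev_el ht M ⟨j, hj⟩
  simp only at e1
  have hP : ∀ a b : Fin n, a ≤ b → ((t.orderEmbOfFin ht b : ℕ) : ℤ) ≤ w →
      ((t.orderEmbOfFin ht a : ℕ) : ℤ) ≤ w := ?_
  · have h5 := card_down (fun j : Fin n => ((t.orderEmbOfFin ht j : ℕ) : ℤ) ≤ w) hP ⟨j, hj⟩
    rw [← el_eq ht ⟨j, hj⟩] at h5
    rw [e1, cnt_fin ht]
    exact h5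
  intro a b hab hb
  have h3 : t.orderEmbOfFin ht a ≤ t.orderEmbOfFin ht b := (t.orderEmbOfFin ht).monotone hab
  have h4 : ((t.orderEmbOfFin ht a : ℕ) : ℤ) ≤ (t.orderEmbOfFin ht b : ℕ) := by exact_mod_cast h3
  exact h4.trans hb

/-! ### Chebyshev -/

section cheb

variable {n M : ℕ}

/-- the mean gap -/
noncomputable def KK (n M : ℕ) : ℝ := ((M : ℝ) + 1) / ((n : ℝ) + 1)

lemma KK_pos : 0 < KK n M := by unfold KK; positivity

/-- the deviation -/
noncomputable def dv (n M i j : ℕ) (t : Finset ℕ) : ℝ :=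
  ((ev t M j : ℝ) - ev t M i) - ((j : ℝ) - i) * KK n M

lemma gap2 (hG : P_GAP) (hn : n ≤ M) {i j : ℕ} (hi : i ≤ n + 1) (hj : j ≤ n + 1) :
    ∑ t ∈ powersetCard n (range M), dv n M i j t ^ 2 ≤ |(j : ℝ) - i| * KK n M ^ 2 * (M.choose n : ℝ) := by
  rcases le_total i j with h | h
  · have h1 := hG n M i j hn h hj
    have h2 : (0 : ℝ) ≤ (j : ℝ) - i := by
      have : (i : ℝ) ≤ j := by exact_mod_cast h
      linarith
    rw [abs_of_nonneg h2]
    exact h1
  · have h1 := hG n M j i hn h hi
    have h2 : (j : ℝ) - i ≤ 0 := by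
      have : (j : ℝ) ≤ i := by exact_mod_cast h
      linarith
    rw [abs_of_nonpos h2]
    have e1 : ∀ t, dv n M i j t ^ 2 = (((ev t M i : ℝ) - ev t M j) -
        ((i : ℝ) - j) * (((M : ℝ) + 1) / ((n : ℝ) + 1))) ^ 2 := by
      intro t
      unfold dv KK
      ring
    simp only [e1]
    have e2 : -((j : ℝ) - i) = (i : ℝ) - j := by ring
    rw [e2]
    exact h1

lemma cheb (hG : P_GAP) (hn : n ≤ M) {i j : ℕ} (hi : i ≤ n + 1) (hj : j ≤ n + 1) {δ : ℝ} (hδ : 0 < δ) :
    (((powersetCard n (range M)).filter fun t => δ * KK n M ≤ |dv n M i j t|).card : ℝ) ≤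
      |(j : ℝ) - i| / δ ^ 2 * (M.choose n : ℝ) := by
  have h1 := gap2 hG hn hi hj
  have hK := KK_pos (n := n) (M := M)
  have h2 : (((powersetCard n (range M)).filter fun t => δ * KK n M ≤ |dv n M i j t|).card : ℝ) *
      (δ * KK n M) ^ 2 ≤ ∑ t ∈ powersetCard n (range M), dv n M i j t ^ 2 := by
    rw [← nsmul_eq_mul, ← sum_const]
    refine (sum_le_sum (g := fun t => dv n M i j t ^ 2) ?_).trans
      (sum_le_sum_of_subset_of_nonneg (filter_subset _ _) fun _ _ _ => sq_nonneg _)
    intro t ht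
    have h3 := (mem_filter.mp ht).2
    rw [← sq_abs (dv n M i j t)]
    exact pow_le_pow_left₀ (by positivity) h3 2
  have h3 := h2.trans h1
  rw [div_mul_eq_mul_div, le_div_iff₀ (by positivity)]
  have h4 : (0:ℝ) < KK n M ^ 2 := by positivity
  refine le_of_mul_le_mul_right ?_ h4
  calc (((powersetCard n (range M)).filter fun t => δ * KK n M ≤ |dv n M i j t|).card : ℝ) * δ ^ 2 *
        KK n M ^ 2 = (((powersetCard n (range M)).filter fun t => δ * KK n M ≤ |dv n M i j t|).card : ℝ) *
        (δ * KK n M) ^ 2 := by ring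
    _ ≤ |(j : ℝ) - i| * KK n M ^ 2 * (M.choose n : ℝ) := h3
    _ = |(j : ℝ) - i| * (M.choose n : ℝ) * KK n M ^ 2 := by ring

lemma mean_dev (hG : P_GAP) (hn : n ≤ M) {i j : ℕ} (hi : i ≤ n + 1) (hj : j ≤ n + 1) :
    ∑ t ∈ powersetCard n (range M), |dv n M i j t| ≤ √|(j : ℝ) - i| * KK n M * (M.choose n : ℝ) := by
  have h1 := gap2 hG hn hi hj
  have hK := KK_pos (n := n) (M := M)
  have hc : ((powersetCard n (range M)).card : ℝ) = (M.choose n : ℝ) := by
    rw [card_powersetCard, card_range]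
  have h2 := sq_sum_le_card_mul_sum_sq (s := powersetCard n (range M)) (f := fun t => |dv n M i j t|)
  simp only [sq_abs] at h2
  rw [hc] at h2
  have h3 : (∑ t ∈ powersetCard n (range M), |dv n M i j t|) ^ 2 ≤
      (√|(j : ℝ) - i| * KK n M * (M.choose n : ℝ)) ^ 2 := by
    refine h2.trans ?_
    rw [mul_pow, mul_pow, Real.sq_sqrt (abs_nonneg _)]
    calc (M.choose n : ℝ) * ∑ t ∈ powersetCard n (range M), dv n M i j t ^ 2 ≤
        (M.choose n : ℝ) * (|(j : ℝ) - i| * KK n M ^ 2 * (M.choose n : ℝ)) := by gcongr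
      _ = _ := by ring
  exact (le_abs_self _).trans (abs_le_of_sq_le_sq h3 (by positivity))

end cheb

/-! ### injective maps -/

section maps

variable {α : Type} [Fintype α]

/-- the map of a bijection and a set -/
noncomputable def fm (σ : α ≃ Fin (Fintype.card α)) (t : Finset ℕ) : α → ℕ := fun z => el t (σ z)

lemma fm_eq {t : Finset ℕ} (ht : t.card = Fintype.card α) (σ : α ≃ Fin (Fintype.card α)) (z : α) :
    fm σ t z = t.orderEmbOfFin ht (σ z) := el_eq ht (σ z)

lemma ev_fm {t : Finset ℕ} (ht : t.card = Fintype.card α) (M : ℕ) (σ : α ≃ Fin (Fintype.card α)) (z : α) :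
    ev t M ((σ z : ℕ) + 1) = (fm σ t z : ℤ) := ev_el ht M (σ z)

lemma pos_fm {t : Finset ℕ} (ht : t.card = Fintype.card α) (σ : α ≃ Fin (Fintype.card α)) (x : α) :
    pos (fm σ t) x = (σ x : ℕ) := by
  unfold pos
  have h1 : (univ.filter fun z => fm σ t z < fm σ t x) = (Iio (σ x)).map σ.symm.toEmbedding := by
    ext z
    rw [mem_filter, fm_eq ht, fm_eq ht, (t.orderEmbOfFin ht).lt_iff_lt]
    simp
  rw [h1, card_map, Fin.card_Iio]

lemma card_fm {t : Finset ℕ} (ht : t.card = Fintype.card α) (σ : α ≃ Fin (Fintype.card α)) (w : ℤ) :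
    (univ.filter fun z => (fm σ t z : ℤ) ≤ w).card = (t.filter fun a : ℕ => (a : ℤ) ≤ w).card := by
  rw [cnt_fin ht]
  have h1 : (univ.filter fun z => (fm σ t z : ℤ) ≤ w) =
      (univ.filter fun j : Fin (Fintype.card α) =>
        ((t.orderEmbOfFin ht j : ℕ) : ℤ) ≤ w).map σ.symm.toEmbedding := by
    ext z
    rw [mem_filter, fm_eq ht]
    simp
  rw [h1, card_map]

lemma card_le_fm {t : Finset ℕ} (ht : t.card = Fintype.card α) (σ : α ≃ Fin (Fintype.card α)) (y : α) :
    (univ.filter fun z => fm σ t z ≤ fm σ t y).card = (σ y : ℕ) + 1 := by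
  have h1 : (univ.filter fun z => fm σ t z ≤ fm σ t y) = (Iic (σ y)).map σ.symm.toEmbedding := by
    ext z
    rw [mem_filter, fm_eq ht, fm_eq ht, (t.orderEmbOfFin ht).le_iff_le]
    simp
  rw [h1, card_map, Fin.card_Iic]

lemma cnt_fm {t : Finset ℕ} (ht : t.card = Fintype.card α) (σ : α ≃ Fin (Fintype.card α)) (y : α) (v : ℤ) :
    KS.cnt (fm σ t) y v = ((t.filter fun a : ℕ => (a : ℤ) ≤ (fm σ t y : ℤ) + v).card : ℤ) - ((σ y : ℕ) + 1) := by
  unfold KS.cnt
  rw [card_fm ht, card_le_fm ht]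
  push_cast
  ring

lemma unit_eq (M : ℕ) : unit α M = KK (Fintype.card α) M := rfl

/-- the law of large numbers for a fixed linear order -/
lemma event (hG : P_GAP) {M : ℕ} (hn : Fintype.card α ≤ M) (σ : α ≃ Fin (Fintype.card α)) (y : α) (v : ℤ)
    {e : ℝ} (he : 2 ≤ e) :
    (((powersetCard (Fintype.card α) (range M)).filter fun t => 0 ≤ (fm σ t y : ℤ) + v ∧
      (fm σ t y : ℤ) + v < M ∧ e ≤ |(KS.cnt (fm σ t) y v : ℝ) - v / unit α M|).card : ℝ) ≤
      16 * (|(v : ℝ)| / unit α M + e + 1) / e ^ 2 * (M.choose (Fintype.card α) : ℝ) := by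
  rw [unit_eq]
  set K := KK (Fintype.card α) M with hK
  have hK0 : 0 < K := KK_pos
  obtain ⟨V, hV⟩ : ∃ V : ℝ, V = (v : ℝ) / K := ⟨_, rfl⟩
  have hVK : V * K = v := by rw [hV]; field_simp
  have hVa : |(v : ℝ)| / K = |V| := by rw [hV, abs_div, abs_of_pos hK0]
  set κ : ℕ := (σ y : ℕ) + 1 with hκ
  have hκn : κ ≤ (Fintype.card α) := (σ y).2
  set j : ℕ := min ⌈(κ : ℝ) + V + e⌉₊ ((Fintype.card α) + 1) with hj
  set i : ℕ := min (⌊(κ : ℝ) + V - e⌋₊ + 1) ((Fintype.card α) + 1) with hi
  have hV1 := le_abs_self V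
  have hV2 := neg_abs_le V
  have hV0 := abs_nonneg V
  have hκ0 : (0 : ℝ) ≤ κ := Nat.cast_nonneg _
  have hκn' : (κ : ℝ) ≤ (Fintype.card α) := by exact_mod_cast hκn
  have hn0 : (0 : ℝ) ≤ (Fintype.card α) := Nat.cast_nonneg _
  -- the indices are close
  have bj : |(j : ℝ) - κ| ≤ |V| + e + 1 := by
    have h1 : (κ : ℝ) + V + e ≤ (⌈(κ : ℝ) + V + e⌉₊ : ℝ) := Nat.le_ceil _
    have h2 : (⌈(κ : ℝ) + V + e⌉₊ : ℝ) ≤ max ((κ : ℝ) + V + e + 1) 0 := by
      rcases le_or_gt 0 ((κ : ℝ) + V + e) with h | h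
      · exact (Nat.ceil_lt_add_one h).le.trans (le_max_left _ _)
      · rw [Nat.ceil_eq_zero.mpr h.le]
        simp
    have h3 : (j : ℝ) = min (⌈(κ : ℝ) + V + e⌉₊ : ℝ) (((Fintype.card α) : ℝ) + 1) := by rw [hj]; push_cast; rfl
    rw [abs_le]
    constructor
    · rw [h3]
      rcases min_cases (⌈(κ : ℝ) + V + e⌉₊ : ℝ) (((Fintype.card α) : ℝ) + 1) with ⟨h, _⟩ | ⟨h, _⟩
      · rw [h]; linarith
      · rw [h]; linarith
    · have h4 : (j : ℝ) ≤ max ((κ : ℝ) + V + e + 1) 0 := by
        rw [h3]; exact (min_le_left _ _).trans h2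
      rcases max_cases ((κ : ℝ) + V + e + 1) 0 with ⟨h, _⟩ | ⟨h, _⟩
      · rw [h] at h4; linarith
      · rw [h] at h4; linarith
  have bi : |(i : ℝ) - κ| ≤ |V| + e + 1 := by
    have h1 : (κ : ℝ) + V - e < (⌊(κ : ℝ) + V - e⌋₊ : ℝ) + 1 := Nat.lt_floor_add_one _
    have h2 : (⌊(κ : ℝ) + V - e⌋₊ : ℝ) ≤ max ((κ : ℝ) + V - e) 0 := by
      rcases le_or_gt 0 ((κ : ℝ) + V - e) with h | h
      · exact (Nat.floor_le h).trans (le_max_left _ _)
      · rw [Nat.floor_of_nonpos h.le]
        simp
    have h3 : (i : ℝ) = min ((⌊(κ : ℝ) + V - e⌋₊ : ℝ) + 1) (((Fintype.card α) : ℝ) + 1) := by rw [hi]; push_cast; rfl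
    rw [abs_le]
    constructor
    · rw [h3]
      rcases min_cases ((⌊(κ : ℝ) + V - e⌋₊ : ℝ) + 1) (((Fintype.card α) : ℝ) + 1) with ⟨h, _⟩ | ⟨h, _⟩
      · rw [h]; linarith
      · rw [h]; linarith
    · have h4 : (i : ℝ) ≤ max ((κ : ℝ) + V - e) 0 + 1 := by
        rw [h3]; exact (min_le_left _ _).trans (by linarith)
      rcases max_cases ((κ : ℝ) + V - e) 0 with ⟨h, _⟩ | ⟨h, _⟩
      · rw [h] at h4; linarith
      · rw [h] at h4; linarith
  have hj1 : j ≤ (Fintype.card α) + 1 := min_le_right _ _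
  have hi1 : i ≤ (Fintype.card α) + 1 := min_le_right _ _
  have hκ1 : κ ≤ (Fintype.card α) + 1 := by omega
  have e0 : 0 < e := by linarith
  have cA := cheb hG hn hκ1 hj1 e0
  have cB := cheb hG hn hκ1 hi1 (half_pos e0)
  have hsub : ((powersetCard (Fintype.card α) (range M)).filter fun t => 0 ≤ (fm σ t y : ℤ) + v ∧
      (fm σ t y : ℤ) + v < M ∧ e ≤ |(KS.cnt (fm σ t) y v : ℝ) - v / K|) ⊆
      ((powersetCard (Fintype.card α) (range M)).filter fun t => e * KK (Fintype.card α) M ≤ |dv (Fintype.card α) M κ j t|) ∪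
      ((powersetCard (Fintype.card α) (range M)).filter fun t => e / 2 * KK (Fintype.card α) M ≤ |dv (Fintype.card α) M κ i t|) := by
    intro t ht
    obtain ⟨htm, h0, hM, hev⟩ := mem_filter.mp ht
    have ht2 : t.card = (Fintype.card α) := (mem_powersetCard.mp htm).2
    rw [cnt_fm ht2] at hev
    set T : ℤ := (fm σ t y : ℤ) with hT
    set cc : ℕ := (t.filter fun a : ℕ => (a : ℤ) ≤ T + v).card with hcc
    have hccn : cc ≤ (Fintype.card α) := by rw [← ht2]; exact card_le_card (filter_subset _ _)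
    have hTe : ev t M κ = T := ev_fm ht2 M σ y
    have hcast : (((cc : ℤ) - ((σ y : ℕ) + 1) : ℤ) : ℝ) = (cc : ℝ) - κ := by
      rw [hκ]; push_cast; ring
    rw [hcast, ← hV] at hev
    rw [mem_union, mem_filter, mem_filter]
    rcases le_abs'.mp hev with h | h
    · -- few elements
      right
      refine ⟨htm, ?_⟩
      have hx : (cc : ℝ) ≤ (κ : ℝ) + V - e := by
        have : (cc : ℝ) - κ - V ≤ -e := h
        linarith
      have hx0 : 0 ≤ (κ : ℝ) + V - e := le_trans (Nat.cast_nonneg _) hx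
      have hfl : cc ≤ ⌊(κ : ℝ) + V - e⌋₊ := Nat.le_floor hx
      have hevi : T + v < ev t M i := by
        rcases le_or_gt (⌊(κ : ℝ) + V - e⌋₊ + 1) (Fintype.card α) with h2 | h2
        · have hie : i = ⌊(κ : ℝ) + V - e⌋₊ + 1 := by rw [hi]; omega
          by_contra hc
          have h3 := (ev_le_iff ht2 M i (by omega) (by omega) (T + v)).mp (not_lt.mp hc)
          omega
        · have hie : i = (Fintype.card α) + 1 := by rw [hi]; omega
          rw [hie, ev_last ht2]
          exact hM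
      have hi2 : (i : ℝ) ≤ (κ : ℝ) + V - e + 1 := by
        have h3 : (i : ℝ) ≤ (⌊(κ : ℝ) + V - e⌋₊ : ℝ) + 1 := by
          have : i ≤ ⌊(κ : ℝ) + V - e⌋₊ + 1 := min_le_left _ _
          exact_mod_cast this
        have h4 := Nat.floor_le hx0
        linarith
      have h5 : (T : ℝ) + v < (ev t M i : ℝ) := by exact_mod_cast hevi
      have h6 : dv (Fintype.card α) M κ i t = (ev t M i : ℝ) - T - ((i : ℝ) - κ) * K := by
        unfold dv
        rw [hTe]
      have h7 : ((i : ℝ) - κ) * K ≤ (V - e + 1) * K := mul_le_mul_of_nonneg_right (by linarith) hK0.le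
      have h8 : (V - e + 1) * K = v - (e - 1) * K := by
        calc (V - e + 1) * K = V * K - (e - 1) * K := by ring
          _ = _ := by rw [hVK]
      have h9 : e / 2 * K ≤ (e - 1) * K := mul_le_mul_of_nonneg_right (by linarith) hK0.le
      refine le_trans ?_ (le_abs_self _)
      rw [h6]
      show e / 2 * K ≤ _
      linarith
    · -- many elements
      left
      refine ⟨htm, ?_⟩
      have hx : (κ : ℝ) + V + e ≤ (cc : ℝ) := by
        have : e ≤ (cc : ℝ) - κ - V := h
        linarith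
      have hce : ⌈(κ : ℝ) + V + e⌉₊ ≤ cc := Nat.ceil_le.mpr hx
      have hje : j = ⌈(κ : ℝ) + V + e⌉₊ := by rw [hj]; omega
      have hevj : ev t M j ≤ T + v := by
        rcases Nat.eq_zero_or_pos j with h2 | h2
        · rw [h2, ev_zero]
          omega
        · exact (ev_le_iff ht2 M j h2 (by omega) (T + v)).mpr (by omega)
      have hj2 : (κ : ℝ) + V + e ≤ (j : ℝ) := by
        rw [hje]; exact Nat.le_ceil _
      have h5 : (ev t M j : ℝ) ≤ (T : ℝ) + v := by exact_mod_cast hevj
      have h6 : dv (Fintype.card α) M κ j t = (ev t M j : ℝ) - T - ((j : ℝ) - κ) * K := by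
        unfold dv
        rw [hTe]
      have h7 : (V + e) * K ≤ ((j : ℝ) - κ) * K := mul_le_mul_of_nonneg_right (by linarith) hK0.le
      have h8 : (V + e) * K = v + e * K := by
        calc (V + e) * K = V * K + e * K := by ring
          _ = _ := by rw [hVK]
      refine le_trans ?_ (neg_le_abs _)
      rw [h6]
      show e * K ≤ _
      linarith
  have h1 : (((powersetCard (Fintype.card α) (range M)).filter fun t => 0 ≤ (fm σ t y : ℤ) + v ∧
      (fm σ t y : ℤ) + v < M ∧ e ≤ |(KS.cnt (fm σ t) y v : ℝ) - v / K|).card : ℝ) ≤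
      (((powersetCard (Fintype.card α) (range M)).filter fun t => e * KK (Fintype.card α) M ≤ |dv (Fintype.card α) M κ j t|).card : ℝ) +
      (((powersetCard (Fintype.card α) (range M)).filter fun t => e / 2 * KK (Fintype.card α) M ≤ |dv (Fintype.card α) M κ i t|).card : ℝ) := by
    have := (card_le_card hsub).trans (card_union_le _ _)
    exact_mod_cast this
  have hC : (0 : ℝ) ≤ (M.choose (Fintype.card α) : ℝ) := Nat.cast_nonneg _
  have h2 : |(j : ℝ) - κ| / e ^ 2 * (M.choose (Fintype.card α) : ℝ) ≤ (|V| + e + 1) / e ^ 2 * (M.choose (Fintype.card α) : ℝ) := by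
    gcongr
  have h3 : |(i : ℝ) - κ| / (e / 2) ^ 2 * (M.choose (Fintype.card α) : ℝ) ≤
      4 * ((|V| + e + 1) / e ^ 2) * (M.choose (Fintype.card α) : ℝ) := by
    have h4 : |(i : ℝ) - κ| / (e / 2) ^ 2 = 4 * (|(i : ℝ) - κ| / e ^ 2) := by
      field_simp
      ring
    rw [h4]
    gcongr
  have h5 : 0 ≤ (|V| + e + 1) / e ^ 2 * (M.choose (Fintype.card α) : ℝ) := by positivity
  rw [hVa]
  have h6 : 16 * (|V| + e + 1) / e ^ 2 * (M.choose (Fintype.card α) : ℝ) =
      16 * ((|V| + e + 1) / e ^ 2 * (M.choose (Fintype.card α) : ℝ)) := by ring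
  rw [h6]
  linarith

end maps

/-! ### sums over injective maps -/

section sums

variable {α : Type} [Fintype α] [PartialOrder α]

theorem sum_inj (G : (α → ℕ) → ℝ) (M : ℕ) :
    ∑ f ∈ (Om α M).filter (fun f => Function.Injective f), G f =
      ∑ σ ∈ univ.filter (fun σ : α ≃ Fin (Fintype.card α) => StrictMono ⇑σ),
        ∑ t ∈ powersetCard (Fintype.card α) (range M), G (fm σ t) := by
  rw [← Finset.sum_product']
  symm
  refine Finset.sum_bij (fun p _ => fm p.1 p.2) ?_ ?_ ?_ ?_
  · rintro ⟨σ, t⟩ hp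
    obtain ⟨hσ, ht⟩ := Finset.mem_product.mp hp
    obtain ⟨ht1, ht2⟩ := Finset.mem_powersetCard.mp ht
    have hf : fm σ t = fun z => t.orderEmbOfFin ht2 (σ z) := funext fun z => fm_eq ht2 σ z
    show fm σ t ∈ _
    rw [hf, mem_filter, mem_Om]
    refine ⟨⟨fun x => mem_range.mp (ht1 (orderEmbOfFin_mem t ht2 (σ x))), ?_⟩, ?_⟩
    · exact (mono_iff σ (t.orderEmbOfFin ht2)).mp (mem_filter.mp hσ).2
    · exact (t.orderEmbOfFin ht2).injective.comp σ.injective
  · rintro ⟨σ, t⟩ hp ⟨σ', t'⟩ hp' heq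
    obtain ⟨hσ, ht⟩ := Finset.mem_product.mp hp
    obtain ⟨hσ', ht'⟩ := Finset.mem_product.mp hp'
    have ht2 := (Finset.mem_powersetCard.mp ht).2
    have ht2' := (Finset.mem_powersetCard.mp ht').2
    have heq' : fm σ t = fm σ' t' := heq
    have e1 : fm σ t = (t.orderEmbOfFin ht2) ∘ σ := funext fun z => fm_eq ht2 σ z
    have e2 : fm σ' t' = (t'.orderEmbOfFin ht2') ∘ σ' := funext fun z => fm_eq ht2' σ' z
    have h1 : Set.range (fm σ t) = (t : Set ℕ) := by
      rw [e1, Set.range_comp, σ.surjective.range_eq, Set.image_univ, Finset.range_orderEmbOfFin]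
    have h2 : Set.range (fm σ' t') = (t' : Set ℕ) := by
      rw [e2, Set.range_comp, σ'.surjective.range_eq, Set.image_univ, Finset.range_orderEmbOfFin]
    have htt : t = t' := by
      have : (t : Set ℕ) = (t' : Set ℕ) := by rw [← h1, ← h2, heq']
      exact_mod_cast this
    subst htt
    have hσσ : σ = σ' := by
      ext z
      have h3 := congrFun heq' z
      rw [fm_eq ht2, fm_eq ht2] at h3
      have h4 := (t.orderEmbOfFin ht2).injective h3
      rw [h4]
    rw [hσσ]
  · intro f hf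
    obtain ⟨hfO, hinj⟩ := Finset.mem_filter.mp hf
    obtain ⟨hfM, hmono⟩ := mem_Om.mp hfO
    set t : Finset ℕ := univ.image f with ht
    have ht2 : t.card = Fintype.card α := by
      rw [ht, Finset.card_image_of_injective _ hinj, Finset.card_univ]
    have hmem : ∀ z, f z ∈ t := fun z => Finset.mem_image_of_mem f (Finset.mem_univ z)
    let g : α → t := fun z => ⟨f z, hmem z⟩
    have hg : Function.Bijective g := by
      constructor
      · intro a b hab
        exact hinj (congrArg Subtype.val hab)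
      · rintro ⟨v, hv⟩
        obtain ⟨z, _, hz⟩ := Finset.mem_image.mp hv
        exact ⟨z, Subtype.ext hz⟩
    let σ : α ≃ Fin (Fintype.card α) := (Equiv.ofBijective g hg).trans (t.orderIsoOfFin ht2).symm.toEquiv
    have hσ : ∀ z, t.orderEmbOfFin ht2 (σ z) = f z := by
      intro z
      rw [← Finset.coe_orderIsoOfFin_apply]
      have : (t.orderIsoOfFin ht2) (σ z) = g z := by
        show (t.orderIsoOfFin ht2) ((t.orderIsoOfFin ht2).symm (g z)) = g z
        simp
      rw [this]
    have hfun : (fun z => t.orderEmbOfFin ht2 (σ z)) = f := funext hσ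
    have hfm : fm σ t = f := by
      funext z
      rw [fm_eq ht2, hσ]
    have hmemt : t ∈ powersetCard (Fintype.card α) (range M) := by
      rw [Finset.mem_powersetCard]
      refine ⟨?_, ht2⟩
      intro v hv
      obtain ⟨z, _, hz⟩ := Finset.mem_image.mp hv
      rw [← hz, mem_range]; exact hfM z
    have hσm : StrictMono ⇑σ := by
      rw [mono_iff σ (t.orderEmbOfFin ht2), hfun]
      exact hmono
    exact ⟨(σ, t), Finset.mem_product.mpr ⟨Finset.mem_filter.mpr ⟨Finset.mem_univ _, hσm⟩, hmemt⟩, hfm⟩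
  · intro p _
    rfl

lemma card_filter_sum (M : ℕ) (p : (α → ℕ) → Prop) :
    (((Om α M).filter fun f => Function.Injective f ∧ p f).card : ℝ) =
      ∑ σ ∈ univ.filter (fun σ : α ≃ Fin (Fintype.card α) => StrictMono ⇑σ),
        (((powersetCard (Fintype.card α) (range M)).filter fun t => p (fm σ t)).card : ℝ) := by
  have h1 := sum_inj (α := α) (fun f => if p f then (1 : ℝ) else 0) M
  have h2 : ∀ σ : α ≃ Fin (Fintype.card α),
      ∑ t ∈ powersetCard (Fintype.card α) (range M), (if p (fm σ t) then (1 : ℝ) else 0) =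
      (((powersetCard (Fintype.card α) (range M)).filter fun t => p (fm σ t)).card : ℝ) := by
    intro σ
    rw [← sum_filter, sum_const, nsmul_eq_mul, mul_one]
  simp only [h2] at h1
  rw [← h1, ← sum_filter, filter_filter, sum_const, nsmul_eq_mul, mul_one]

lemma eN_pos (P : Type) [Fintype P] [PartialOrder P] : 0 < eN P := by
  unfold eN
  rw [Nat.card_pos_iff]
  refine ⟨?_, inferInstance⟩
  let _ : Fintype (LinearExtension P) := inferInstanceAs (Fintype P)
  let e : Fin (Fintype.card P) ≃o LinearExtension P :=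
    monoEquivOfFin (LinearExtension P) rfl
  let σ : P ≃ Fin (Fintype.card P) := e.symm.toEquiv
  refine ⟨σ, ?_⟩
  have hm : Monotone (toLinearExtension : P → LinearExtension P) := toLinearExtension.monotone
  intro a b hab
  refine lt_of_le_of_ne ?_ (fun h => hab.ne (σ.injective h))
  exact e.symm.monotone (hm hab.le)

lemma ev_pos_Om : ∀ᶠ M : ℕ in atTop, 0 < (Om α M).card := by
  have hf : (0 : ℝ) < 1 / (Fintype.card α).factorial := by positivity
  have he : (0 : ℝ) < eN α := by exact_mod_cast eN_pos α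
  have h1 := (tendsto_Om (α := α)).eventually (lt_mem_nhds (mul_pos he hf))
  filter_upwards [h1] with M hM
  by_contra hc
  have h2 : (Om α M).card = 0 := by omega
  rw [h2] at hM
  simp at hM

lemma ev_ninj : ∀ᶠ M : ℕ in atTop, (((Om α M).filter fun f => ¬ Function.Injective f).card : ℝ) ≤
    1 / ((Fintype.card α : ℝ) + 1) ^ 4 * (Om α M).card := by
  have hf : (0 : ℝ) < 1 / (Fintype.card α).factorial := by positivity
  have he : (0 : ℝ) < eN α := by exact_mod_cast eN_pos α
  have h1 := (tendsto_noninj (α := α)).div (tendsto_Om (α := α)) (mul_pos he hf).ne'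
  rw [zero_div] at h1
  have h2 : (0 : ℝ) < 1 / ((Fintype.card α : ℝ) + 1) ^ 4 := by positivity
  filter_upwards [h1.eventually (gt_mem_nhds h2), ev_pos_Om (α := α), eventually_gt_atTop 0] with M hM hO hM0
  have hO' : (0 : ℝ) < ((Om α M).card : ℝ) := by exact_mod_cast hO
  have hM0' : (0 : ℝ) < (M : ℝ) := by exact_mod_cast hM0
  simp only [Pi.div_apply] at hM
  rw [div_div_div_cancel_right₀ (by positivity), div_lt_iff₀ hO'] at hM
  exact hM.le

end sums

/-! ### the theorem -/

theorem t_LLN : P_LLN := by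
  intro hG α _ _
  filter_upwards [ev_pos_Om (α := α), ev_ninj (α := α), eventually_ge_atTop (Fintype.card α)] with M hO hni hn
  have hO' : (0 : ℝ) < ((Om α M).card : ℝ) := by exact_mod_cast hO
  have hn0 : (0 : ℝ) ≤ (Fintype.card α) := Nat.cast_nonneg _
  set N : ℝ := ((Om α M).card : ℝ) with hN
  have hK0 : 0 < unit α M := KK_pos
  have hsplit : ∀ G : (α → ℕ) → ℝ, ∑ f ∈ Om α M, G f =
      ∑ f ∈ (Om α M).filter (fun f => Function.Injective f), G f +
      ∑ f ∈ (Om α M).filter (fun f => ¬ Function.Injective f), G f :=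
    fun G => (sum_filter_add_sum_filter_not _ _ _).symm
  have hinjN : ∑ σ ∈ univ.filter (fun σ : α ≃ Fin (Fintype.card α) => StrictMono ⇑σ),
      (M.choose (Fintype.card α) : ℝ) ≤ N := by
    have h1 := sum_inj (α := α) (fun _ => (1 : ℝ)) M
    simp only [sum_const, card_powersetCard, card_range, nsmul_eq_mul, mul_one] at h1
    rw [sum_const, nsmul_eq_mul, ← h1, hN]
    exact_mod_cast card_le_card (filter_subset _ _)
  constructor
  · intro x y
    set a : (α → ℕ) → ℝ := fun f => |dd M x y f - ((pos f y : ℝ) - pos f x)| with ha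
    set b : (α → ℕ) → ℝ := fun f => |(pos f y : ℝ) - pos f x| with hb
    -- the injective maps
    have h1 : ∑ f ∈ (Om α M).filter (fun f => Function.Injective f), a f ≤
        ∑ f ∈ (Om α M).filter (fun f => Function.Injective f), √(b f) := by
      rw [sum_inj, sum_inj]
      refine sum_le_sum fun σ _ => ?_
      have hx : ((σ x : ℕ) + 1) ≤ (Fintype.card α) + 1 := by have := (σ x).2; omega
      have hy : ((σ y : ℕ) + 1) ≤ (Fintype.card α) + 1 := by have := (σ y).2; omega
      have h2 := mean_dev hG hn hx hy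
      have h3 : ∀ t ∈ powersetCard (Fintype.card α) (range M), a (fm σ t) =
          |dv (Fintype.card α) M ((σ x : ℕ) + 1) ((σ y : ℕ) + 1) t| / unit α M := by
        intro t ht
        have ht2 : t.card = (Fintype.card α) := (mem_powersetCard.mp ht).2
        have e1 := ev_fm ht2 M σ x
        have e2 := ev_fm ht2 M σ y
        rw [ha]
        simp only
        have e4 : |dv (Fintype.card α) M ((σ x : ℕ) + 1) ((σ y : ℕ) + 1) t| / unit α M =
            |dv (Fintype.card α) M ((σ x : ℕ) + 1) ((σ y : ℕ) + 1) t / unit α M| := by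
          rw [abs_div, abs_of_pos hK0]
        rw [e4]
        congr 1
        rw [pos_fm ht2, pos_fm ht2]
        unfold dd dv
        rw [e1, e2]
        have e3 : KK (Fintype.card α) M = unit α M := rfl
        rw [e3]
        field_simp
        push_cast
        ring
      have h4 : ∀ t ∈ powersetCard (Fintype.card α) (range M), √(b (fm σ t)) = √|(((σ y : ℕ) + 1 : ℕ) : ℝ) - ((σ x : ℕ) + 1 : ℕ)| := by
        intro t ht
        have ht2 : t.card = (Fintype.card α) := (mem_powersetCard.mp ht).2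
        rw [hb]
        simp only
        rw [pos_fm ht2, pos_fm ht2]
        congr 2
        push_cast
        ring
      rw [sum_congr rfl h3, sum_congr rfl h4, ← sum_div, sum_const, card_powersetCard, card_range, nsmul_eq_mul,
        div_le_iff₀ hK0]
      refine h2.trans (le_of_eq ?_)
      have e3 : KK (Fintype.card α) M = unit α M := rfl
      rw [e3]
      ring
    -- the other maps
    have h2 : ∑ f ∈ (Om α M).filter (fun f => ¬ Function.Injective f), a f ≤ N := by
      have h3 : ∀ f ∈ (Om α M).filter (fun f => ¬ Function.Injective f), a f ≤ 2 * ((Fintype.card α) : ℝ) + 1 := by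
        intro f hf
        have hfM := (mem_Om.mp (mem_filter.mp hf).1).1
        have h4 : |dd M x y f| ≤ ((Fintype.card α) : ℝ) + 1 := by
          unfold dd
          rw [abs_div, abs_of_pos hK0, div_le_iff₀ hK0]
          have e3 : (((Fintype.card α) : ℝ) + 1) * unit α M = (M : ℝ) + 1 := by
            unfold unit
            field_simp
          rw [e3, abs_le]
          have a1 : (f x : ℝ) ≤ M := by exact_mod_cast (hfM x).le
          have a2 : (f y : ℝ) ≤ M := by exact_mod_cast (hfM y).le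
          have a3 : (0 : ℝ) ≤ f x := Nat.cast_nonneg _
          have a4 : (0 : ℝ) ≤ f y := Nat.cast_nonneg _
          constructor <;> linarith
        have hp : ∀ z, (pos f z : ℝ) ≤ (Fintype.card α) ∧ (0 : ℝ) ≤ pos f z := by
          intro z
          refine ⟨?_, Nat.cast_nonneg _⟩
          have : pos f z ≤ (Fintype.card α) := by
            unfold pos
            exact card_le_univ _
          exact_mod_cast this
        have h5 : |(pos f y : ℝ) - pos f x| ≤ (Fintype.card α) := by
          rw [abs_le]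
          have a1 := hp x
          have a2 := hp y
          constructor <;> linarith [a1.1, a1.2, a2.1, a2.2]
        have h6 := abs_sub (dd M x y f) ((pos f y : ℝ) - pos f x)
        rw [ha]
        simp only
        linarith
      refine (sum_le_card_nsmul _ _ _ h3).trans ?_
      rw [nsmul_eq_mul]
      have h4 : 1 / (((Fintype.card α) : ℝ) + 1) ^ 4 * (2 * ((Fintype.card α) : ℝ) + 1) ≤ 1 := by
        rw [one_div, inv_mul_le_iff₀ (by positivity), mul_one]
        have h5 : (1 : ℝ) ≤ ((Fintype.card α) : ℝ) + 1 := by linarith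
        have h6 : (((Fintype.card α) : ℝ) + 1) ^ 2 ≤ (((Fintype.card α) : ℝ) + 1) ^ 4 := pow_le_pow_right₀ h5 (by norm_num)
        nlinarith
      calc (((Om α M).filter fun f => ¬ Function.Injective f).card : ℝ) * (2 * ((Fintype.card α) : ℝ) + 1) ≤
          (1 / (((Fintype.card α) : ℝ) + 1) ^ 4 * N) * (2 * ((Fintype.card α) : ℝ) + 1) := by gcongr
        _ = (1 / (((Fintype.card α) : ℝ) + 1) ^ 4 * (2 * ((Fintype.card α) : ℝ) + 1)) * N := by ring
        _ ≤ 1 * N := by gcongr
        _ = N := one_mul N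
    have h3 : ∑ f ∈ (Om α M).filter (fun f => Function.Injective f), √(b f) ≤ ∑ f ∈ Om α M, √(b f) :=
      sum_le_sum_of_subset_of_nonneg (filter_subset _ _) fun _ _ _ => Real.sqrt_nonneg _
    have hb0 : ∀ f, 0 ≤ b f := fun f => abs_nonneg _
    have h4 : ∑ f ∈ Om α M, √(b f) ≤ N * √(ex α M b) := by
      have h5 := sq_sum_le_card_mul_sum_sq (s := Om α M) (f := fun f => √(b f))
      simp only [Real.sq_sqrt (hb0 _)] at h5
      refine (le_abs_self _).trans (abs_le_of_sq_le_sq ?_ (by positivity))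
      refine h5.trans (le_of_eq ?_)
      have h6 : 0 ≤ ex α M b := by
        unfold ex
        exact div_nonneg (sum_nonneg fun f _ => hb0 f) hO'.le
      rw [mul_pow, Real.sq_sqrt h6]
      unfold ex
      rw [← hN]
      field_simp
    have h5 : ex α M a ≤ √(ex α M b) + 1 := by
      have h6 : ex α M a = (∑ f ∈ Om α M, a f) / N := rfl
      rw [h6, div_le_iff₀ hO', hsplit]
      have h7 : (√(ex α M b) + 1) * N = N * √(ex α M b) + N := by ring
      rw [h7]
      linarith
    exact h5
  · intro y v e he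
    set W : ℝ := 16 * (|(v : ℝ)| / unit α M + e + 1) / e ^ 2 with hW
    have hW0 : 0 ≤ W := by
      rw [hW]
      have := abs_nonneg (v : ℝ)
      positivity
    have hT0 : (0 : ℝ) ≤ 1 / (((Fintype.card α) : ℝ) + 1) ^ 4 := by positivity
    suffices key : ∀ p : (α → ℕ) → Prop, (∀ f, p f ↔ (0 ≤ (f y : ℤ) + v ∧ (f y : ℤ) + v < M ∧
        e ≤ |(KS.cnt f y v : ℝ) - v / unit α M|)) → pr α M p ≤ W + 1 / (((Fintype.card α) : ℝ) + 1) ^ 4 from
      key _ fun _ => Iff.rfl
    intro p hp
    have hpr : pr α M p = (((Om α M).filter p).card : ℝ) / N := rfl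
    rcases lt_or_ge e 2 with h2 | h2
    · have h3 : pr α M p ≤ 1 := by
        rw [hpr, div_le_one hO', hN]
        exact_mod_cast card_le_card (filter_subset _ _)
      have h4 : 1 ≤ W := by
        rw [hW, le_div_iff₀ (by positivity), one_mul]
        have h5 : 0 ≤ |(v : ℝ)| / unit α M := by positivity
        nlinarith
      linarith
    · have h3 : (((Om α M).filter p).card : ℝ) ≤
          (((Om α M).filter fun f => Function.Injective f ∧ p f).card : ℝ) +
          (((Om α M).filter fun f => ¬ Function.Injective f).card : ℝ) := by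
        have h4 : (Om α M).filter p ⊆ ((Om α M).filter fun f => Function.Injective f ∧ p f) ∪
            ((Om α M).filter fun f => ¬ Function.Injective f) := by
          intro f hf
          obtain ⟨h5, h6⟩ := mem_filter.mp hf
          rw [mem_union, mem_filter, mem_filter]
          by_cases h7 : Function.Injective f
          · exact Or.inl ⟨h5, h7, h6⟩
          · exact Or.inr ⟨h5, h7⟩
        exact_mod_cast (card_le_card h4).trans (card_union_le _ _)
      have h4 : (((Om α M).filter fun f => Function.Injective f ∧ p f).card : ℝ) ≤ W * N := by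
        rw [card_filter_sum]
        calc ∑ σ ∈ univ.filter (fun σ : α ≃ Fin (Fintype.card α) => StrictMono ⇑σ),
              (((powersetCard (Fintype.card α) (range M)).filter fun t => p (fm σ t)).card : ℝ) ≤
            ∑ σ ∈ univ.filter (fun σ : α ≃ Fin (Fintype.card α) => StrictMono ⇑σ), W * (M.choose (Fintype.card α) : ℝ) :=
              sum_le_sum fun σ _ => by
                have h9 := event hG hn σ y v h2
                simp only [← hp] at h9
                convert h9
          _ = W * ∑ σ ∈ univ.filter (fun σ : α ≃ Fin (Fintype.card α) => StrictMono ⇑σ), (M.choose (Fintype.card α) : ℝ) := by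
              rw [mul_sum]
          _ ≤ W * N := by gcongr
      rw [hpr, div_le_iff₀ hO']
      calc (((Om α M).filter p).card : ℝ) ≤ W * N + 1 / (((Fintype.card α) : ℝ) + 1) ^ 4 * N := by linarith
        _ = (W + 1 / (((Fintype.card α) : ℝ) + 1) ^ 4) * N := by ring

end Pool.Agent.TH921.KS_LLN
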