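import Pool.Agent.TH179.SD.Kth

/-!
# The invariant probability measure on the unit sphere of `ℂ⁵` and its moments
-/

set_option autoImplicit false

open scoped ContDiff Topology ENNReal
open Set MeasureTheory

noncomputable section

namespace Pool.Agent.TH921.J1630

open Pool.Agent.TH179.SD

/-- squared norm -/
def r2 (z : C5) : ℝ := ∑ i, ‖z i‖ ^ 2

theorem r2_nonneg (z : C5) : 0 ≤ r2 z := Finset.sum_nonneg fun i _ => by positivity

theorem r2_cont : Continuous r2 := by unfold r2; fun_prop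

theorem r2_eq_zero {z : C5} (h : r2 z = 0) : z = 0 := by
  funext i
  have h1 := (Finset.sum_eq_zero_iff_of_nonneg (fun i _ => by positivity)).1 h i (Finset.mem_univ i)
  have h2 : ‖z i‖ = 0 := by simpa using h1
  simpa using h2

theorem r2_smul (a : ℝ) (z : C5) : r2 (a • z) = a ^ 2 * r2 z := by
  unfold r2
  rw [Finset.mul_sum]
  refine Finset.sum_congr rfl fun i _ => ?_
  rw [Pi.smul_apply, norm_smul, mul_pow, Real.norm_eq_abs, sq_abs]

/-- the degree -/
def dg (α : Fin 5 → ℕ) : ℕ := ∑ i, α i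

/-- the squared modulus of the monomial -/
def Hm (α : Fin 5 → ℕ) (z : C5) : ℝ := ∏ i, ‖z i‖ ^ (2 * α i)

theorem Hm_nonneg (α : Fin 5 → ℕ) (z : C5) : 0 ≤ Hm α z :=
  Finset.prod_nonneg fun i _ => by positivity

theorem Hm_cont (α : Fin 5 → ℕ) : Continuous (Hm α) := by unfold Hm; fun_prop

theorem Hm_smul (α : Fin 5 → ℕ) (a : ℝ) (z : C5) : Hm α (a • z) = (a ^ 2) ^ dg α * Hm α z := by
  unfold Hm dg
  rw [← Finset.prod_pow_eq_pow_sum, ← Finset.prod_mul_distrib]
  refine Finset.prod_congr rfl fun i _ => ?_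
  rw [Pi.smul_apply, norm_smul, mul_pow, Real.norm_eq_abs, pow_mul, sq_abs]

/-- a homogeneous function of degree zero -/
def g (α : Fin 5 → ℕ) (z : C5) : ℝ := Hm α z / (r2 z) ^ dg α

theorem g_nonneg (α : Fin 5 → ℕ) (z : C5) : 0 ≤ g α z :=
  div_nonneg (Hm_nonneg α z) (pow_nonneg (r2_nonneg z) _)

theorem g_meas (α : Fin 5 → ℕ) : Measurable (g α) := by
  unfold g
  exact (Hm_cont α).measurable.div (r2_cont.measurable.pow_const _)

theorem g_smul (α : Fin 5 → ℕ) {a : ℝ} (ha : a ≠ 0) (z : C5) : g α (a • z) = g α z := by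
  unfold g
  rw [Hm_smul, r2_smul, mul_pow]
  exact mul_div_mul_left _ _ (by positivity)

theorem g_mul (α : Fin 5 → ℕ) (z : C5) : g α z * (r2 z) ^ dg α = Hm α z := by
  unfold g
  by_cases h : r2 z = 0
  · have hz := r2_eq_zero h
    rcases Nat.eq_zero_or_pos (dg α) with h0 | h0
    · rw [h0]; simp
    · rw [h, zero_pow h0.ne', mul_zero]
      have : ∃ i, 0 < α i := by
        by_contra hcon
        push Not at hcon
        have : dg α = 0 := Finset.sum_eq_zero fun i _ => Nat.le_zero.1 (hcon i)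
        omega
      obtain ⟨i, hi⟩ := this
      symm
      unfold Hm
      refine Finset.prod_eq_zero (Finset.mem_univ i) ?_
      rw [hz]
      simp only [Pi.zero_apply, norm_zero]
      exact zero_pow (by omega)
  · exact div_mul_cancel₀ _ (pow_ne_zero _ h)

/-- the integrals -/
def J (α : Fin 5 → ℕ) (k : ℕ) : ℝ≥0∞ :=
  ∫⁻ z : C5, ENNReal.ofReal (g α z * (r2 z) ^ k * Real.exp (-(r2 z)))

theorem exp_int {ρ : ℝ} (hρ : 0 < ρ) :
    ∫⁻ s in Ioi (1 : ℝ), ENNReal.ofReal (ρ * Real.exp (-(s * ρ))) =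
      ENNReal.ofReal (Real.exp (-ρ)) := by
  have h1 : IntegrableOn (fun s : ℝ => ρ * Real.exp (-(s * ρ))) (Ioi 1) := by
    have := (integrableOn_exp_mul_Ioi (a := -ρ) (by linarith) 1).const_mul ρ
    refine this.congr (Filter.Eventually.of_forall fun s => ?_)
    show ρ * Real.exp (-ρ * s) = ρ * Real.exp (-(s * ρ))
    congr 2
    ring
  rw [← ofReal_integral_eq_lintegral_ofReal h1 (Filter.Eventually.of_forall fun s => by positivity)]
  congr 1
  have h2 : ∫ s in Ioi (1 : ℝ), ρ * Real.exp (-(s * ρ)) =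
      ρ * ∫ s in Ioi (1 : ℝ), Real.exp (-ρ * s) := by
    rw [← integral_const_mul]
    refine integral_congr_ae (Filter.Eventually.of_forall fun s => ?_)
    show ρ * Real.exp (-(s * ρ)) = ρ * Real.exp (-ρ * s)
    congr 2
    ring
  rw [h2, integral_exp_mul_Ioi (by linarith) 1, mul_one]
  field_simp

theorem pow_int (k : ℕ) : ∫⁻ s in Ioi (1 : ℝ), ENNReal.ofReal ((s ^ (k + 6))⁻¹) =
    ENNReal.ofReal (1 / ((k : ℝ) + 5)) := by
  have e : ∀ s ∈ Ioi (1 : ℝ), s ^ (-((k : ℝ) + 6)) = (s ^ (k + 6))⁻¹ := by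
    intro s hs
    have hs' : (0 : ℝ) ≤ s := by
      have := mem_Ioi.1 hs
      linarith
    rw [Real.rpow_neg hs']
    congr 1
    have : ((k : ℝ) + 6) = ((k + 6 : ℕ) : ℝ) := by push_cast; ring
    rw [this, Real.rpow_natCast]
  have ha : -((k : ℝ) + 6) < -1 := by
    have : (0 : ℝ) ≤ k := Nat.cast_nonneg k
    linarith
  have h1 : IntegrableOn (fun s : ℝ => (s ^ (k + 6))⁻¹) (Ioi 1) :=
    (integrableOn_Ioi_rpow_of_lt ha one_pos).congr_fun e measurableSet_Ioi
  have hnn : 0 ≤ᵐ[volume.restrict (Ioi (1 : ℝ))] fun s : ℝ => (s ^ (k + 6))⁻¹ := by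
    filter_upwards [ae_restrict_mem measurableSet_Ioi] with s hs
    have : (0 : ℝ) < s := by
      have := mem_Ioi.1 hs
      linarith
    simp only [Pi.zero_apply]
    positivity
  rw [← ofReal_integral_eq_lintegral_ofReal h1 hnn, ← setIntegral_congr_fun measurableSet_Ioi e,
    integral_Ioi_rpow_of_lt ha one_pos, Real.one_rpow]
  congr 1
  have : (0 : ℝ) ≤ k := Nat.cast_nonneg k
  have h5 : -((k : ℝ) + 6) + 1 = -((k : ℝ) + 5) := by ring
  rw [h5, neg_div_neg_eq]

theorem finrank_C5 : Module.finrank ℝ C5 = 10 := by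
  rw [Module.finrank_pi_fintype]
  simp [Complex.finrank_real_complex]

theorem scale {a : ℝ} (ha : 0 < a) {Φ : C5 → ℝ≥0∞} (hΦ : Measurable Φ) :
    ∫⁻ z : C5, Φ (a • z) = ENNReal.ofReal ((a ^ 10)⁻¹) * ∫⁻ z, Φ z := by
  have h1 := Measure.map_addHaar_smul (volume : Measure C5) ha.ne'
  rw [finrank_C5] at h1
  have h2 : ∫⁻ z : C5, Φ (a • z) = ∫⁻ z, Φ z ∂(Measure.map (a • ·) (volume : Measure C5)) :=
    (lintegral_map hΦ (measurable_const_smul a)).symm
  rw [h2, h1, lintegral_smul_measure, smul_eq_mul, abs_of_pos (by positivity)]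

theorem J_step (α : Fin 5 → ℕ) (k : ℕ) :
    J α k = ENNReal.ofReal (1 / ((k : ℝ) + 5)) * J α (k + 1) := by
  have hz : ∀ᵐ z : C5, 0 < r2 z := by
    have h0 : ∀ᵐ z : C5, z ≠ 0 := by
      rw [ae_iff]
      simp
    filter_upwards [h0] with z hz
    exact lt_of_le_of_ne (r2_nonneg z) fun h => hz (r2_eq_zero h.symm)
  have e1 : J α k = ∫⁻ z : C5, ∫⁻ s in Ioi (1 : ℝ),
      ENNReal.ofReal (g α z * (r2 z) ^ (k + 1) * Real.exp (-(s * r2 z))) := by
    unfold J
    refine lintegral_congr_ae ?_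
    filter_upwards [hz] with z hz
    have hA : 0 ≤ g α z * (r2 z) ^ k := mul_nonneg (g_nonneg α z) (pow_nonneg (r2_nonneg z) _)
    rw [ENNReal.ofReal_mul hA, ← exp_int hz, ← lintegral_const_mul']
    · refine lintegral_congr fun s => ?_
      rw [← ENNReal.ofReal_mul hA]
      congr 1
      ring
    · exact ENNReal.ofReal_ne_top
  have hmeas : Measurable fun p : C5 × ℝ =>
      ENNReal.ofReal (g α p.1 * (r2 p.1) ^ (k + 1) * Real.exp (-(p.2 * r2 p.1))) := by
    refine ENNReal.measurable_ofReal.comp ?_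
    refine (((g_meas α).comp measurable_fst).mul
      ((r2_cont.measurable.comp measurable_fst).pow_const _)).mul ?_
    exact Real.measurable_exp.comp
      (measurable_snd.mul (r2_cont.measurable.comp measurable_fst)).neg
  rw [e1, lintegral_lintegral_swap hmeas.aemeasurable]
  have e2 : ∀ s ∈ Ioi (1 : ℝ), ∫⁻ z : C5,
      ENNReal.ofReal (g α z * (r2 z) ^ (k + 1) * Real.exp (-(s * r2 z))) =
      ENNReal.ofReal ((s ^ (k + 6))⁻¹) * J α (k + 1) := by
    intro s hs
    have hs0 : 0 < s := lt_trans one_pos (mem_Ioi.1 hs)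
    have hsq : Real.sqrt s ^ 2 = s := Real.sq_sqrt hs0.le
    have hsq0 : 0 < Real.sqrt s := Real.sqrt_pos.2 hs0
    have hΦ : Measurable fun z : C5 =>
        ENNReal.ofReal (g α z * (r2 z) ^ (k + 1) * Real.exp (-(r2 z))) :=
      ENNReal.measurable_ofReal.comp (((g_meas α).mul (r2_cont.measurable.pow_const _)).mul
        (Real.measurable_exp.comp r2_cont.measurable.neg))
    have h3 := scale hsq0 hΦ
    have h4 : ∀ z : C5, ENNReal.ofReal (g α (Real.sqrt s • z) * (r2 (Real.sqrt s • z)) ^ (k + 1) *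
        Real.exp (-(r2 (Real.sqrt s • z)))) = ENNReal.ofReal (s ^ (k + 1)) *
        ENNReal.ofReal (g α z * (r2 z) ^ (k + 1) * Real.exp (-(s * r2 z))) := by
      intro z
      rw [g_smul α hsq0.ne', r2_smul, hsq, ← ENNReal.ofReal_mul (by positivity)]
      congr 1
      ring
    simp only [h4] at h3
    rw [lintegral_const_mul' _ _ ENNReal.ofReal_ne_top] at h3
    have h5 : ENNReal.ofReal ((s ^ (k + 1))⁻¹) * ENNReal.ofReal (s ^ (k + 1)) = 1 := by
      rw [← ENNReal.ofReal_mul (by positivity), inv_mul_cancel₀ (by positivity), ENNReal.ofReal_one]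
    calc _ = ENNReal.ofReal ((s ^ (k + 1))⁻¹) * (ENNReal.ofReal (s ^ (k + 1)) * ∫⁻ z : C5,
          ENNReal.ofReal (g α z * (r2 z) ^ (k + 1) * Real.exp (-(s * r2 z)))) := by
            rw [← mul_assoc, h5, one_mul]
      _ = _ := by
        rw [h3, ← mul_assoc, ← ENNReal.ofReal_mul (by positivity)]
        have h6 : (s ^ (k + 1))⁻¹ * (Real.sqrt s ^ 10)⁻¹ = (s ^ (k + 6))⁻¹ := by
          rw [show Real.sqrt s ^ 10 = (Real.sqrt s ^ 2) ^ 5 by ring, hsq, ← mul_inv, ← pow_add]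
        rw [h6]
        rfl
  rw [setLIntegral_congr_fun measurableSet_Ioi e2]
  rw [lintegral_mul_const _ (by fun_prop), pow_int]

theorem J_zero (α : Fin 5 → ℕ) (k : ℕ) :
    J α 0 = ENNReal.ofReal (24 / ((k + 4).factorial : ℝ)) * J α k := by
  induction k with
  | zero =>
    have : (24 : ℝ) / ((0 + 4).factorial : ℝ) = 1 := by norm_num [Nat.factorial]
    rw [this, ENNReal.ofReal_one, one_mul]
  | succ k ih =>
    rw [ih, J_step α k, ← mul_assoc, ← ENNReal.ofReal_mul (by positivity)]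
    congr 2
    have : ((k + 1 + 4).factorial : ℝ) = ((k : ℝ) + 5) * ((k + 4).factorial : ℝ) := by
      rw [show k + 1 + 4 = (k + 4) + 1 by ring, Nat.factorial_succ]
      push_cast
      ring
    rw [this]
    have h1 : ((k + 4).factorial : ℝ) ≠ 0 := by positivity
    have h2 : (k : ℝ) + 5 ≠ 0 := by positivity
    field_simp

/-- the one-dimensional integral -/
theorem one_int (a : ℕ) : ∫ w : ℂ, ‖w‖ ^ (2 * a) * Real.exp (-‖w‖ ^ 2) =
    Real.pi * (a.factorial : ℝ) := by
  have h := Complex.integral_rpow_mul_exp_neg_rpow (p := 2) (q := 2 * a) (by norm_num)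
    (by have : (0 : ℝ) ≤ a := Nat.cast_nonneg a; linarith)
  have e : ∀ w : ℂ, ‖w‖ ^ ((2 : ℝ) * a) * Real.exp (-‖w‖ ^ (2 : ℝ)) =
      ‖w‖ ^ (2 * a) * Real.exp (-‖w‖ ^ 2) := by
    intro w
    have h1 : ((2 : ℝ) * a) = ((2 * a : ℕ) : ℝ) := by push_cast; ring
    rw [h1, Real.rpow_natCast]
    have h2 : ‖w‖ ^ (2 : ℝ) = ‖w‖ ^ 2 := by
      rw [show (2 : ℝ) = ((2 : ℕ) : ℝ) by norm_num, Real.rpow_natCast]
    rw [h2]
  simp only [e] at h
  rw [h]
  have h3 : ((2 : ℝ) * a + 2) / 2 = a + 1 := by ring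
  rw [h3, Real.Gamma_nat_eq_factorial]
  ring

theorem one_integrable (a : ℕ) : Integrable fun w : ℂ => ‖w‖ ^ (2 * a) * Real.exp (-‖w‖ ^ 2) := by
  by_contra h
  have h1 := one_int a
  rw [integral_undef h] at h1
  have : 0 < Real.pi * (a.factorial : ℝ) := by positivity
  linarith

theorem J_top (α : Fin 5 → ℕ) :
    J α (dg α) = ENNReal.ofReal (Real.pi ^ 5 * ∏ i, ((α i).factorial : ℝ)) := by
  have e : ∀ z : C5, g α z * (r2 z) ^ dg α * Real.exp (-(r2 z)) =
      ∏ i, (‖z i‖ ^ (2 * α i) * Real.exp (-‖z i‖ ^ 2)) := by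
    intro z
    rw [g_mul, Finset.prod_mul_distrib, ← Real.exp_sum, Finset.sum_neg_distrib]
    rfl
  unfold J
  simp only [e]
  rw [← ofReal_integral_eq_lintegral_ofReal]
  · congr 1
    have h1 := integral_fintype_prod_volume_eq_prod (𝕜 := ℝ)
      (fun (i : Fin 5) (w : ℂ) => ‖w‖ ^ (2 * α i) * Real.exp (-‖w‖ ^ 2))
    rw [h1]
    simp only [one_int]
    rw [Finset.prod_mul_distrib]
    simp
  · exact Integrable.fintype_prod (𝕜 := ℝ) (μ := fun _ : Fin 5 => (volume : Measure ℂ))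
      (f := fun (i : Fin 5) (w : ℂ) => ‖w‖ ^ (2 * α i) * Real.exp (-‖w‖ ^ 2))
      fun i => one_integrable (α i)
  · exact Filter.Eventually.of_forall fun z => Finset.prod_nonneg fun i _ => by positivity

theorem J_val (α : Fin 5 → ℕ) : J α 0 = ENNReal.ofReal
    (Real.pi ^ 5 * ((∏ i, ((α i).factorial : ℝ)) * 24 / ((dg α + 4).factorial : ℝ))) := by
  rw [J_zero α (dg α), J_top, ← ENNReal.ofReal_mul (by positivity)]
  congr 1
  ring

/-! ### The measure -/

/-- a point of the sphere -/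
def pt : Z := ⟨Pi.single 0 1, by
  rw [Finset.sum_eq_single 0]
  · simp
  · intro i _ hi
    simp [Pi.single_eq_of_ne hi]
  · simp⟩

theorem norm_proj {z : C5} (h : r2 z ≠ 0) :
    ∑ i, ‖(((Real.sqrt (r2 z))⁻¹ : ℝ) • z) i‖ ^ 2 = 1 := by
  have := r2_smul ((Real.sqrt (r2 z))⁻¹) z
  unfold r2 at this ⊢
  rw [this]
  have h0 : 0 ≤ r2 z := r2_nonneg z
  rw [inv_pow]
  have h2 : Real.sqrt (∑ i, ‖z i‖ ^ 2) ^ 2 = ∑ i, ‖z i‖ ^ 2 := Real.sq_sqrt h0
  rw [h2]
  exact inv_mul_cancel₀ h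

/-- the projection to the sphere -/
def pj (z : C5) : Z := if h : r2 z ≠ 0 then ⟨((Real.sqrt (r2 z))⁻¹ : ℝ) • z, norm_proj h⟩ else pt

theorem pj_coe {z : C5} (h : r2 z ≠ 0) : (pj z).1 = ((Real.sqrt (r2 z))⁻¹ : ℝ) • z := by
  unfold pj
  rw [dif_pos h]

theorem pj_meas : Measurable pj := by
  refine Measurable.subtype_mk (f := fun z => (pj z).1) (h := fun z => (pj z).2) ?_
  have e : (fun z => (pj z).1) = fun z => if r2 z ≠ 0 then ((Real.sqrt (r2 z))⁻¹ : ℝ) • z
      else pt.1 := by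
    funext z
    by_cases h : r2 z ≠ 0
    · rw [if_pos h, pj_coe h]
    · rw [if_neg h]
      unfold pj
      rw [dif_neg h]
  rw [e]
  refine Measurable.ite ?_ ?_ measurable_const
  · exact (measurableSet_eq_fun r2_cont.measurable measurable_const).compl
  · exact (r2_cont.measurable.sqrt.inv).smul measurable_id

/-- the density -/
def den (z : C5) : ℝ≥0∞ := ENNReal.ofReal (Real.exp (-(r2 z)))

theorem den_meas : Measurable den :=
  ENNReal.measurable_ofReal.comp (Real.measurable_exp.comp r2_cont.measurable.neg)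

/-- the measure -/
def mu : Measure Z := (ENNReal.ofReal (Real.pi ^ 5))⁻¹ • ((volume : Measure C5).withDensity den).map pj

theorem lint_mu {Φ : Z → ℝ≥0∞} (hΦ : Measurable Φ) : ∫⁻ z, Φ z ∂mu =
    (ENNReal.ofReal (Real.pi ^ 5))⁻¹ * ∫⁻ z : C5, den z * Φ (pj z) := by
  unfold mu
  rw [lintegral_smul_measure, smul_eq_mul, lintegral_map hΦ pj_meas]
  have h := lintegral_withDensity_eq_lintegral_mul (volume : Measure C5) den_meas
    (g := fun z => Φ (pj z)) (hΦ.comp pj_meas)
  exact congrArg _ h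

theorem pi_ne_zero : ENNReal.ofReal (Real.pi ^ 5) ≠ 0 := by
  rw [Ne, ENNReal.ofReal_eq_zero, not_le]
  positivity

theorem Hm_pj (α : Fin 5 → ℕ) {z : C5} (h : r2 z ≠ 0) : Hm α (pj z).1 = g α z := by
  rw [pj_coe h, Hm_smul]
  unfold g
  rw [inv_pow, Real.sq_sqrt (r2_nonneg z), inv_pow, div_eq_inv_mul]

theorem r2_ae : ∀ᵐ z : C5, r2 z ≠ 0 := by
  have h0 : ∀ᵐ z : C5, z ≠ 0 := by
    rw [ae_iff]
    simp
  filter_upwards [h0] with z hz h
  exact hz (r2_eq_zero h)

theorem lint_Hm (α : Fin 5 → ℕ) : ∫⁻ z : Z, ENNReal.ofReal (Hm α z.1) ∂mu =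
    ENNReal.ofReal ((∏ i, ((α i).factorial : ℝ)) * 24 / ((dg α + 4).factorial : ℝ)) := by
  have hm : Measurable fun z : Z => ENNReal.ofReal (Hm α z.1) :=
    ENNReal.measurable_ofReal.comp ((Hm_cont α).measurable.comp measurable_subtype_coe)
  rw [lint_mu hm]
  have e : ∫⁻ z : C5, den z * ENNReal.ofReal (Hm α (pj z).1) = J α 0 := by
    unfold J
    refine lintegral_congr_ae ?_
    filter_upwards [r2_ae] with z hz
    rw [Hm_pj α hz, den, ← ENNReal.ofReal_mul (Real.exp_nonneg _), pow_zero, mul_one, mul_comm]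
  rw [e, J_val, ENNReal.ofReal_mul (by positivity), ← mul_assoc,
    ENNReal.inv_mul_cancel pi_ne_zero ENNReal.ofReal_ne_top, one_mul]

theorem Hm_zero (z : C5) : Hm 0 z = 1 := by simp [Hm]

theorem mu_prob : IsProbabilityMeasure mu := by
  constructor
  have h := lint_Hm 0
  simp only [Hm_zero, ENNReal.ofReal_one, lintegral_one] at h
  rw [h]
  simp [dg, Nat.factorial]

/-! ### Off-diagonal moments -/

/-- rotation of one coordinate -/
def rt (i : Fin 5) (t : Circle) (z : C5) : C5 := fun j => if j = i then (t : ℂ) * z j else z j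

theorem rt_mp (i : Fin 5) (t : Circle) : MeasurePreserving (rt i t) := by
  have h : ∀ j : Fin 5, MeasurePreserving (fun w : ℂ => if j = i then (t : ℂ) * w else w) := by
    intro j
    by_cases hj : j = i
    · simp only [if_pos hj]
      exact (rotation t).measurePreserving
    · simp only [if_neg hj]
      exact MeasurePreserving.id _
  exact volume_preserving_pi h

theorem rt_cont (i : Fin 5) (t : Circle) : Continuous (rt i t) := by
  unfold rt
  refine continuous_pi fun j => ?_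
  by_cases hj : j = i
  · simp only [if_pos hj]; fun_prop
  · simp only [if_neg hj]; fun_prop

theorem rt_inj (i : Fin 5) (t : Circle) : Function.Injective (rt i t) := by
  intro z w h
  funext j
  have hj := congrFun h j
  unfold rt at hj
  by_cases e : j = i
  · rw [if_pos e, if_pos e] at hj
    exact mul_left_cancel₀ (Circle.coe_ne_zero t) hj
  · rwa [if_neg e, if_neg e] at hj

theorem r2_rt (i : Fin 5) (t : Circle) (z : C5) : r2 (rt i t z) = r2 z := by
  unfold r2 rt
  refine Finset.sum_congr rfl fun j _ => ?_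
  by_cases e : j = i
  · rw [if_pos e, norm_mul, Circle.norm_coe, one_mul]
  · rw [if_neg e]

/-- the monomial as a function on `ℂ⁵` -/
def mn (α : Fin 5 → ℕ) (z : C5) : ℂ := ∏ i, z i ^ α i

theorem mn_cont (α : Fin 5 → ℕ) : Continuous (mn α) := by unfold mn; fun_prop

theorem mn_rt (α : Fin 5 → ℕ) (i : Fin 5) (t : Circle) (z : C5) :
    mn α (rt i t z) = (t : ℂ) ^ α i * mn α z := by
  unfold mn
  rw [← Finset.mul_prod_erase _ _ (Finset.mem_univ i), ← Finset.mul_prod_erase _ _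
    (Finset.mem_univ i)]
  have h1 : rt i t z i = (t : ℂ) * z i := by simp [rt]
  have h2 : ∏ j ∈ Finset.univ.erase i, rt i t z j ^ α j = ∏ j ∈ Finset.univ.erase i, z j ^ α j := by
    refine Finset.prod_congr rfl fun j hj => ?_
    have : j ≠ i := (Finset.mem_erase.1 hj).1
    simp [rt, this]
  rw [h1, h2, mul_pow]
  ring

theorem mn_smul (α : Fin 5 → ℕ) (a : ℝ) (z : C5) : mn α (a • z) = (a : ℂ) ^ dg α * mn α z := by
  unfold mn dg
  rw [← Finset.prod_pow_eq_pow_sum, ← Finset.prod_mul_distrib]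
  refine Finset.prod_congr rfl fun i _ => ?_
  rw [Pi.smul_apply, Complex.real_smul, mul_pow]

/-- the integrand on `ℂ⁵` -/
def G (α β : Fin 5 → ℕ) (z : C5) : ℂ :=
  ((Real.exp (-(r2 z)) : ℝ) : ℂ) * (((Real.sqrt (r2 z))⁻¹ : ℝ) : ℂ) ^ (dg α + dg β) *
    (mn α z * (starRingEnd ℂ) (mn β z))

theorem G_rt (α β : Fin 5 → ℕ) (i : Fin 5) (t : Circle) (z : C5) :
    G α β (rt i t z) = ((t : ℂ) ^ α i * (starRingEnd ℂ) (t : ℂ) ^ β i) * G α β z := by
  unfold G
  rw [r2_rt, mn_rt, mn_rt, map_mul, map_pow]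
  ring

theorem int_G (α β : Fin 5 → ℕ) (h : α ≠ β) : ∫ z : C5, G α β z = 0 := by
  obtain ⟨i, hi⟩ : ∃ i, α i ≠ β i := by
    by_contra hcon
    push Not at hcon
    exact h (funext hcon)
  -- choose t with t ^ (α i - β i) = -1
  set d : ℝ := (α i : ℝ) - β i with hd
  have hd0 : d ≠ 0 := by
    rw [hd, sub_ne_zero]
    exact_mod_cast hi
  set t : Circle := Circle.exp (Real.pi / d) with ht
  have hc : (t : ℂ) ^ α i * (starRingEnd ℂ) (t : ℂ) ^ β i = -1 := by
    have h1 : (t : ℂ) = Complex.exp ((Real.pi / d : ℝ) * Complex.I) := Circle.coe_exp _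
    have h2 : (starRingEnd ℂ) (t : ℂ) = Complex.exp (-((Real.pi / d : ℝ) * Complex.I)) := by
      rw [h1, ← Complex.exp_conj, map_mul, Complex.conj_I, Complex.conj_ofReal, mul_neg]
    rw [h2, h1, ← Complex.exp_nat_mul, ← Complex.exp_nat_mul, ← Complex.exp_add]
    have h3 : (α i : ℂ) * ((Real.pi / d : ℝ) * Complex.I) +
        (β i : ℂ) * -((Real.pi / d : ℝ) * Complex.I) = Real.pi * Complex.I := by
      have h4 : ((α i : ℂ) - β i) = (d : ℂ) := by rw [hd]; push_cast; ring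
      have h5 : (d : ℂ) ≠ 0 := by exact_mod_cast hd0
      calc (α i : ℂ) * ((Real.pi / d : ℝ) * Complex.I) +
          (β i : ℂ) * -((Real.pi / d : ℝ) * Complex.I) =
          ((α i : ℂ) - β i) * ((Real.pi / d : ℝ) * Complex.I) := by ring
        _ = (d : ℂ) * ((Real.pi / d : ℝ) * Complex.I) := by rw [h4]
        _ = _ := by
          push_cast
          field_simp
    rw [h3, Complex.exp_pi_mul_I]
  have hemb : MeasurableEmbedding (rt i t) := (rt_cont i t).measurableEmbedding (rt_inj i t)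
  have h6 := (rt_mp i t).integral_comp hemb (G α β)
  simp only [G_rt, hc] at h6
  rw [integral_const_mul] at h6
  have h7 : (2 : ℂ) * ∫ z : C5, G α β z = 0 := by linear_combination -h6
  rcases mul_eq_zero.1 h7 with h8 | h8
  · norm_num at h8
  · exact h8

theorem cont_F (α β : Fin 5 → ℕ) :
    Continuous fun z : Z => mono α z * (starRingEnd ℂ) (mono β z) := by
  have h : ∀ γ : Fin 5 → ℕ, Continuous fun z : Z => mono γ z := fun γ =>
    (mn_cont γ).comp continuous_subtype_val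
  exact (h α).mul (Complex.continuous_conj.comp (h β))

theorem int_F (α β : Fin 5 → ℕ) : ∫ z : Z, mono α z * (starRingEnd ℂ) (mono β z) ∂mu =
    ((ENNReal.ofReal (Real.pi ^ 5))⁻¹).toReal • ∫ z : C5, G α β z := by
  unfold mu
  rw [integral_smul_measure, integral_map pj_meas.aemeasurable
    (cont_F α β).measurable.aestronglyMeasurable,
    integral_withDensity_eq_integral_toReal_smul den_meas
      (Filter.Eventually.of_forall fun z => ENNReal.ofReal_lt_top)]
  congr 1
  refine integral_congr_ae ?_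
  filter_upwards [r2_ae] with z hz
  have h1 : ∀ γ : Fin 5 → ℕ, mono γ (pj z) =
      (((Real.sqrt (r2 z))⁻¹ : ℝ) : ℂ) ^ dg γ * mn γ z := by
    intro γ
    have : mono γ (pj z) = mn γ (pj z).1 := rfl
    rw [this, pj_coe hz, mn_smul]
  rw [h1, h1, den, ENNReal.toReal_ofReal (Real.exp_nonneg _), map_mul, map_pow,
    Complex.conj_ofReal, Complex.real_smul]
  unfold G
  rw [pow_add]
  ring

theorem mono_sq (α : Fin 5 → ℕ) (z : Z) :
    mono α z * (starRingEnd ℂ) (mono α z) = ((Hm α z.1 : ℝ) : ℂ) := by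
  rw [Complex.mul_conj, Complex.normSq_eq_norm_sq]
  congr 1
  unfold mono Hm
  rw [norm_prod, ← Finset.prod_pow]
  refine Finset.prod_congr rfl fun i _ => ?_
  rw [norm_pow, ← pow_mul, mul_comm]

theorem int_Hm (α : Fin 5 → ℕ) : ∫ z : Z, Hm α z.1 ∂mu =
    (∏ i, ((α i).factorial : ℝ)) * 24 / ((dg α + 4).factorial : ℝ) := by
  have hm : AEStronglyMeasurable (fun z : Z => Hm α z.1) mu :=
    ((Hm_cont α).measurable.comp measurable_subtype_coe).aestronglyMeasurable
  have hnn : 0 ≤ᵐ[mu] fun z : Z => Hm α z.1 :=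
    Filter.Eventually.of_forall fun z => Hm_nonneg α z.1
  have h0 : 0 ≤ (∏ i, ((α i).factorial : ℝ)) * 24 / ((dg α + 4).factorial : ℝ) := by positivity
  rw [integral_eq_lintegral_of_nonneg_ae hnn hm, lint_Hm, ENNReal.toReal_ofReal h0]

/-- The measure on the sphere. -/
theorem taskMom : TaskMom := by
  refine ⟨mu, mu_prob, fun α β => ?_⟩
  by_cases h : α = β
  · subst h
    rw [if_pos rfl]
    simp only [mono_sq]
    rw [integral_complex_ofReal]
    rw [int_Hm]
    simp only [dg]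
    push_cast
    ring
  · rw [if_neg h, int_F, int_G α β h, smul_zero]

end Pool.Agent.TH921.J1630
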