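import Pool.Agent.TH563.V.Defs
import Pool.Agent.TH563.Z.Gx

/-!
# Several hubs: asymptotic expansions, the step at a large vertex without circle (job 1739)
-/

set_option autoImplicit false
set_option maxHeartbeats 1000000

namespace Pool.Agent.TH921.J1739

open Finset Filter Topology Metric
open Pool.Agent.W711.HT hiding XX
open Pool.Agent.TH563.UV
open Pool.Agent.TH563.Z
open Pool.Agent.TH563.V
open Pool.Agent.W719.AX (UX GX Rl ig S_LOCX)
open Pool.Agent.W85.HT hiding Rc_mono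
open Pool.Agent.W293.HT
open Pool.Agent.W688.AX (isOpen_Rcx cont2 unif_neg sq3_ev sqrt4 nbhd)
open scoped Real

/-- expansions at a large vertex without circle -/
theorem vfx : Pool.Agent.TH563.V.S_VFX := by
  intro ρ τ κ c C U k σ hE κ₁ c₁ C₁ hκ₁ hc₁p hC₁p t X F hX ρ₂ τ₂ V W Ak hρ₂ hτ₂ hAk hW hVW hWU
    m A hA a r₀ F' zs hr₀ hF'd hzd hF'n hF'z hst
  have hLG : S_LOCU := locu Pool.Agent.W711.HT.upb
  have hLX : S_LOCX := Pool.Agent.W21.AX.locx Pool.Agent.W719.AX.f_LX Pool.Agent.W303.AX.uxmul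
  have hρ0 := hE.hρ.1
  have hρ1 := hE.hρ.2
  have hτ0 := hE.hτ.1
  have hκ := hE.hκ.1
  have hρ20 := hAk.hρ
  have hτ20 := hAk.hτ
  have hm0 : 0 < min ρ₂ τ₂ := lt_min hρ20 hτ20
  have hFan : DifferentiableOn ℂ F (Rc (3 * ρ) (3 * τ)) := hX.gh.an
  have hVU : V ⊆ U := hVW.trans hWU
  rcases W.eq_empty_or_nonempty with hWe | hWne
  · have hVe : V = ∅ := Set.subset_empty_iff.1 (hWe ▸ hVW)
    subst hVe
    refine ⟨fun _ _ => 1, ?_, fun k => differentiableOn_empty, fun z hz => hz.elim⟩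
    intro K
    exact ⟨1, Eventually.of_forall fun N p hp => hp.elim⟩
  have hzn : ∀ φ ∈ U, ‖zs φ‖ < min ρ₂ τ₂ / 4 := fun φ hφ =>
    ((hF'z φ hφ).1.sm).trans_lt hr₀
  have hR23 : Rc (2 * ρ) (2 * τ) ⊆ Rc (3 * ρ) (3 * τ) := Rc_mono (by linarith) (by linarith)
  have hR2 : Rc ρ₂ τ₂ ⊆ Rc (3 * ρ) (3 * τ) := Rc_mono (by linarith) (by linarith)
  have hV : ∀ p ∈ U, qq a (fun w => F w + σ w p) (zs p) = F' p := by
    intro p hp
    have e : qq a (fun w => F w + σ w p) (zs p) = qq a F (zs p) + σ (zs p) p := by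
      unfold qq; ring
    rw [e, (hF'z p hp).2.2]
  have hsd : ∀ p ∈ U, DifferentiableOn ℂ (fun w => σ w p) (Rc (3 * ρ) (3 * τ)) := fun p hp =>
    hE.san.comp (differentiableOn_id.prodMk (differentiableOn_const p))
      (fun w hw => ⟨hw, hp⟩)
  have hlow : ∀ φ ∈ U, (F 0).re + (σ 0 φ).re - κ / 16 ≤ (F' φ).re := by
    intro φ hφ
    have h2 := (Complex.abs_re_le_norm _).trans (hF'n φ hφ)
    rw [Complex.sub_re, Complex.sub_re] at h2
    linarith [(abs_le.1 h2).1]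
  -- the constant of the second derivative
  have hc2 : ContinuousOn (fun p => deriv (deriv (qq a (fun w => F w + σ w p))) (zs p)) W := by
    have hKK : Kc (2 * ρ) (2 * τ) ⊆ Rc (3 * ρ) (3 * τ) := by
      intro w hw
      rw [Kc_mem] at hw
      exact ⟨by linarith [hw.1], by linarith [hw.2]⟩
    refine cont2 (isOpen_Rcx (2 * ρ) (2 * τ)) (Kc_compact (2 * ρ) (2 * τ)) ?_ (hFan.mono hR23)
      (fun p hp => (hsd p (hWU hp)).mono hR23) (hE.san.continuousOn.mono (Set.prod_mono hKK hWU))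
      hW (hzd.continuousOn.mono hWU) ?_
    · intro w hw
      rw [Kc_mem]
      exact ⟨hw.1.le, hw.2.le⟩
    · intro p hp
      exact Rc_mono (by linarith) (by linarith) (hF'z p (hWU hp)).1.mem
  obtain ⟨c₂, hc₂0, hc₂⟩ := unif_neg hW hWne hc2 (fun p hp => (hF'z p (hWU hp)).2.1.neg)
  obtain ⟨ci, hci0, hci⟩ := im_low hW (hzd.continuousOn.mono hWU)
    (fun p hp => (hF'z p (hWU hp)).1.im)
  have hmwp : ∀ ε' : ℝ, 0 < ε' → ∀ᶠ N : ℕ in atTop, ∀ w ∈ Rc (2 * ρ) (2 * τ),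
      ∀ p ∈ W, X N w * k N w p ≠ 0 ∧
        |Real.log ‖X N w * k N w p‖ - N * (F w + σ w p).re| ≤ ε' * N := by
    intro ε' hε'
    filter_upwards [hX.mw (ε' / 2) (by positivity), hE.mw (ε' / 2) (by positivity)] with
      N h1 h2 w hw p hp
    obtain ⟨k1, k2⟩ := h1 w hw
    obtain ⟨k3, k4⟩ := h2 w (hR23 hw) p (hWU hp)
    refine ⟨mul_ne_zero k1 k3, ?_⟩
    rw [norm_mul, Real.log_mul (norm_ne_zero_iff.2 k1) (norm_ne_zero_iff.2 k3), Complex.add_re]
    rw [abs_le] at k2 k4 ⊢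
    constructor
    · linarith [k2.1, k4.1]
    · linarith [k2.2, k4.2]
  have hfarp : ∀ᶠ N : ℕ in atTop, ∀ p ∈ U, ∀ x y : ℝ, ρ ≤ |x| → |x| ≤ π → |y| ≤ 1 / N →
      ‖X N (x + y * Complex.I) * k N (x + y * Complex.I) p‖ ≤
        Real.exp (N * ((F 0).re + (σ 0 p).re - κ)) := by
    filter_upwards [hX.gl1, hE.far] with N h1 h2 p hp x y hx1 hx2 hy
    have k1 := h1 x y hx1 hx2 hy
    have k2 := h2 x y hx1 hx2 hy p hp
    rw [norm_mul]
    refine (mul_le_mul k1 k2 (norm_nonneg _) (Real.exp_pos _).le).trans ?_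
    rw [← Real.exp_add, ← mul_add]
    apply Real.exp_le_exp.2
    apply mul_le_mul_of_nonneg_left _ (Nat.cast_nonneg N)
    have : 0 ≤ (t : ℝ) * (κ₁ / 2) := by positivity
    linarith
  -- localisation
  have hloc := hLG ρ τ ci a ℂ W (fun N w p => X N w * k N w p)
    (fun w p => F w + σ w p) zs hρ0 hρ1 hτ0 hci0 hW
    (fun N p hp => (hX.an N).mul (hE.kan N p (hWU hp)))
    (fun p hp => (hFan.mono hR23).add ((hsd p (hWU hp)).mono hR23))
    ((hFan.continuousOn.comp continuousOn_fst (fun x hx => hR23 hx.1)).add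
      (hE.san.continuousOn.mono (Set.prod_mono hR23 hWU)))
    (hzd.continuousOn.mono hWU) hmwp
    (fun p hp => ⟨⟨(hF'z p (hWU hp)).1.mem, hci p hp⟩, (hF'z p (hWU hp)).2.1⟩)
    ⟨κ / 4, by positivity, by
      filter_upwards [hfarp] with N h1 p hp x y hx1 hx2 hy
      have k1 := h1 p (hWU hp) x y hx1 hx2 hy
      rw [hV p (hWU hp)]
      refine k1.trans ?_
      apply Real.exp_le_exp.2
      apply mul_le_mul_of_nonneg_left _ (Nat.cast_nonneg N)
      have k3 := hlow p (hWU hp)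
      linarith⟩
  obtain ⟨BF, hBF⟩ := (Kc_compact ρ₂ τ₂).exists_bound_of_continuousOn
    (hFan.continuousOn.mono (show Kc ρ₂ τ₂ ⊆ Rc (3 * ρ) (3 * τ) from by
      intro w hw
      rw [Kc_mem] at hw
      exact ⟨by linarith [hw.1], by linarith [hw.2]⟩))
  have hSKc : Rc ρ₂ τ₂ ⊆ Kc ρ₂ τ₂ := by
    intro w hw
    rw [Kc_mem]
    exact ⟨hw.1.le, hw.2.le⟩
  obtain ⟨B, hB', hB0⟩ := hLX ρ₂ τ₂ (min ρ₂ τ₂ / 2) c₂ m a ℂ V X F A
    (fun N w p => ((Real.sqrt N) ^ 3 : ℝ) * Complex.exp (-(N * σ w p)) * k N w p) Ak σ zs F'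
    (fun N p => ((Real.sqrt N : ℝ) : ℂ) ^ 3 * stk a X k N p)
    (by positivity) hc₂0 hA hX.an (hFan.mono hR2)
    (fun p hp u hu => nbhd (hzn p (hVU hp)) hu)
    ⟨max BF C, fun w hw => ⟨(hBF w (hSKc hw)).trans (le_max_left _ _), fun p hp =>
      (hE.sbd w (hR2 hw) p (hVU hp)).trans (le_max_right _ _)⟩⟩
    (by
      intro N p hp
      have h1 : ContinuousOn (fun w => σ w p) (Rc ρ₂ τ₂) :=
        ((hsd p (hVU hp)).mono hR2).continuousOn
      have h2 : ContinuousOn (fun w => k N w p) (Rc ρ₂ τ₂) :=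
        (hE.kan N p (hVU hp)).continuous.continuousOn
      exact (continuousOn_const.mul
        (Complex.continuous_exp.comp_continuousOn (continuousOn_const.mul h1).neg)).mul h2)
    (fun p hp => (hsd p (hVU hp)).mono hR2) hAk.ux (fun n p hp => hAk.d1 n p hp) hAk.nz
    (fun p hp => ⟨(hF'z p (hVU hp)).2.1.sn, (hV p (hVU hp)).symm, (hF'z p (hVU hp)).2.1.crit,
      hc₂ p (hVW hp)⟩)
    (by
      intro δ' hδ'0 hδ'
      obtain ⟨κ', hκ', h⟩ := hloc δ' hδ'0 (fun p hp => by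
        have h1 := hzn p (hWU hp)
        have h2 := Complex.abs_re_le_norm (zs p)
        have h3 := min_le_left ρ₂ τ₂
        linarith)
      refine ⟨κ' / 2, by positivity, ?_⟩
      filter_upwards [h, sq3_ev (κ := κ' / 2) (by positivity)] with N h1 h2 p hp
      have h3 := h1 p (hVW hp)
      rw [hV p (hVU hp)] at h3
      have e1 : (∫ x in (-δ')..δ', ig a N (zs p + x) *
          (X N (zs p + x) * (Complex.exp (N * σ (zs p + x) p) *
            (((Real.sqrt N) ^ 3 : ℝ) * Complex.exp (-(N * σ (zs p + x) p)) *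
              k N (zs p + x) p)))) =
          ((Real.sqrt N : ℝ) : ℂ) ^ 3 * ∫ x in (-δ')..δ', ig a N (zs p + x) *
            (X N (zs p + x) * k N (zs p + x) p) := by
        rw [← intervalIntegral.integral_const_mul]
        congr 1
        funext x
        have e2 : Complex.exp (N * σ (zs p + x) p) * Complex.exp (-(N * σ (zs p + x) p)) = 1 := by
          rw [← Complex.exp_add, add_neg_cancel, Complex.exp_zero]
        push_cast
        linear_combination (ig a N (zs p + x) * X N (zs p + x) * ((Real.sqrt N : ℝ) : ℂ) ^ 3 *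
          k N (zs p + x) p) * e2
      rw [e1]
      unfold stk
      rw [← mul_sub, norm_mul]
      have h4 : ‖((Real.sqrt N : ℝ) : ℂ) ^ 3‖ = (Real.sqrt N) ^ 3 := by
        rw [norm_pow, Complex.norm_real, Real.norm_eq_abs, abs_of_nonneg (Real.sqrt_nonneg _)]
      rw [h4]
      refine (mul_le_mul h2 h3 (norm_nonneg _) (Real.exp_pos _).le).trans ?_
      rw [← Real.exp_add]
      apply le_of_eq
      congr 1
      ring)
  have hfun : (fun (N : ℕ) (z : ℂ) => (N : ℂ) ^ (2 * (m + 1)) * (-1) ^ (N * (m + 1)) *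
      Complex.exp (-(N * F' z)) * stk a X k N z) = (fun (N : ℕ) (p : ℂ) => (N : ℂ) ^ (2 * m) *
      (Real.sqrt N : ℂ) * (-1) ^ (N * (m + 1)) *
      Complex.exp (-(N * F' p)) * (((Real.sqrt N : ℝ) : ℂ) ^ 3 * stk a X k N p)) := by
    funext N p
    have e := sqrt4 N
    have e3 : (N : ℂ) ^ (2 * (m + 1)) = (N : ℂ) ^ (2 * m) * (N : ℂ) ^ 2 := by ring
    rw [e3, ← e]
    ring
  have hux : UX (fun (N : ℕ) (z : ℂ) => (N : ℂ) ^ (2 * (m + 1)) * (-1) ^ (N * (m + 1)) *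
      Complex.exp (-(N * F' z)) * stk a X k N z) B V := by
    rw [hfun]
    exact hB'
  refine ⟨B, hux, ?_, hB0⟩
  refine Pool.Agent.W303.AX.uxan _ B V hAk.hV ?_ hux
  filter_upwards with N
  have h1 : DifferentiableOn ℂ (fun z => Complex.exp (-((N : ℂ) * F' z))) V :=
    (((hF'd.mono hVU).const_mul (N : ℂ)).neg).cexp
  exact (h1.const_mul ((N : ℂ) ^ (2 * (m + 1)) * (-1) ^ (N * (m + 1)))).mul (hst N)

end Pool.Agent.TH921.J1739

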