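import Pool.Agent.TH597.FD.Stm
import Pool.Agent.H744R2.Falc.Final
import Pool.Agent.H744R2.Falc.Vol

set_option autoImplicit false

/-! A square integrable transform gives positive measure. -/

namespace Pool.Agent.TH921.FD_POS

open MeasureTheory Set Metric Complex
open scoped ENNReal Real

variable {Ω : Type} [MeasurableSpace Ω]

/-- the integral of `e^{iτx}` over `[-a,a]` -/
noncomputable def S (a x : ℝ) : ℂ := ∫ τ in (-a)..a, cexp ((τ : ℂ) * x * I)

theorem S_eq (a x : ℝ) (hx : x ≠ 0) : S a x = ((2 * Real.sin (a * x) / x : ℝ) : ℂ) := by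
  have hc : (x : ℂ) * I ≠ 0 := mul_ne_zero (by exact_mod_cast hx) I_ne_zero
  have h1 : S a x = ∫ τ in (-a)..a, cexp (((x : ℂ) * I) * (τ : ℂ)) := by
    unfold S
    refine intervalIntegral.integral_congr fun τ _ => ?_
    congr 1
    ring
  rw [h1, integral_exp_mul_complex hc]
  have h2 : cexp ((x : ℂ) * I * ((a : ℝ) : ℂ)) = Complex.cos (a * x) + Complex.sin (a * x) * I := by
    rw [← Complex.exp_mul_I]
    congr 1
    ring
  have h3 : cexp ((x : ℂ) * I * ((-a : ℝ) : ℂ)) = Complex.cos (a * x) - Complex.sin (a * x) * I := by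
    have : (x : ℂ) * I * ((-a : ℝ) : ℂ) = (-(a * x : ℂ)) * I := by
      push_cast
      ring
    rw [this, Complex.exp_mul_I, Complex.cos_neg, Complex.sin_neg]
    ring
  rw [h2, h3]
  have hx' : (x : ℂ) ≠ 0 := by exact_mod_cast hx
  push_cast
  field_simp
  ring

theorem swap (ν : Measure Ω) [IsProbabilityMeasure ν] (a : ℝ) (ha : 0 < a) (H : Ω → ℂ)
    (hH : Integrable H ν) (g : Ω → ℝ) (hg : Measurable g) :
    ∫ υ in (-a)..a, ∫ ω, H ω * cexp ((υ : ℂ) * (g ω : ℂ) * I) ∂ν = ∫ ω, H ω * S a (g ω) ∂ν := by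
  have hle : -a ≤ a := by linarith
  rw [intervalIntegral.integral_of_le hle]
  rw [MeasureTheory.integral_integral_swap]
  · refine integral_congr_ae (Filter.Eventually.of_forall fun ω => ?_)
    simp only
    rw [integral_const_mul]
    unfold S
    rw [intervalIntegral.integral_of_le hle]
  · have h1 : Integrable (fun p : ℝ × Ω => H p.2) ((volume.restrict (Ioc (-a) a)).prod ν) :=
      hH.comp_snd _
    have hm : Measurable (fun p : ℝ × Ω => cexp ((p.1 : ℂ) * (g p.2 : ℂ) * I)) := by fun_prop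
    refine h1.mul_bdd (c := 1) hm.aestronglyMeasurable ?_
    filter_upwards with p
    have : (p.1 : ℂ) * (g p.2 : ℂ) * I = ((p.1 * g p.2 : ℝ) : ℂ) * I := by push_cast; ring
    rw [this, Complex.norm_exp_ofReal_mul_I]

/-- the weight -/
noncomputable def w (a : ℝ) (f g : Ω → ℝ) (ω : Ω) : ℝ :=
  Real.exp (-(f ω) - g ω) * (2 * Real.sin (a * f ω) / f ω) * (2 * Real.sin (a * g ω) / g ω)

theorem sin_quot_pos (a R c₀ x : ℝ) (ha : 0 < a) (hR : a * R ≤ π / 2) (hc : 0 < c₀)
    (h1 : c₀ ≤ x) (h2 : x ≤ R) :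
    0 < 2 * Real.sin (a * x) / x ∧ 2 * Real.sin (a * x) / x ≤ 2 * a := by
  have hx : 0 < x := by linarith
  have hax : 0 < a * x := by positivity
  have hax2 : a * x < π := by nlinarith [Real.pi_pos]
  have hs : 0 < Real.sin (a * x) := Real.sin_pos_of_pos_of_lt_pi hax hax2
  refine ⟨by positivity, ?_⟩
  rw [div_le_iff₀ hx]
  have := Real.sin_le hax.le
  nlinarith

theorem avg_eq (ν : Measure Ω) [IsProbabilityMeasure ν] (f g : Ω → ℝ) (hf : Measurable f)
    (hg : Measurable g) (c₀ R a lam : ℝ) (hc : 0 < c₀) (ha : 0 < a)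
    (hfg : ∀ᵐ ω ∂ν, c₀ ≤ f ω ∧ f ω ≤ R ∧ c₀ ≤ g ω ∧ g ω ≤ R) (t : ℝ) :
    Pool.Agent.TH597.FD.avg a (Pool.Agent.TH597.FD.N ν f g) t (lam * t) =
      ∫ ω, (w a f g ω : ℂ) * cexp (((t * (f ω + lam * g ω) : ℝ) : ℂ) * I) ∂ν := by
  set G : Ω → ℂ := fun ω => cexp (((-(f ω) - g ω : ℝ) : ℂ)) *
    cexp (((t * (f ω + lam * g ω) : ℝ) : ℂ) * I) with hG
  have hGm : Measurable G := by
    rw [hG]
    fun_prop
  have hGb : ∀ᵐ ω ∂ν, ‖G ω‖ ≤ 1 := by
    filter_upwards [hfg] with ω hω
    rw [hG]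
    simp only
    rw [norm_mul, Complex.norm_exp_ofReal_mul_I, mul_one, Complex.norm_exp, Complex.ofReal_re]
    exact Real.exp_le_one_iff.2 (by linarith [hω.1, hω.2.2.1])
  have hSm : ∀ k : Ω → ℝ, Measurable k → (∀ᵐ ω ∂ν, k ω ≠ 0) →
      AEStronglyMeasurable (fun ω => S a (k ω)) ν := by
    intro k hk hk0
    have : (fun ω => S a (k ω)) =ᵐ[ν] fun ω => ((2 * Real.sin (a * k ω) / k ω : ℝ) : ℂ) := by
      filter_upwards [hk0] with ω hω
      exact S_eq a _ hω
    refine AEStronglyMeasurable.congr ?_ this.symm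
    have hm : Measurable fun ω => ((2 * Real.sin (a * k ω) / k ω : ℝ) : ℂ) := by fun_prop
    exact hm.aestronglyMeasurable
  have hSb : ∀ x : ℝ, ‖S a x‖ ≤ 2 * a := by
    intro x
    unfold S
    refine (intervalIntegral.norm_integral_le_of_norm_le_const (C := 1) ?_).trans ?_
    · intro τ _
      have : (τ : ℂ) * (x : ℂ) * I = ((τ * x : ℝ) : ℂ) * I := by push_cast; ring
      rw [this, Complex.norm_exp_ofReal_mul_I]
    · rw [one_mul, abs_of_nonneg (by linarith)]
      linarith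
  have hg0 : ∀ᵐ ω ∂ν, g ω ≠ 0 := by
    filter_upwards [hfg] with ω hω
    exact (lt_of_lt_of_le hc hω.2.2.1).ne'
  have hf0 : ∀ᵐ ω ∂ν, f ω ≠ 0 := by
    filter_upwards [hfg] with ω hω
    exact (lt_of_lt_of_le hc hω.1).ne'
  have hGi : Integrable G ν := Integrable.of_bound hGm.aestronglyMeasurable 1 hGb
  have hGS : Integrable (fun ω => G ω * S a (g ω)) ν :=
    hGi.mul_bdd (c := 2 * a) (hSm g hg hg0) (Filter.Eventually.of_forall fun ω => hSb _)
  unfold Pool.Agent.TH597.FD.avg Pool.Agent.TH597.FD.N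
  have e1 : ∀ τ : ℝ, (∫ υ in (-a)..a, ∫ ω, cexp (-((1 - (((t + τ, lam * t + υ) : ℝ × ℝ).1 : ℂ) * I) *
      (f ω : ℂ)) - (1 - (((t + τ, lam * t + υ) : ℝ × ℝ).2 : ℂ) * I) * (g ω : ℂ)) ∂ν) =
      ∫ ω, (G ω * S a (g ω)) * cexp ((τ : ℂ) * (f ω : ℂ) * I) ∂ν := by
    intro τ
    have hH : Integrable (fun ω => G ω * cexp ((τ : ℂ) * (f ω : ℂ) * I)) ν := by
      refine hGi.mul_bdd (c := 1) ?_ ?_
      · have : Measurable fun ω => cexp ((τ : ℂ) * (f ω : ℂ) * I) := by fun_prop
        exact this.aestronglyMeasurable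
      · filter_upwards with ω
        have : (τ : ℂ) * (f ω : ℂ) * I = ((τ * f ω : ℝ) : ℂ) * I := by push_cast; ring
        rw [this, Complex.norm_exp_ofReal_mul_I]
    have := swap ν a ha _ hH g hg
    calc _ = ∫ υ in (-a)..a, ∫ ω, (G ω * cexp ((τ : ℂ) * (f ω : ℂ) * I)) *
          cexp ((υ : ℂ) * (g ω : ℂ) * I) ∂ν := by
          refine intervalIntegral.integral_congr fun υ _ => ?_
          simp only
          refine integral_congr_ae (Filter.Eventually.of_forall fun ω => ?_)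
          simp only [hG]
          rw [← Complex.exp_add, ← Complex.exp_add, ← Complex.exp_add]
          congr 1
          push_cast
          ring
      _ = _ := by
          rw [this]
          refine integral_congr_ae (Filter.Eventually.of_forall fun ω => ?_)
          simp only
          ring
  calc _ = ∫ τ in (-a)..a, ∫ ω, (G ω * S a (g ω)) * cexp ((τ : ℂ) * (f ω : ℂ) * I) ∂ν :=
        intervalIntegral.integral_congr fun τ _ => e1 τ
    _ = ∫ ω, (G ω * S a (g ω)) * S a (f ω) ∂ν := swap ν a ha _ hGS f hf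
    _ = _ := by
        refine integral_congr_ae ?_
        filter_upwards [hf0, hg0] with ω h1 h2
        rw [S_eq a _ h1, S_eq a _ h2, hG]
        simp only [w]
        push_cast
        ring

theorem pos : Pool.Agent.TH597.FD.POS := by
  intro Ω _ ν _ f g hf hg c₀ R a lam hc ha hR hlam hfg D hD hfD hfin
  set h : Ω → ℝ := fun ω => f ω + lam * g ω with hh
  have hhm : Measurable h := by rw [hh]; fun_prop
  have hwm : Measurable (w a f g) := by unfold w; fun_prop
  have hwb : ∀ᵐ ω ∂ν, 0 < w a f g ω ∧ w a f g ω ≤ (2 * a) ^ 2 := by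
    filter_upwards [hfg] with ω hω
    obtain ⟨p1, p2⟩ := sin_quot_pos a R c₀ (f ω) ha hR hc hω.1 hω.2.1
    obtain ⟨q1, q2⟩ := sin_quot_pos a R c₀ (g ω) ha hR hc hω.2.2.1 hω.2.2.2
    have he : Real.exp (-(f ω) - g ω) ≤ 1 :=
      Real.exp_le_one_iff.2 (by linarith [hω.1, hω.2.2.1])
    have he0 := Real.exp_pos (-(f ω) - g ω)
    refine ⟨by unfold w; positivity, ?_⟩
    unfold w
    calc _ ≤ 1 * (2 * a) * (2 * a) := by gcongr
      _ = (2 * a) ^ 2 := by ring
  have hwi : Integrable (w a f g) ν := by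
    refine Integrable.of_bound hwm.aestronglyMeasurable ((2 * a) ^ 2) ?_
    filter_upwards [hwb] with ω hω
    rw [Real.norm_eq_abs, abs_of_pos hω.1]
    exact hω.2
  set Z : ℝ := ∫ ω, w a f g ω ∂ν with hZ
  have hw0 : 0 ≤ᵐ[ν] w a f g := by
    filter_upwards [hwb] with ω hω using hω.1.le
  have hZpos : 0 < Z := by
    rw [hZ, integral_pos_iff_support_of_nonneg_ae hw0 hwi]
    have : Function.support (w a f g) =ᵐ[ν] (univ : Set Ω) := by
      rw [Filter.eventuallyEq_univ]
      filter_upwards [hwb] with ω hω using hω.1.ne'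
    rw [measure_congr this]
    simp
  set ρ : Ω → ℝ≥0∞ := fun ω => ENNReal.ofReal (w a f g ω / Z) with hρ
  have hρm : Measurable ρ := by rw [hρ]; fun_prop
  set P : Measure Ω := ν.withDensity ρ with hP
  have hPp : IsProbabilityMeasure P := by
    constructor
    rw [hP, withDensity_apply _ MeasurableSet.univ, Measure.restrict_univ, hρ,
      ← ofReal_integral_eq_lintegral_ofReal (hwi.div_const Z)]
    · rw [integral_div, ← hZ, div_self hZpos.ne', ENNReal.ofReal_one]
    · filter_upwards [hw0] with ω hω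
      exact div_nonneg hω hZpos.le
  have hPint : ∀ t : ℝ, ∫ ω, cexp (((t * h ω : ℝ) : ℂ) * I) ∂P =
      (1 / Z : ℝ) * Pool.Agent.TH597.FD.avg a (Pool.Agent.TH597.FD.N ν f g) t (lam * t) := by
    intro t
    rw [avg_eq ν f g hf hg c₀ R a lam hc ha hfg t, hP,
      integral_withDensity_eq_integral_toReal_smul hρm
        (Filter.Eventually.of_forall fun ω => ENNReal.ofReal_lt_top), ← integral_const_mul]
    refine integral_congr_ae ?_
    filter_upwards [hw0] with ω hω
    simp only [hρ, hh]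
    rw [ENNReal.toReal_ofReal (div_nonneg hω hZpos.le), Complex.real_smul]
    push_cast
    ring
  set Φ : ℝ → ℝ≥0∞ := fun t => ENNReal.ofReal (‖∫ ω, cexp (((t * h ω : ℝ) : ℂ) * I) ∂P‖ ^ 2)
    with hΦ
  have hΦneg : ∀ t, Φ (-t) = Φ t := by
    intro t
    simp only [hΦ]
    have : ∫ ω, cexp (((-t * h ω : ℝ) : ℂ) * I) ∂P =
        (starRingEnd ℂ) (∫ ω, cexp (((t * h ω : ℝ) : ℂ) * I) ∂P) := by
      rw [← integral_conj]
      refine integral_congr_ae (Filter.Eventually.of_forall fun ω => ?_)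
      simp only
      rw [← Complex.exp_conj, map_mul, Complex.conj_ofReal, Complex.conj_I]
      congr 1
      push_cast
      ring
    rw [this, RCLike.norm_conj]
  have hΦpos : ∫⁻ t in Ioi (0 : ℝ), Φ t ≠ ⊤ := by
    have e : ∀ t, Φ t = ENNReal.ofReal ((1 / Z) ^ 2) * ENNReal.ofReal
        (‖Pool.Agent.TH597.FD.avg a (Pool.Agent.TH597.FD.N ν f g) t (lam * t)‖ ^ 2) := by
      intro t
      simp only [hΦ]
      rw [hPint t, norm_mul, mul_pow, ENNReal.ofReal_mul (by positivity), Complex.norm_real,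
        Real.norm_eq_abs, sq_abs]
    simp_rw [e]
    rw [lintegral_const_mul' _ _ ENNReal.ofReal_ne_top]
    exact ENNReal.mul_ne_top ENNReal.ofReal_ne_top hfin
  have hΦtop : ∫⁻ t : ℝ, Φ t ≠ ⊤ := by
    rw [← lintegral_add_compl Φ (measurableSet_Ioi (a := (0 : ℝ)))]
    refine ENNReal.add_ne_top.2 ⟨hΦpos, ?_⟩
    have e1 : ∫⁻ t in (Ioi (0 : ℝ))ᶜ, Φ t = ∫⁻ t in Ioi (0 : ℝ), Φ t := by
      rw [compl_Ioi]
      have hpre : (fun t : ℝ => -t) ⁻¹' (Ici 0) = Iic 0 := by
        ext t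
        simp
      calc ∫⁻ t in Iic (0 : ℝ), Φ t = ∫⁻ t in (fun t : ℝ => -t) ⁻¹' (Ici 0), Φ (-t) := by
            rw [hpre]
            simp_rw [hΦneg]
        _ = ∫⁻ t in Ici (0 : ℝ), Φ t :=
            (Measure.measurePreserving_neg (volume : Measure ℝ)).setLIntegral_comp_preimage_emb
              (Homeomorph.neg ℝ).measurableEmbedding Φ (Ici 0)
        _ = ∫⁻ t in Ioi (0 : ℝ), Φ t := setLIntegral_congr Ioi_ae_eq_Ici.symm
    rw [e1]
    exact hΦpos
  set J : ℝ≥0∞ := ∫⁻ t : ℝ, Φ t with hJ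
  refine Pool.Agent.H744R2.Falc.volume_pos_of_collision (Y := Unit) P (Measure.dirac ())
    (fun ω _ => h ω) ?_ D hD ?_ (Real.exp (1 / 4) / Real.sqrt Real.pi * J.toReal) ?_
  · exact hhm.comp measurable_fst
  · filter_upwards with y
    exact (withDensity_absolutelyContinuous ν ρ).ae_le hfD
  · intro δ hδ _
    rw [lintegral_dirac]
    refine (Pool.Agent.H744R2.Falc.collision_gauss P h hhm δ hδ).trans ?_
    have h1 : ∫⁻ t : ℝ, ENNReal.ofReal (‖∫ ω, Complex.exp (((t * h ω : ℝ) : ℂ) * Complex.I) ∂P‖ ^ 2 *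
          Real.exp (-(δ ^ 2 * t ^ 2))) ≤ J := by
      refine lintegral_mono fun t => ?_
      simp only [hΦ]
      refine ENNReal.ofReal_le_ofReal ?_
      have : Real.exp (-(δ ^ 2 * t ^ 2)) ≤ 1 :=
        Real.exp_le_one_iff.2 (by have : 0 ≤ δ ^ 2 * t ^ 2 := by positivity
                                  linarith)
      exact mul_le_of_le_one_right (by positivity) this
    calc _ ≤ ENNReal.ofReal (Real.exp (1 / 4) * (δ / Real.sqrt Real.pi)) * J := by gcongr
      _ = ENNReal.ofReal (Real.exp (1 / 4) * (δ / Real.sqrt Real.pi)) *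
            ENNReal.ofReal J.toReal := by rw [ENNReal.ofReal_toReal hΦtop]
      _ = _ := by
          rw [← ENNReal.ofReal_mul (by positivity)]
          congr 1
          ring

end Pool.Agent.TH921.FD_POS
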