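import Pool.Agent.TH636.BC.PM

/-!
# Soundness of the Hilbert calculus in the pseudo-model of dimension `m`
-/

set_option autoImplicit false

namespace Pool.Agent.TH921.J1544

open Pool.Agent.TH672 Pool.Agent.TH636.BC
open Pool.Agent.TH672.Form (ren)

/-! ### Atomic predicates depend only on the values -/

theorem eqs_congr {s t : St} {x y x' y' : ℕ} (hx : s.v x = t.v x') (hy : s.v y = t.v y')
    (hc : s.c x y = t.c x' y') : Eqs s x y ↔ Eqs t x' y' := by
  simp only [Eqs, hx, hy, hc]

theorem succ_congr {s t : St} {x y x' y' : ℕ} (hx : s.v x = t.v x') (hy : s.v y = t.v y')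
    (hc : s.c x y = t.c x' y') : SuccS s x y ↔ SuccS t x' y' := by
  simp only [SuccS, Eqs, hx, hy, hc]

theorem add_congr {s t : St} {x y z x' y' z' : ℕ} (hx : s.v x = t.v x') (hy : s.v y = t.v y')
    (hz : s.v z = t.v z') (hxz : s.c x z = t.c x' z') (hyz : s.c y z = t.c y' z') :
    AddS s x y z ↔ AddS t x' y' z' := by
  simp only [AddS, Eqs, hx, hy, hz, hxz, hyz]

theorem mul_congr {s t : St} {x y z x' y' z' : ℕ} (hx : s.v x = t.v x') (hy : s.v y = t.v y')
    (hz : s.v z = t.v z') (hxz : s.c x z = t.c x' z') (hyz : s.c y z = t.c y' z') :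
    MulS s x y z ↔ MulS t x' y' z' := by
  simp only [MulS, Eqs, hx, hy, hz, hxz, hyz]

theorem op_congr {s t : St} {i a b c a' b' c' : ℕ} (ha : s.v a = t.v a') (hb : s.v b = t.v b')
    (hc : s.v c = t.v c') (hab : s.c a b = t.c a' b') : OpS s i a b c ↔ OpS t i a' b' c' := by
  rcases i with _ | _ | _ | _ | _ | _ | i <;> simp only [OpS, ha, hb, hc, hab]

/-! ### Invariance -/

/-- the states agree below `m` -/
def Same (m : ℕ) (s t : St) : Prop :=
  (∀ i < m, s.v i = t.v i) ∧ ∀ i < m, ∀ j < m, s.c i j = t.c i j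

theorem agr_refl (m x : ℕ) (s : St) : Agr m x s s :=
  ⟨fun _ _ _ => rfl, fun _ _ _ _ _ _ => rfl⟩

theorem agr_symm {m x : ℕ} {s t : St} (h : Agr m x s t) : Agr m x t s :=
  ⟨fun i hi hx => (h.1 i hi hx).symm, fun i hi j hj hx hy => (h.2 i hi j hj hx hy).symm⟩

theorem agr_trans {m x : ℕ} {s t r : St} (h : Agr m x s t) (h' : Agr m x t r) : Agr m x s r :=
  ⟨fun i hi hx => (h.1 i hi hx).trans (h'.1 i hi hx),
    fun i hi j hj hx hy => (h.2 i hi j hj hx hy).trans (h'.2 i hi j hj hx hy)⟩

theorem agr_same {m x : ℕ} {s t : St} (h : Same m s t) : Agr m x s t :=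
  ⟨fun i hi _ => h.1 i hi, fun i hi j hj _ _ => h.2 i hi j hj⟩

theorem tru_same {m : ℕ} (φ : Fml) : ∀ s t : St, Same m s t → Vlt m φ →
    (Tru m φ s ↔ Tru m φ t) := by
  induction φ with
  | bot => intro s t _ _; exact Iff.rfl
  | eq x y => intro s t h hv; exact eqs_congr (h.1 x hv.1) (h.1 y hv.2) (h.2 x hv.1 y hv.2)
  | zero x =>
    intro s t h hv
    show s.v x = _ ↔ t.v x = _
    rw [h.1 x hv]
  | succ x y => intro s t h hv; exact succ_congr (h.1 x hv.1) (h.1 y hv.2) (h.2 x hv.1 y hv.2)
  | add x y z =>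
    intro s t h hv
    exact add_congr (h.1 x hv.1) (h.1 y hv.2.1) (h.1 z hv.2.2) (h.2 x hv.1 z hv.2.2)
      (h.2 y hv.2.1 z hv.2.2)
  | mul x y z =>
    intro s t h hv
    exact mul_congr (h.1 x hv.1) (h.1 y hv.2.1) (h.1 z hv.2.2) (h.2 x hv.1 z hv.2.2)
      (h.2 y hv.2.1 z hv.2.2)
  | op i a b c d =>
    intro s t h hv
    exact op_congr (h.1 a hv.1) (h.1 b hv.2.1) (h.1 c hv.2.2.1) (h.2 a hv.1 b hv.2.1)
  | imp φ ψ ih1 ih2 =>
    intro s t h hv
    show (Tru m φ s → Tru m ψ s) ↔ (Tru m φ t → Tru m ψ t)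
    rw [ih1 s t h hv.1, ih2 s t h hv.2]
  | all x φ _ =>
    intro s t h _
    show (∀ r, Ok m r → Agr m x r s → Tru m φ r) ↔ (∀ r, Ok m r → Agr m x r t → Tru m φ r)
    have h' : Same m t s := ⟨fun i hi => (h.1 i hi).symm, fun i hi j hj => (h.2 i hi j hj).symm⟩
    exact ⟨fun H r hr hrt => H r hr (agr_trans hrt (agr_same h')),
      fun H r hr hrs => H r hr (agr_trans hrs (agr_same h))⟩

/-! ### Commutation -/

theorem glue {m i j : ℕ} {t r s : St} (h1 : Agr m i t r) (h2 : Agr m j r s) (hij : i ≠ j)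
    (δ : ℕ) : ∃ s' : St, (∀ a < m, a ≠ j → s'.v a = t.v a) ∧ (∀ a < m, a ≠ i → s'.v a = s.v a) ∧
      (∀ a < m, ∀ b < m, a ≠ j → b ≠ j → s'.c a b = t.c a b) ∧
      (∀ a < m, ∀ b < m, a ≠ i → b ≠ i → s'.c a b = s.c a b) ∧ s'.c i j = δ ∧ s'.c j i = δ := by
  refine ⟨⟨fun k => if k = j then s.v j else t.v k, fun a b =>
    if (a = i ∧ b = j) ∨ (a = j ∧ b = i) then δ else if a = j ∨ b = j then s.c a b else t.c a b⟩,
    ?_, ?_, ?_, ?_, ?_, ?_⟩
  · intro a _ haj
    simp only [if_neg haj]
  · intro a ha hai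
    by_cases haj : a = j
    · subst haj
      simp
    · simp only [if_neg haj]
      exact (h1.1 a ha hai).trans (h2.1 a ha haj)
  · intro a _ b _ haj hbj
    have e1 : ¬ ((a = i ∧ b = j) ∨ (a = j ∧ b = i)) := by
      rintro (h | h)
      · exact hbj h.2
      · exact haj h.1
    have e2 : ¬ (a = j ∨ b = j) := by
      rintro (h | h)
      · exact haj h
      · exact hbj h
    simp only [if_neg e1, if_neg e2]
  · intro a ha b hb hai hbi
    have e1 : ¬ ((a = i ∧ b = j) ∨ (a = j ∧ b = i)) := by
      rintro (h | h)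
      · exact hai h.1
      · exact hbi h.2
    simp only [if_neg e1]
    by_cases e2 : a = j ∨ b = j
    · simp only [if_pos e2]
    · simp only [if_neg e2]
      rw [not_or] at e2
      exact (h1.2 a ha b hb hai hbi).trans (h2.2 a ha b hb e2.1 e2.2)
  · simp
  · simp

/-- the conditions on the new colour -/
structure Good (m i j : ℕ) (t s : St) (δ : ℕ) : Prop where
  d0 : (t.v i).isLeft ∨ (s.v j).isLeft → δ = 0
  d1 : δ ≤ m
  d2 : δ = 0 → (t.v i).isRight → (s.v j).isRight → t.v i = s.v j
  d3 : δ = 0 → (t.v i).isRight → (s.v j).isRight → ∀ k < m, k ≠ i → k ≠ j → t.c i k = s.c j k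
  d4 : ∀ k < m, k ≠ i → k ≠ j → (t.v i).isRight → (t.v k).isRight → t.c i k = 0 → δ = s.c j k
  d5 : ∀ k < m, k ≠ i → k ≠ j → (s.v j).isRight → (s.v k).isRight → s.c j k = 0 → δ = t.c i k
  d6 : ∀ k < m, k ≠ i → k ≠ j → δ = t.c i k → t.c i k = s.c j k → δ = 0

theorem left_or_right (x : ℕ ⊕ ℕ) : x.isLeft = true ∨ x.isRight = true := by
  cases x <;> simp

theorem not_left_of_right {x : ℕ ⊕ ℕ} (h : x.isRight = true) : ¬ x.isLeft = true := by
  cases x <;> simp_all

/-- avoiding few values -/
theorem exists_colour (m i j : ℕ) (hi : i < m) (hj : j < m) (hij : i ≠ j) (f : ℕ → ℕ) :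
    ∃ δ, 1 ≤ δ ∧ δ ≤ m ∧ ∀ k < m, k ≠ i → k ≠ j → δ ≠ f k := by
  classical
  have h1 : ((((Finset.range m).erase i).erase j).image f).card < (Finset.Icc 1 m).card := by
    refine Finset.card_image_le.trans_lt ?_
    rw [Finset.card_erase_of_mem (Finset.mem_erase.2 ⟨hij.symm, Finset.mem_range.2 hj⟩),
      Finset.card_erase_of_mem (Finset.mem_range.2 hi), Finset.card_range, Nat.card_Icc]
    omega
  obtain ⟨δ, hδ, hδ2⟩ := Finset.exists_mem_notMem_of_card_lt_card h1
  rw [Finset.mem_Icc] at hδ
  refine ⟨δ, hδ.1, hδ.2, fun k hk hki hkj e => hδ2 ?_⟩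
  rw [e]
  exact Finset.mem_image_of_mem f (Finset.mem_erase.2 ⟨hkj, Finset.mem_erase.2
    ⟨hki, Finset.mem_range.2 hk⟩⟩)

theorem exists_good {m i j : ℕ} {t r s : St} (ht : Ok m t) (hs : Ok m s)
    (hi : i < m) (hj : j < m) (hij : i ≠ j) (h1 : Agr m i t r) (h2 : Agr m j r s) :
    ∃ δ, Good m i j t s δ := by
  -- the states agree off i, j
  have hv : ∀ k < m, k ≠ i → k ≠ j → t.v k = s.v k := fun k hk hki hkj =>
    (h1.1 k hk hki).trans (h2.1 k hk hkj)
  have hc : ∀ k < m, ∀ l < m, k ≠ i → k ≠ j → l ≠ i → l ≠ j → t.c k l = s.c k l :=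
    fun k hk l hl hki hkj hli hlj => (h1.2 k hk l hl hki hli).trans (h2.2 k hk l hl hkj hlj)
  by_cases hL : (t.v i).isLeft = true ∨ (s.v j).isLeft = true
  · refine ⟨0, fun _ => rfl, Nat.zero_le _, ?_, ?_, ?_, ?_, fun _ _ _ _ _ _ => rfl⟩
    · intro _ ha hb
      rcases hL with h | h
      · exact absurd h (not_left_of_right ha)
      · exact absurd h (not_left_of_right hb)
    · intro _ ha hb
      rcases hL with h | h
      · exact absurd h (not_left_of_right ha)
      · exact absurd h (not_left_of_right hb)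
    · intro k hk hki hkj ha _ _
      rcases hL with h | h
      · exact absurd h (not_left_of_right ha)
      · exact (hs.norm j hj k hk (Or.inl h)).symm
    · intro k hk hki hkj hb _ _
      rcases hL with h | h
      · exact (ht.norm i hi k hk (Or.inl h)).symm
      · exact absurd h (not_left_of_right hb)
  rw [not_or] at hL
  have hti : (t.v i).isRight = true := (left_or_right _).resolve_left hL.1
  have hsj : (s.v j).isRight = true := (left_or_right _).resolve_left hL.2
  by_cases hA : ∃ k < m, k ≠ i ∧ k ≠ j ∧ (t.v k).isRight = true ∧ t.c i k = 0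
  · obtain ⟨k0, hk0, hk0i, hk0j, hk0r, hk0c⟩ := hA
    have hk0s : (s.v k0).isRight = true := by rw [← hv k0 hk0 hk0i hk0j]; exact hk0r
    -- t.c i k = t.c k0 k
    have e1 : ∀ k < m, t.c i k = t.c k0 k := fun k hk => ht.cong i hi k0 hk0 k hk hti hk0r hk0c
    have e2 : ∀ k < m, k ≠ i → k ≠ j → t.c i k = s.c k0 k := fun k hk hki hkj => by
      rw [e1 k hk, hc k0 hk0 k hk hk0i hk0j hki hkj]
    refine ⟨s.c j k0, ?_, hs.le j hj k0 hk0, ?_, ?_, ?_, ?_, ?_⟩
    · rintro (h | h)
      · exact absurd h hL.1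
      · exact absurd h hL.2
    · intro h _ _
      rw [ht.val i hi k0 hk0 hti hk0r hk0c, hv k0 hk0 hk0i hk0j]
      exact (hs.val j hj k0 hk0 hsj hk0s h).symm
    · intro h _ _ k hk hki hkj
      rw [e2 k hk hki hkj]
      exact (hs.cong j hj k0 hk0 k hk hsj hk0s h).symm
    · intro k hk hki hkj _ hkr hkc
      have e3 : s.c k0 k = 0 := by rw [← e2 k hk hki hkj]; exact hkc
      have hks : (s.v k).isRight = true := by rw [← hv k hk hki hkj]; exact hkr
      have e4 := hs.cong k0 hk0 k hk j hj hk0s hks e3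
      rw [hs.symm j hj k0 hk0, e4, hs.symm k hk j hj]
    · intro k hk hki hkj _ hkr hkc
      rw [e2 k hk hki hkj, hs.cong j hj k hk k0 hk0 hsj hkr hkc, hs.symm k hk k0 hk0]
    · intro k hk hki hkj h3 h4
      rw [e2 k hk hki hkj] at h3 h4
      exact hs.tri j hj k0 hk0 k hk h3 h4
  by_cases hB : ∃ k < m, k ≠ i ∧ k ≠ j ∧ (s.v k).isRight = true ∧ s.c j k = 0
  · obtain ⟨k0, hk0, hk0i, hk0j, hk0s, hk0c⟩ := hB
    have hk0r : (t.v k0).isRight = true := by rw [hv k0 hk0 hk0i hk0j]; exact hk0s
    have e1 : ∀ k < m, s.c j k = s.c k0 k := fun k hk => hs.cong j hj k0 hk0 k hk hsj hk0s hk0c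
    have e2 : ∀ k < m, k ≠ i → k ≠ j → s.c j k = t.c k0 k := fun k hk hki hkj => by
      rw [e1 k hk, hc k0 hk0 k hk hk0i hk0j hki hkj]
    refine ⟨t.c i k0, ?_, ht.le i hi k0 hk0, ?_, ?_, ?_, ?_, ?_⟩
    · rintro (h | h)
      · exact absurd h hL.1
      · exact absurd h hL.2
    · intro h _ _
      rw [hs.val j hj k0 hk0 hsj hk0s hk0c, ← hv k0 hk0 hk0i hk0j]
      exact ht.val i hi k0 hk0 hti hk0r h
    · intro h _ _ k hk hki hkj
      rw [e2 k hk hki hkj]
      exact ht.cong i hi k0 hk0 k hk hti hk0r h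
    · intro k hk hki hkj _ hkr hkc
      rw [e2 k hk hki hkj, ht.cong i hi k hk k0 hk0 hti hkr hkc, ht.symm k hk k0 hk0]
    · intro k hk hki hkj _ hkr hkc
      have e3 : t.c k0 k = 0 := by rw [← e2 k hk hki hkj]; exact hkc
      have hks : (t.v k).isRight = true := by rw [hv k hk hki hkj]; exact hkr
      have e4 := ht.cong k0 hk0 k hk i hi hk0r hks e3
      rw [ht.symm i hi k0 hk0, e4, ht.symm k hk i hi]
    · intro k hk hki hkj h3 h4
      rw [e2 k hk hki hkj] at h4
      exact ht.tri i hi k0 hk0 k hk (h3.trans h4) h4.symm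
  · obtain ⟨δ, hδ1, hδ2, hδ3⟩ := exists_colour m i j hi hj hij (fun k => t.c i k)
    refine ⟨δ, ?_, hδ2, ?_, ?_, ?_, ?_, ?_⟩
    · rintro (h | h)
      · exact absurd h hL.1
      · exact absurd h hL.2
    · intro h; omega
    · intro h; omega
    · intro k hk hki hkj _ hkr hkc
      exact absurd ⟨k, hk, hki, hkj, hkr, hkc⟩ hA
    · intro k hk hki hkj _ hkr hkc
      exact absurd ⟨k, hk, hki, hkj, hkr, hkc⟩ hB
    · intro k hk hki hkj h3 _
      exact absurd h3 (hδ3 k hk hki hkj)

theorem comm {m i j : ℕ} {t r s : St} (ht : Ok m t) (hs : Ok m s)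
    (hi : i < m) (hj : j < m) (hij : i ≠ j) (h1 : Agr m i t r) (h2 : Agr m j r s) :
    ∃ s', Ok m s' ∧ Agr m j t s' ∧ Agr m i s' s := by
  obtain ⟨δ, G⟩ := exists_good ht hs hi hj hij h1 h2
  obtain ⟨s', V1, V2, F1, F2, F3, F4⟩ := glue h1 h2 hij δ
  have Vi : s'.v i = t.v i := V1 i hi hij
  have Vj : s'.v j = s.v j := V2 j hj hij.symm
  have Cik : ∀ k < m, k ≠ j → s'.c i k = t.c i k := fun k hk hkj => F1 i hi k hk hij hkj
  have Cki : ∀ k < m, k ≠ j → s'.c k i = t.c i k := fun k hk hkj => by
    rw [F1 k hk i hi hkj hij, ht.symm k hk i hi]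
  have Cjk : ∀ k < m, k ≠ i → s'.c j k = s.c j k := fun k hk hki => F2 j hj k hk hij.symm hki
  have Ckj : ∀ k < m, k ≠ i → s'.c k j = s.c j k := fun k hk hki => by
    rw [F2 k hk j hj hki hij.symm, hs.symm k hk j hj]
  have hrefl : ∀ a < m, s'.c a a = 0 := by
    intro a ha
    by_cases haj : a = j
    · rw [F2 a ha a ha (by rw [haj]; exact hij.symm) (by rw [haj]; exact hij.symm)]
      exact hs.refl a ha
    · rw [F1 a ha a ha haj haj]
      exact ht.refl a ha
  -- two indices
  have two : ∀ (P : ℕ → ℕ → Prop), (∀ a < m, ∀ b < m, a ≠ j → b ≠ j → P a b) →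
      (∀ a < m, ∀ b < m, a ≠ i → b ≠ i → P a b) → P i j → P j i → ∀ a < m, ∀ b < m, P a b := by
    intro P p1 p2 p3 p4 a ha b hb
    by_cases haj : a = j
    · by_cases hbi : b = i
      · rw [haj, hbi]; exact p4
      · exact p2 a ha b hb (by rw [haj]; exact hij.symm) hbi
    · by_cases hbj : b = j
      · by_cases hai : a = i
        · rw [hai, hbj]; exact p3
        · exact p2 a ha b hb hai (by rw [hbj]; exact hij.symm)
      · exact p1 a ha b hb haj hbj
  have hsymm : ∀ a < m, ∀ b < m, s'.c a b = s'.c b a := by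
    apply two
    · intro a ha b hb haj hbj
      rw [F1 a ha b hb haj hbj, F1 b hb a ha hbj haj, ht.symm a ha b hb]
    · intro a ha b hb hai hbi
      rw [F2 a ha b hb hai hbi, F2 b hb a ha hbi hai, hs.symm a ha b hb]
    · rw [F3, F4]
    · rw [F3, F4]
  refine ⟨s', ⟨?_, hrefl, hsymm, ?_, ?_, ?_, ?_⟩, ?_, ?_⟩
  · -- norm
    apply two (fun a b => (s'.v a).isLeft ∨ (s'.v b).isLeft → s'.c a b = 0)
    · intro a ha b hb haj hbj h
      rw [V1 a ha haj, V1 b hb hbj] at h
      rw [F1 a ha b hb haj hbj]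
      exact ht.norm a ha b hb h
    · intro a ha b hb hai hbi h
      rw [V2 a ha hai, V2 b hb hbi] at h
      rw [F2 a ha b hb hai hbi]
      exact hs.norm a ha b hb h
    · intro h
      rw [Vi, Vj] at h
      rw [F3]; exact G.d0 h
    · intro h
      rw [Vi, Vj] at h
      rw [F4]; exact G.d0 h.symm
  · -- le
    apply two (fun a b => s'.c a b ≤ m)
    · intro a ha b hb haj hbj
      rw [F1 a ha b hb haj hbj]
      exact ht.le a ha b hb
    · intro a ha b hb hai hbi
      rw [F2 a ha b hb hai hbi]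
      exact hs.le a ha b hb
    · rw [F3]; exact G.d1
    · rw [F4]; exact G.d1
  · -- val
    apply two (fun a b => (s'.v a).isRight → (s'.v b).isRight → s'.c a b = 0 → s'.v a = s'.v b)
    · intro a ha b hb haj hbj
      rw [V1 a ha haj, V1 b hb hbj, F1 a ha b hb haj hbj]
      exact ht.val a ha b hb
    · intro a ha b hb hai hbi
      rw [V2 a ha hai, V2 b hb hbi, F2 a ha b hb hai hbi]
      exact hs.val a ha b hb
    · rw [Vi, Vj, F3]
      intro x y z
      exact G.d2 z x y
    · rw [Vi, Vj, F4]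
      intro x y z
      exact (G.d2 z y x).symm
  · -- cong
    intro a ha b hb c hc hra hrb hab
    by_cases hab' : a = b
    · rw [hab']
    by_cases haj : a = j
    · subst haj
      by_cases hbi : b = i
      · subst hbi
        rw [Vi] at hrb
        rw [Vj] at hra
        rw [F4] at hab
        by_cases hcj : c = a
        · rw [hcj, hrefl a ha, F3, hab]
        by_cases hci : c = b
        · rw [hci, hrefl b hb, F4, hab]
        rw [Cjk c hc hci, Cik c hc hcj]
        exact (G.d3 hab hrb hra c hc hci hcj).symm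
      · by_cases hci : c = i
        · subst hci
          rw [Vj] at hra
          rw [V2 b hb hbi] at hrb
          rw [Cjk b hb hbi] at hab
          rw [F4, Cki b hb (fun h => hab' h.symm)]
          exact G.d5 b hb hbi (fun h => hab' h.symm) hra hrb hab
        · rw [Vj] at hra
          rw [V2 b hb hbi] at hrb
          rw [Cjk b hb hbi] at hab
          rw [Cjk c hc hci, F2 b hb c hc hbi hci]
          exact hs.cong a ha b hb c hc hra hrb hab
    · by_cases hbj : b = j
      · subst hbj
        by_cases hai : a = i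
        · subst hai
          rw [Vi] at hra
          rw [Vj] at hrb
          rw [F3] at hab
          by_cases hcj : c = b
          · rw [hcj, hrefl b hb, F3, hab]
          by_cases hci : c = a
          · rw [hci, hrefl a ha, F4, hab]
          rw [Cjk c hc hci, Cik c hc hcj]
          exact G.d3 hab hra hrb c hc hci hcj
        · by_cases hci : c = i
          · subst hci
            rw [Vj] at hrb
            rw [V2 a ha hai] at hra
            rw [Ckj a ha hai] at hab
            rw [F4, Cki a ha haj]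
            exact (G.d5 a ha hai haj hrb hra hab).symm
          · rw [Vj] at hrb
            rw [V2 a ha hai] at hra
            rw [F2 a ha b hb hai hij.symm] at hab
            rw [Cjk c hc hci, F2 a ha c hc hai hci]
            exact hs.cong a ha b hb c hc hra hrb hab
      · -- a, b ≠ j
        by_cases hcj : c = j
        · subst hcj
          rw [V1 a ha haj] at hra
          rw [V1 b hb hbj] at hrb
          rw [F1 a ha b hb haj hbj] at hab
          by_cases hai : a = i
          · subst hai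
            rw [F3, Ckj b hb (fun h => hab' h.symm)]
            exact G.d4 b hb (fun h => hab' h.symm) hbj hra hrb hab
          · by_cases hbi : b = i
            · subst hbi
              rw [F3, Ckj a ha hai]
              rw [ht.symm a ha b hb] at hab
              exact (G.d4 a ha hai haj hrb hra hab).symm
            · rw [F2 a ha c hc hai hij.symm, F2 b hb c hc hbi hij.symm]
              rw [← V1 a ha haj, V2 a ha hai] at hra
              rw [← V1 b hb hbj, V2 b hb hbi] at hrb
              rw [← F1 a ha b hb haj hbj, F2 a ha b hb hai hbi] at hab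
              exact hs.cong a ha b hb c hc hra hrb hab
        · rw [V1 a ha haj] at hra
          rw [V1 b hb hbj] at hrb
          rw [F1 a ha b hb haj hbj] at hab
          rw [F1 a ha c hc haj hcj, F1 b hb c hc hbj hcj]
          exact ht.cong a ha b hb c hc hra hrb hab
  · -- tri
    intro a ha b hb c hc h3 h4
    by_cases hab : a = b
    · rw [hab]; exact hrefl b hb
    by_cases hac : a = c
    · rw [h3, h4, hac]; exact hrefl c hc
    by_cases hbc : b = c
    · rw [h3, hbc]; exact hrefl c hc
    -- all equal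
    have key : ∀ k < m, k ≠ i → k ≠ j → δ = t.c i k → t.c i k = s.c j k → δ = 0 := G.d6
    by_cases hj3 : a ≠ j ∧ b ≠ j ∧ c ≠ j
    · rw [F1 a ha b hb hj3.1 hj3.2.1, F1 b hb c hc hj3.2.1 hj3.2.2] at h3
      rw [F1 b hb c hc hj3.2.1 hj3.2.2, F1 a ha c hc hj3.1 hj3.2.2] at h4
      rw [F1 a ha b hb hj3.1 hj3.2.1]
      exact ht.tri a ha b hb c hc h3 h4
    by_cases hi3 : a ≠ i ∧ b ≠ i ∧ c ≠ i
    · rw [F2 a ha b hb hi3.1 hi3.2.1, F2 b hb c hc hi3.2.1 hi3.2.2] at h3
      rw [F2 b hb c hc hi3.2.1 hi3.2.2, F2 a ha c hc hi3.1 hi3.2.2] at h4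
      rw [F2 a ha b hb hi3.1 hi3.2.1]
      exact hs.tri a ha b hb c hc h3 h4
    -- both occur
    have h5 : s'.c a b = s'.c a c := h3.trans h4
    by_cases haj : a = j
    · subst haj
      by_cases hbi : b = i
      · subst hbi
        rw [F4] at h3 h5 ⊢
        rw [Cik c hc (fun h => hac h.symm)] at h3
        rw [Cjk c hc (fun h => hbc h.symm)] at h5
        exact key c hc (fun h => hbc h.symm) (fun h => hac h.symm) h3 (h3.symm.trans h5)
      · have hci : c = i := by
          by_contra hci
          exact hi3 ⟨hij.symm, hbi, hci⟩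
        subst hci
        rw [Cjk b hb hbi] at h3 h5 ⊢
        rw [Cki b hb (fun h => hab h.symm)] at h3
        rw [F4] at h5
        rw [h5]
        exact key b hb hbi (fun h => hab h.symm) (h5.symm.trans h3) h3.symm
    · by_cases hbj : b = j
      · subst hbj
        by_cases hai : a = i
        · subst hai
          rw [F3] at h3 h5 ⊢
          rw [Cjk c hc (fun h => hac h.symm)] at h3
          rw [Cik c hc (fun h => hbc h.symm)] at h5
          exact key c hc (fun h => hac h.symm) (fun h => hbc h.symm) h5 (h5.symm.trans h3)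
        · have hci : c = i := by
            by_contra hci
            exact hi3 ⟨hai, hij.symm, hci⟩
          subst hci
          rw [Ckj a ha hai] at h3 h5 ⊢
          rw [F4] at h3
          rw [Cki a ha hab] at h5
          rw [h3]
          exact key a ha hai hab (h3.symm.trans h5) h5.symm
      · have hcj : c = j := by
          by_contra hcj
          exact hj3 ⟨haj, hbj, hcj⟩
        subst hcj
        by_cases hai : a = i
        · subst hai
          rw [Cik b hb hbj] at h3 h5 ⊢
          rw [Ckj b hb (fun h => hab h.symm)] at h3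
          rw [F3] at h5
          rw [h5]
          exact key b hb (fun h => hab h.symm) hbj h5.symm h3
        · have hbi : b = i := by
            by_contra hbi
            exact hi3 ⟨hai, hbi, hij.symm⟩
          subst hbi
          rw [Cki a ha hac] at h3 h5 ⊢
          rw [F3] at h3
          rw [Ckj a ha hab] at h5
          rw [h3]
          exact key a ha hab hac h3.symm h5
  · -- Agr m j t s'
    exact ⟨fun a ha haj => (V1 a ha haj).symm,
      fun a ha b hb haj hbj => (F1 a ha b hb haj hbj).symm⟩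
  · exact ⟨fun a ha hai => V2 a ha hai, fun a ha b hb hai hbi => F2 a ha b hb hai hbi⟩

/-! ### Independence -/

theorem indep {m x : ℕ} (hx : x < m) (φ : Fml) : ∀ s t : St, ¬ φ.Free x → Vlt m φ → Ok m s →
    Ok m t → Agr m x s t → (Tru m φ s ↔ Tru m φ t) := by
  induction φ with
  | bot => intro s t _ _ _ _ _; exact Iff.rfl
  | eq u w =>
    intro s t hf hv _ _ h
    have e1 : u ≠ x := fun e => hf (Or.inl e.symm)
    have e2 : w ≠ x := fun e => hf (Or.inr e.symm)
    exact eqs_congr (h.1 u hv.1 e1) (h.1 w hv.2 e2) (h.2 u hv.1 w hv.2 e1 e2)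
  | zero u =>
    intro s t hf hv _ _ h
    have e1 : u ≠ x := fun e => hf e.symm
    show s.v u = _ ↔ t.v u = _
    rw [h.1 u hv e1]
  | succ u w =>
    intro s t hf hv _ _ h
    have e1 : u ≠ x := fun e => hf (Or.inl e.symm)
    have e2 : w ≠ x := fun e => hf (Or.inr e.symm)
    exact succ_congr (h.1 u hv.1 e1) (h.1 w hv.2 e2) (h.2 u hv.1 w hv.2 e1 e2)
  | add u w z =>
    intro s t hf hv _ _ h
    have e1 : u ≠ x := fun e => hf (Or.inl e.symm)
    have e2 : w ≠ x := fun e => hf (Or.inr (Or.inl e.symm))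
    have e3 : z ≠ x := fun e => hf (Or.inr (Or.inr e.symm))
    exact add_congr (h.1 u hv.1 e1) (h.1 w hv.2.1 e2) (h.1 z hv.2.2 e3)
      (h.2 u hv.1 z hv.2.2 e1 e3) (h.2 w hv.2.1 z hv.2.2 e2 e3)
  | mul u w z =>
    intro s t hf hv _ _ h
    have e1 : u ≠ x := fun e => hf (Or.inl e.symm)
    have e2 : w ≠ x := fun e => hf (Or.inr (Or.inl e.symm))
    have e3 : z ≠ x := fun e => hf (Or.inr (Or.inr e.symm))
    exact mul_congr (h.1 u hv.1 e1) (h.1 w hv.2.1 e2) (h.1 z hv.2.2 e3)
      (h.2 u hv.1 z hv.2.2 e1 e3) (h.2 w hv.2.1 z hv.2.2 e2 e3)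
  | op i a b c d =>
    intro s t hf hv _ _ h
    have e1 : a ≠ x := fun e => hf (Or.inl e.symm)
    have e2 : b ≠ x := fun e => hf (Or.inr (Or.inl e.symm))
    have e3 : c ≠ x := fun e => hf (Or.inr (Or.inr (Or.inl e.symm)))
    exact op_congr (h.1 a hv.1 e1) (h.1 b hv.2.1 e2) (h.1 c hv.2.2.1 e3)
      (h.2 a hv.1 b hv.2.1 e1 e2)
  | imp φ ψ ih1 ih2 =>
    intro s t hf hv hs ht h
    show (Tru m φ s → Tru m ψ s) ↔ (Tru m φ t → Tru m ψ t)
    rw [ih1 s t (fun e => hf (Or.inl e)) hv.1 hs ht h,
      ih2 s t (fun e => hf (Or.inr e)) hv.2 hs ht h]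
  | all y ψ ih =>
    intro s t hf hv hs ht h
    show (∀ r, Ok m r → Agr m y r s → Tru m ψ r) ↔ (∀ r, Ok m r → Agr m y r t → Tru m ψ r)
    by_cases hyx : y = x
    · subst hyx
      exact ⟨fun H r hr hrt => H r hr (agr_trans hrt (agr_symm h)),
        fun H r hr hrs => H r hr (agr_trans hrs h)⟩
    · have hf' : ¬ ψ.Free x := fun e => hf ⟨fun e' => hyx e'.symm, e⟩
      constructor
      · intro H r hr hrt
        obtain ⟨s', hs', h1, h2⟩ := comm hr hs hv.1 hx hyx hrt (agr_symm h)
        exact (ih r s' hf' hv.2 hr hs' h1).2 (H s' hs' h2)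
      · intro H r hr hrs
        obtain ⟨s', hs', h1, h2⟩ := comm hr ht hv.1 hx hyx hrs h
        exact (ih r s' hf' hv.2 hr hs' h1).2 (H s' hs' h2)

/-! ### Substitution -/

/-- the value of `y` is given to `x` -/
def cp (x y : ℕ) (s : St) : St := ⟨fun i => s.v (ren x y i), fun i j => s.c (ren x y i) (ren x y j)⟩

theorem ren_lt {m x y i : ℕ} (hy : y < m) (hi : i < m) : ren x y i < m := by
  unfold ren; split_ifs <;> assumption

theorem ren_ne {x y i : ℕ} (h : i ≠ x) : ren x y i = i := by
  unfold ren; rw [if_neg h]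

theorem ren_same (x y : ℕ) : ren x y x = y := by
  unfold ren; rw [if_pos rfl]

theorem ren_self (x i : ℕ) : ren x x i = i := by
  unfold ren; split_ifs with h
  · exact h.symm
  · rfl

theorem cp_self (x : ℕ) (s : St) : cp x x s = s := by
  unfold cp
  simp only [ren_self]

theorem ok_cp {m x y : ℕ} (hy : y < m) {s : St} (hs : Ok m s) : Ok m (cp x y s) :=
  ⟨fun i hi j hj => hs.norm _ (ren_lt hy hi) _ (ren_lt hy hj),
    fun i hi => hs.refl _ (ren_lt hy hi),
    fun i hi j hj => hs.symm _ (ren_lt hy hi) _ (ren_lt hy hj),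
    fun i hi j hj => hs.le _ (ren_lt hy hi) _ (ren_lt hy hj),
    fun i hi j hj => hs.val _ (ren_lt hy hi) _ (ren_lt hy hj),
    fun i hi j hj k hk => hs.cong _ (ren_lt hy hi) _ (ren_lt hy hj) _ (ren_lt hy hk),
    fun i hi j hj k hk => hs.tri _ (ren_lt hy hi) _ (ren_lt hy hj) _ (ren_lt hy hk)⟩

theorem agr_cp (m x y : ℕ) (s : St) : Agr m x s (cp x y s) :=
  ⟨fun i _ hx => by simp only [cp, ren_ne hx], fun i _ j _ hi hj => by
    simp only [cp, ren_ne hi, ren_ne hj]⟩

theorem subst_self (x : ℕ) (φ : Fml) : φ.subst x x = φ := by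
  induction φ with
  | bot => rfl
  | eq u w => simp only [Fm.subst, ren_self]
  | zero u => simp only [Fm.subst, ren_self]
  | succ u w => simp only [Fm.subst, ren_self]
  | add u w z => simp only [Fm.subst, ren_self]
  | mul u w z => simp only [Fm.subst, ren_self]
  | op i a b c d => simp only [Fm.subst, ren_self]
  | imp φ ψ ih1 ih2 => simp only [Fm.subst, ih1, ih2]
  | all u φ ih => simp only [Fm.subst, ih, ite_self]

theorem subst_of_not_free (x y : ℕ) (φ : Fml) : ¬ φ.Free x → φ.subst x y = φ := by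
  induction φ with
  | bot => intro _; rfl
  | eq u w =>
    intro h
    simp only [Fm.subst, ren_ne (fun e => h (Or.inl e.symm) : u ≠ x),
      ren_ne (fun e => h (Or.inr e.symm) : w ≠ x)]
  | zero u =>
    intro h
    simp only [Fm.subst, ren_ne (fun e => h e.symm : u ≠ x)]
  | succ u w =>
    intro h
    simp only [Fm.subst, ren_ne (fun e => h (Or.inl e.symm) : u ≠ x),
      ren_ne (fun e => h (Or.inr e.symm) : w ≠ x)]
  | add u w z =>
    intro h
    simp only [Fm.subst, ren_ne (fun e => h (Or.inl e.symm) : u ≠ x),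
      ren_ne (fun e => h (Or.inr (Or.inl e.symm)) : w ≠ x),
      ren_ne (fun e => h (Or.inr (Or.inr e.symm)) : z ≠ x)]
  | mul u w z =>
    intro h
    simp only [Fm.subst, ren_ne (fun e => h (Or.inl e.symm) : u ≠ x),
      ren_ne (fun e => h (Or.inr (Or.inl e.symm)) : w ≠ x),
      ren_ne (fun e => h (Or.inr (Or.inr e.symm)) : z ≠ x)]
  | op i a b c d =>
    intro h
    simp only [Fm.subst, ren_ne (fun e => h (Or.inl e.symm) : a ≠ x),
      ren_ne (fun e => h (Or.inr (Or.inl e.symm)) : b ≠ x),
      ren_ne (fun e => h (Or.inr (Or.inr (Or.inl e.symm))) : c ≠ x),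
      ren_ne (fun e => h (Or.inr (Or.inr (Or.inr e.symm))) : d ≠ x)]
  | imp φ ψ ih1 ih2 =>
    intro h
    simp only [Fm.subst, ih1 (fun e => h (Or.inl e)), ih2 (fun e => h (Or.inr e))]
  | all u φ ih =>
    intro h
    by_cases hu : u = x
    · simp only [Fm.subst, if_pos hu]
    · simp only [Fm.subst, if_neg hu, ih (fun e => h ⟨fun e' => hu e'.symm, e⟩)]

/-- if `x` occurs free then `y` occurs after the substitution -/
theorem lt_of_subst {m x y : ℕ} (φ : Fml) : φ.Free x → Vlt m (φ.subst x y) → y < m := by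
  induction φ with
  | bot => intro h; exact absurd h id
  | eq u w =>
    rintro (h | h) hv
    · subst h; have := hv.1; rwa [ren_same] at this
    · subst h; have := hv.2; rwa [ren_same] at this
  | zero u =>
    intro h hv
    have h' : x = u := h
    subst h'
    have : ren x y x < m := hv
    rwa [ren_same] at this
  | succ u w =>
    rintro (h | h) hv
    · subst h; have := hv.1; rwa [ren_same] at this
    · subst h; have := hv.2; rwa [ren_same] at this
  | add u w z =>
    rintro (h | h | h) hv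
    · subst h; have := hv.1; rwa [ren_same] at this
    · subst h; have := hv.2.1; rwa [ren_same] at this
    · subst h; have := hv.2.2; rwa [ren_same] at this
  | mul u w z =>
    rintro (h | h | h) hv
    · subst h; have := hv.1; rwa [ren_same] at this
    · subst h; have := hv.2.1; rwa [ren_same] at this
    · subst h; have := hv.2.2; rwa [ren_same] at this
  | op i a b c d =>
    rintro (h | h | h | h) hv
    · subst h; have := hv.1; rwa [ren_same] at this
    · subst h; have := hv.2.1; rwa [ren_same] at this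
    · subst h; have := hv.2.2.1; rwa [ren_same] at this
    · subst h; have := hv.2.2.2; rwa [ren_same] at this
  | imp φ ψ ih1 ih2 =>
    rintro (h | h) hv
    · exact ih1 h hv.1
    · exact ih2 h hv.2
  | all u φ ih =>
    rintro ⟨h1, h2⟩ hv
    have hu : u ≠ x := fun e => h1 e.symm
    simp only [Fm.subst, if_neg hu] at hv
    exact ih h2 hv.2

theorem tru_subst {m x y : ℕ} (hx : x < m) (hy : y < m) (φ : Fml) : ∀ s : St, φ.FreeFor y x →
    Vlt m φ → Ok m s → (Tru m (φ.subst x y) s ↔ Tru m φ (cp x y s)) := by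
  by_cases hxy : y = x
  · subst hxy
    intro s _ _ _
    rw [subst_self, cp_self]
  induction φ with
  | bot => intro s _ _ _; exact Iff.rfl
  | eq u w => intro s _ _ _; exact Iff.rfl
  | zero u => intro s _ _ _; exact Iff.rfl
  | succ u w => intro s _ _ _; exact Iff.rfl
  | add u w z => intro s _ _ _; exact Iff.rfl
  | mul u w z => intro s _ _ _; exact Iff.rfl
  | op i a b c d => intro s _ _ _; exact op_congr rfl rfl rfl rfl
  | imp φ ψ ih1 ih2 =>
    intro s hf hv hs
    show (Tru m (φ.subst x y) s → Tru m (ψ.subst x y) s) ↔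
      (Tru m φ (cp x y s) → Tru m ψ (cp x y s))
    rw [ih1 s hf.1 hv.1 hs, ih2 s hf.2 hv.2 hs]
  | all u φ ih =>
    intro s hf hv hs
    by_cases hux : u = x
    · subst hux
      have e : (Fm.all u φ).subst u y = Fm.all u φ := by simp only [Fm.subst, if_pos]
      rw [e]
      show (∀ r, Ok m r → Agr m u r s → Tru m φ r) ↔
        (∀ r, Ok m r → Agr m u r (cp u y s) → Tru m φ r)
      exact ⟨fun H r hr h => H r hr (agr_trans h (agr_symm (agr_cp m u y s))),
        fun H r hr h => H r hr (agr_trans h (agr_cp m u y s))⟩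
    · by_cases hfx : φ.Free x
      · have huy : u ≠ y ∧ φ.FreeFor y x := by
          rcases hf with h | h | h
          · exact absurd h hux
          · exact absurd hfx h
          · exact h
        have e : (Fm.all u φ).subst x y = Fm.all u (φ.subst x y) := by
          simp only [Fm.subst, if_neg hux]
        rw [e]
        show (∀ r, Ok m r → Agr m u r s → Tru m (φ.subst x y) r) ↔
          (∀ r, Ok m r → Agr m u r (cp x y s) → Tru m φ r)
        constructor
        · intro H t' ht' h'
          obtain ⟨t, ht, h1, h2⟩ := comm ht' hs hv.1 hx hux h' (agr_symm (agr_cp m x y s))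
          have h3 := (ih t huy.2 hv.2 ht).1 (H t ht h2)
          -- the values of `x` and `y` in `t'`
          have hyv : t'.v y = s.v y := by
            rw [h'.1 y hy (fun e => huy.1 e.symm)]
            simp only [cp, ren_ne hxy]
          have hxv : t'.v x = s.v y := by
            rw [h'.1 x hx (fun e => hux e.symm)]
            simp only [cp, ren_same]
          have hxyc : t'.c x y = 0 := by
            rw [h'.2 x hx y hy (fun e => hux e.symm) (fun e => huy.1 e.symm)]
            simp only [cp, ren_same, ren_ne hxy]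
            exact hs.refl y hy
          have hrow : ∀ k < m, t'.c x k = t'.c y k := by
            intro k hk
            rcases left_or_right (t'.v x) with hl | hr
            · rw [ht'.norm x hx k hk (Or.inl hl)]
              have : (t'.v y).isLeft = true := by rw [hyv, ← hxv]; exact hl
              rw [ht'.norm y hy k hk (Or.inl this)]
            · have hr' : (t'.v y).isRight = true := by rw [hyv, ← hxv]; exact hr
              exact ht'.cong x hx y hy k hk hr hr' hxyc
          have hsame : Same m (cp x y t) t' := by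
            constructor
            · intro k hk
              by_cases hkx : k = x
              · subst hkx
                show t.v (ren k y k) = t'.v k
                rw [ren_same, ← h1.1 y hy hxy, hyv, hxv]
              · show t.v (ren x y k) = t'.v k
                rw [ren_ne hkx]
                exact (h1.1 k hk hkx).symm
            · intro k hk l hl
              show t.c (ren x y k) (ren x y l) = t'.c k l
              by_cases hkx : k = x
              · by_cases hlx : l = x
                · rw [hkx, hlx, ren_same, ht.refl y hy, ht'.refl x hx]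
                · rw [hkx, ren_same, ren_ne hlx, ← h1.2 y hy l hl hxy hlx, hrow l hl]
              · by_cases hlx : l = x
                · rw [hlx, ren_same, ren_ne hkx, ← h1.2 k hk y hy hkx hxy,
                    ht'.symm k hk y hy, ht'.symm k hk x hx, hrow k hk]
                · rw [ren_ne hkx, ren_ne hlx]
                  exact (h1.2 k hk l hl hkx hlx).symm
          exact (tru_same φ _ _ hsame hv.2).1 h3
        · intro H t ht h'
          refine (ih t huy.2 hv.2 ht).2 (H _ (ok_cp hy ht) ?_)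
          have hne : ∀ k, k ≠ u → ren x y k ≠ u := by
            intro k hk
            unfold ren
            split_ifs
            · exact fun e => huy.1 e.symm
            · exact hk
          exact ⟨fun k hk hku => h'.1 _ (ren_lt hy hk) (hne k hku),
            fun k hk l hl hku hlu => h'.2 _ (ren_lt hy hk) _ (ren_lt hy hl) (hne k hku) (hne l hlu)⟩
      · have hfx' : ¬ (Fm.all u φ).Free x := fun h => hfx h.2
        rw [subst_of_not_free x y _ hfx']
        exact indep hx _ s (cp x y s) hfx' hv hs (ok_cp hy hs) (agr_cp m x y s)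

/-! ### Logical axioms -/

theorem sw_v {s : St} {x y u u' : ℕ} (h : Eqs s x y) (hu : Sw x y u u') : s.v u = s.v u' := by
  rcases hu with rfl | ⟨rfl, rfl⟩
  · rfl
  · exact h.1

theorem eqs_row {m x y : ℕ} {s : St} (hs : Ok m s) (hx : x < m) (hy : y < m) (h : Eqs s x y)
    (k : ℕ) (hk : k < m) : s.c x k = s.c y k := by
  rcases left_or_right (s.v x) with hl | hr
  · rw [hs.norm x hx k hk (Or.inl hl)]
    have : (s.v y).isLeft = true := by rw [← h.1]; exact hl
    rw [hs.norm y hy k hk (Or.inl this)]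
  · have hr' : (s.v y).isRight = true := by rw [← h.1]; exact hr
    exact hs.cong x hx y hy k hk hr hr' h.2

theorem sw_c {m x y u u' w w' : ℕ} {s : St} (hs : Ok m s) (hx : x < m) (hy : y < m)
    (h : Eqs s x y) (hu : Sw x y u u') (hw : Sw x y w w') (hul : u < m) (hwl : w < m) :
    s.c u w = s.c u' w' := by
  have e1 : s.c u w = s.c u' w := by
    rcases hu with rfl | ⟨rfl, rfl⟩
    · rfl
    · exact eqs_row hs hx hy h w hwl
  have hu'l : u' < m := by
    rcases hu with rfl | ⟨rfl, rfl⟩
    · exact hul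
    · exact hy
  rw [e1]
  rcases hw with rfl | ⟨rfl, rfl⟩
  · rfl
  · rw [hs.symm u' hu'l w hwl, hs.symm u' hu'l _ hy]
    exact eqs_row hs hx hy h u' hu'l

theorem tru_log {m : ℕ} {φ : Fml} (h : LogK φ) (hv : Vlt m φ) : Tr1 m φ := by
  intro s hs
  cases h with
  | k φ ψ => exact fun a _ => a
  | s φ ψ χ => exact fun a b c => a c (b c)
  | dn φ => exact fun a => Classical.byContradiction fun b => a b
  | inst x y φ hf =>
    intro H
    have H' : ∀ r, Ok m r → Agr m x r s → Tru m φ r := H
    by_cases hfx : φ.Free x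
    · have hy : y < m := lt_of_subst φ hfx hv.2
      exact (tru_subst hv.1.1 hy φ s hf hv.1.2 hs).2
        (H' _ (ok_cp hy hs) (agr_symm (agr_cp m x y s)))
    · rw [subst_of_not_free x y φ hfx]
      exact H' s hs (agr_refl m x s)
  | dist x φ ψ hf =>
    intro H a t ht hts
    have H' : ∀ r, Ok m r → Agr m x r s → (Tru m φ r → Tru m ψ r) := H
    exact H' t ht hts ((indep hv.1.1 φ t s hf hv.2.1 ht hs hts).2 a)
  | refl x => exact ⟨rfl, hs.refl x hv.1⟩
  | repl x y φ ψ hr =>
    intro (he : Eqs s x y)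
    have hx : x < m := hv.1.1
    have hy : y < m := hv.1.2
    have hφ : Vlt m φ := hv.2.1
    show Tru m φ s → Tru m ψ s
    cases hr with
    | eq h1 h2 =>
      exact (eqs_congr (sw_v he h1) (sw_v he h2) (sw_c hs hx hy he h1 h2 hφ.1 hφ.2)).1
    | zero h1 =>
      intro h
      have h' : s.v _ = Sum.inl 0 := h
      rw [sw_v he h1] at h'
      exact h'
    | succ h1 h2 =>
      exact (succ_congr (sw_v he h1) (sw_v he h2) (sw_c hs hx hy he h1 h2 hφ.1 hφ.2)).1
    | add h1 h2 h3 =>
      exact (add_congr (sw_v he h1) (sw_v he h2) (sw_v he h3)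
        (sw_c hs hx hy he h1 h3 hφ.1 hφ.2.2) (sw_c hs hx hy he h2 h3 hφ.2.1 hφ.2.2)).1
    | mul h1 h2 h3 =>
      exact (mul_congr (sw_v he h1) (sw_v he h2) (sw_v he h3)
        (sw_c hs hx hy he h1 h3 hφ.1 hφ.2.2) (sw_c hs hx hy he h2 h3 hφ.2.1 hφ.2.2)).1
    | op h1 h2 h3 h4 =>
      exact (op_congr (sw_v he h1) (sw_v he h2) (sw_v he h3)
        (sw_c hs hx hy he h1 h2 hφ.1 hφ.2.1)).1

/-- Soundness of the calculus. -/
theorem soundS : SoundS := by
  intro m Γ π
  induction π with
  | nil => intro _ _ _ φ hφ; exact absurd hφ (by simp)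
  | cons ψ π ih =>
    rintro ⟨hp, hstep⟩ hv hΓ φ hφ
    have hv' : ∀ φ ∈ π, Vlt m φ := fun φ h => hv φ (List.mem_cons_of_mem _ h)
    have ih' := ih hp hv' hΓ
    rcases List.mem_cons.1 hφ with rfl | hφ
    · have hvφ : Vlt m φ := hv φ (List.mem_cons_self)
      rcases hstep with h | h | ⟨χ, hχ, himp⟩ | ⟨χ, hχ, x, rfl⟩
      · exact hΓ φ h hvφ
      · exact tru_log h hvφ
      · intro s hs
        exact ih' _ himp s hs (ih' χ hχ s hs)
      · intro s _ t ht _
        exact ih' χ hχ t ht
    · exact ih' φ hφ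

end Pool.Agent.TH921.J1544
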