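import Pool.Agent.TH636.BC.Cd

/-!
# Gödel numbers of formulas: the strings are computable, the set is decidable, bounds
-/

set_option autoImplicit false

namespace Pool.Agent.TH921.J1546

open Pool.Agent.TH672 Pool.Agent.TH636.BC

/-! ### Course-of-values recursion -/

section cov

variable {σ : Type}

/-- the list of the first `n` values -/
def Ls (g : List σ → σ) : ℕ → List σ
  | 0 => []
  | n + 1 => Ls g n ++ [g (Ls g n)]

/-- the function given by course-of-values recursion -/
def cv (g : List σ → σ) (n : ℕ) : σ := g (Ls g n)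

theorem ls_length (g : List σ → σ) (n : ℕ) : (Ls g n).length = n := by
  induction n with
  | zero => rfl
  | succ n ih => simp [Ls, ih]

theorem ls_getD (g : List σ → σ) (d : σ) (n k : ℕ) (h : k < n) : (Ls g n).getD k d = cv g k := by
  induction n with
  | zero => omega
  | succ n ih =>
    show (Ls g n ++ [g (Ls g n)]).getD k d = cv g k
    rcases Nat.lt_succ_iff_lt_or_eq.1 h with h | h
    · rw [List.getD_append _ _ _ _ (by rw [ls_length]; exact h)]
      exact ih h
    · subst h
      rw [List.getD_append_right _ _ _ _ (by rw [ls_length]), ls_length, Nat.sub_self]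
      rfl

theorem primrec_ls [Primcodable σ] {g : List σ → σ} (hg : Primrec g) : Primrec (Ls g) := by
  have h : Primrec₂ (fun (_ : ℕ) (l : List σ) => l ++ [g l]) :=
    Primrec.list_concat.comp Primrec.snd (hg.comp Primrec.snd)
  refine (Primrec.nat_rec₁ [] h).of_eq fun n => ?_
  induction n with
  | zero => rfl
  | succ n ih => simp only [Ls, ← ih]

theorem primrec_cv [Primcodable σ] {g : List σ → σ} (hg : Primrec g) : Primrec (cv g) :=
  hg.comp (primrec_ls hg)

end cov

/-! ### The parts of a number -/

/-- the first part -/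
def p1 (n : ℕ) : ℕ := n.unpair.1

/-- the second part -/
def p2 (n : ℕ) : ℕ := n.unpair.2

theorem prim_p1 : Primrec p1 := Primrec.fst.comp Primrec.unpair

theorem prim_p2 : Primrec p2 := Primrec.snd.comp Primrec.unpair

@[simp] theorem p1_pair (a b : ℕ) : p1 (Nat.pair a b) = a := by simp [p1]

@[simp] theorem p2_pair (a b : ℕ) : p2 (Nat.pair a b) = b := by simp [p2]

theorem pair_p (n : ℕ) : Nat.pair (p1 n) (p2 n) = n := Nat.pair_unpair n

theorem lt_pair {a b : ℕ} (ha : 1 ≤ a) : b < Nat.pair a b :=
  (Nat.right_le_pair 0 b).trans_lt (Nat.pair_lt_pair_left b ha)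

theorem prim_varStr : Primrec varStr := by
  have h : Primrec (fun x : ℕ => (Nat.rec [] (fun _ l => true :: l) x : List Bool)) :=
    Primrec.nat_rec₁ [] ((Primrec.list_cons.comp (Primrec.const true) Primrec.snd).to₂)
  refine (Primrec.list_concat.comp h (Primrec.const false)).of_eq fun x => ?_
  unfold varStr
  congr 1
  induction x with
  | zero => rfl
  | succ x ih => rw [List.replicate_succ, ← ih]

/-! ### Strings -/

/-- the step of the recursion for the strings -/
def gs (l : List (List Bool)) : List Bool :=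
  let n := l.length
  let t := p1 n
  let r := p2 n
  if t = 1 then [false, false, false, false]
  else if t = 2 then [false, false, false, true] ++ varStr (p1 r) ++ varStr (p2 r)
  else if t = 3 then [false, false, true, false] ++ varStr r
  else if t = 4 then [false, false, true, true] ++ varStr (p1 r) ++ varStr (p2 r)
  else if t = 5 then [false, true, false, false] ++ varStr (p1 r) ++ varStr (p1 (p2 r)) ++
    varStr (p2 (p2 r))
  else if t = 6 then [false, true, false, true] ++ varStr (p1 r) ++ varStr (p1 (p2 r)) ++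
    varStr (p2 (p2 r))
  else if t = 7 then [false, true, true, false] ++ varStr (p1 r) ++ varStr (p1 (p2 r)) ++
    varStr (p1 (p2 (p2 r))) ++ varStr (p1 (p2 (p2 (p2 r)))) ++ varStr (p2 (p2 (p2 (p2 r))))
  else if t = 8 then [false, true, true, true] ++ l.getD (p1 r) [] ++ l.getD (p2 r) []
  else if t = 9 then [true, false, false, false] ++ varStr (p1 r) ++ l.getD (p2 r) []
  else []

theorem prim_gs : Primrec gs := by
  have hn : Primrec (fun l : List (List Bool) => l.length) := Primrec.list_length
  have ht : Primrec (fun l : List (List Bool) => p1 l.length) := prim_p1.comp hn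
  have hr : Primrec (fun l : List (List Bool) => p2 l.length) := prim_p2.comp hn
  have ha := prim_p1.comp hr
  have hb := prim_p2.comp hr
  have hba := prim_p1.comp hb
  have hbb := prim_p2.comp hb
  have hbba := prim_p1.comp hbb
  have hbbb := prim_p2.comp hbb
  have hbbba := prim_p1.comp hbbb
  have hbbbb := prim_p2.comp hbbb
  have hc : ∀ k : ℕ, PrimrecPred (fun l : List (List Bool) => p1 l.length = k) :=
    fun k => Primrec.eq.comp ht (Primrec.const k)
  have hk : ∀ w : List Bool, Primrec (fun _ : List (List Bool) => w) := fun w => Primrec.const w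
  have app : ∀ {f g : List (List Bool) → List Bool}, Primrec f → Primrec g →
      Primrec (fun l => f l ++ g l) := fun hf hg => Primrec.list_append.comp hf hg
  have vs : ∀ {f : List (List Bool) → ℕ}, Primrec f → Primrec (fun l => varStr (f l)) :=
    fun hf => prim_varStr.comp hf
  have gd : ∀ {f : List (List Bool) → ℕ}, Primrec f →
      Primrec (fun l : List (List Bool) => l.getD (f l) []) :=
    fun hf => (Primrec.list_getD []).comp Primrec.id hf
  unfold gs
  refine Primrec.ite (hc 1) (hk _) ?_
  refine Primrec.ite (hc 2) (app (app (hk _) (vs ha)) (vs hb)) ?_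
  refine Primrec.ite (hc 3) (app (hk _) (vs hr)) ?_
  refine Primrec.ite (hc 4) (app (app (hk _) (vs ha)) (vs hb)) ?_
  refine Primrec.ite (hc 5) (app (app (app (hk _) (vs ha)) (vs hba)) (vs hbb)) ?_
  refine Primrec.ite (hc 6) (app (app (app (hk _) (vs ha)) (vs hba)) (vs hbb)) ?_
  refine Primrec.ite (hc 7) (app (app (app (app (app (hk _) (vs ha)) (vs hba)) (vs hbba))
    (vs hbbba)) (vs hbbbb)) ?_
  refine Primrec.ite (hc 8) (app (app (hk _) (gd ha)) (gd hb)) ?_
  refine Primrec.ite (hc 9) (app (app (hk _) (vs ha)) (gd hb)) (hk _)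

theorem gs_eq (l : List (List Bool)) (n : ℕ) (h : l.length = n) : gs l =
  if p1 n = 1 then [false, false, false, false]
  else if p1 n = 2 then [false, false, false, true] ++ varStr (p1 (p2 n)) ++ varStr (p2 (p2 n))
  else if p1 n = 3 then [false, false, true, false] ++ varStr (p2 n)
  else if p1 n = 4 then [false, false, true, true] ++ varStr (p1 (p2 n)) ++ varStr (p2 (p2 n))
  else if p1 n = 5 then [false, true, false, false] ++ varStr (p1 (p2 n)) ++
    varStr (p1 (p2 (p2 n))) ++ varStr (p2 (p2 (p2 n)))
  else if p1 n = 6 then [false, true, false, true] ++ varStr (p1 (p2 n)) ++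
    varStr (p1 (p2 (p2 n))) ++ varStr (p2 (p2 (p2 n)))
  else if p1 n = 7 then [false, true, true, false] ++ varStr (p1 (p2 n)) ++
    varStr (p1 (p2 (p2 n))) ++ varStr (p1 (p2 (p2 (p2 n)))) ++
    varStr (p1 (p2 (p2 (p2 (p2 n))))) ++ varStr (p2 (p2 (p2 (p2 (p2 n)))))
  else if p1 n = 8 then [false, true, true, true] ++ l.getD (p1 (p2 n)) [] ++
    l.getD (p2 (p2 n)) []
  else if p1 n = 9 then [true, false, false, false] ++ varStr (p1 (p2 n)) ++
    l.getD (p2 (p2 n)) []
  else [] := by
  subst h
  rfl

theorem gn_imp_left (φ ψ : Fml) : gn φ < Nat.pair 8 (Nat.pair (gn φ) (gn ψ)) :=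
  (Nat.left_le_pair _ _).trans_lt (lt_pair (by norm_num))

theorem gn_imp_right (φ ψ : Fml) : gn ψ < Nat.pair 8 (Nat.pair (gn φ) (gn ψ)) :=
  (Nat.right_le_pair _ _).trans_lt (lt_pair (by norm_num))

theorem gn_all (x : ℕ) (φ : Fml) : gn φ < Nat.pair 9 (Nat.pair x (gn φ)) :=
  (Nat.right_le_pair _ _).trans_lt (lt_pair (by norm_num))

theorem cv_gs (φ : Fml) : cv gs (gn φ) = str φ := by
  induction φ with
  | bot => simp [cv, gs, ls_length, gn, str]
  | eq x y => simp [cv, gs, ls_length, gn, str]
  | zero x => simp [cv, gs, ls_length, gn, str]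
  | succ x y => simp [cv, gs, ls_length, gn, str]
  | add x y z => simp [cv, gs, ls_length, gn, str]
  | mul x y z => simp [cv, gs, ls_length, gn, str]
  | op i a b c d => simp [cv, gs, ls_length, gn, str]
  | imp φ ψ ih1 ih2 =>
    have h1 := ls_getD gs [] _ _ (gn_imp_left φ ψ)
    have h2 := ls_getD gs [] _ _ (gn_imp_right φ ψ)
    rw [ih1] at h1
    rw [ih2] at h2
    show gs (Ls gs (Nat.pair 8 (Nat.pair (gn φ) (gn ψ)))) = _
    rw [gs_eq _ _ (ls_length gs _)]
    simp only [p1_pair, p2_pair, h1, h2]
    simp [str]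
  | all x φ ih =>
    have h1 := ls_getD gs [] _ _ (gn_all x φ)
    rw [ih] at h1
    show gs (Ls gs (Nat.pair 9 (Nat.pair x (gn φ)))) = _
    rw [gs_eq _ _ (ls_length gs _)]
    simp only [p1_pair, p2_pair, h1]
    simp [str]

/-! ### Decidability -/

/-- the step of the recursion for the decidability -/
def gf (l : List Bool) : Bool :=
  let n := l.length
  let t := p1 n
  let r := p2 n
  if t = 1 then decide (r = 0)
  else if t = 8 then l.getD (p1 r) false && l.getD (p2 r) false
  else if t = 9 then l.getD (p2 r) false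
  else decide (2 ≤ t ∧ t ≤ 7)

theorem prim_gf : Primrec gf := by
  have hn : Primrec (fun l : List Bool => l.length) := Primrec.list_length
  have ht : Primrec (fun l : List Bool => p1 l.length) := prim_p1.comp hn
  have hr : Primrec (fun l : List Bool => p2 l.length) := prim_p2.comp hn
  have ha := prim_p1.comp hr
  have hb := prim_p2.comp hr
  have hc : ∀ k : ℕ, PrimrecPred (fun l : List Bool => p1 l.length = k) :=
    fun k => Primrec.eq.comp ht (Primrec.const k)
  have gd : ∀ {f : List Bool → ℕ}, Primrec f →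
      Primrec (fun l : List Bool => l.getD (f l) false) :=
    fun hf => (Primrec.list_getD false).comp Primrec.id hf
  unfold gf
  refine Primrec.ite (hc 1) ?_ ?_
  · have h0 : PrimrecPred (fun l : List Bool => p2 l.length = 0) :=
      Primrec.eq.comp hr (Primrec.const 0)
    exact h0.decide
  refine Primrec.ite (hc 8) (Primrec.and.comp (gd ha) (gd hb)) ?_
  refine Primrec.ite (hc 9) (gd hb) ?_
  have h1 : PrimrecPred (fun l : List Bool => 2 ≤ p1 l.length ∧ p1 l.length ≤ 7) :=
    (Primrec.nat_le.comp (Primrec.const 2) ht).and (Primrec.nat_le.comp ht (Primrec.const 7))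
  exact h1.decide

theorem gf_eq (l : List Bool) (n : ℕ) (h : l.length = n) : gf l =
  if p1 n = 1 then decide (p2 n = 0)
  else if p1 n = 8 then l.getD (p1 (p2 n)) false && l.getD (p2 (p2 n)) false
  else if p1 n = 9 then l.getD (p2 (p2 n)) false
  else decide (2 ≤ p1 n ∧ p1 n ≤ 7) := by
  subst h
  rfl

theorem cv_gf (n : ℕ) : cv gf n = true ↔ ∃ φ, n = gn φ := by
  induction n using Nat.strong_induction_on with
  | _ n ih =>
    have hcv : cv gf n = gf (Ls gf n) := rfl
    rw [hcv, gf_eq _ _ (ls_length gf n)]
    have hn := pair_p n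
    constructor
    · intro h
      by_cases h1 : p1 n = 1
      · rw [if_pos h1, decide_eq_true_eq] at h
        exact ⟨.bot, by rw [← hn, h1, h]; rfl⟩
      rw [if_neg h1] at h
      by_cases h8 : p1 n = 8
      · rw [if_pos h8, Bool.and_eq_true] at h
        have hr : p2 n < n := by
          conv_rhs => rw [← hn, h8]
          exact lt_pair (by norm_num)
        have hr2 := pair_p (p2 n)
        have ha : p1 (p2 n) < n := by
          have := Nat.left_le_pair (p1 (p2 n)) (p2 (p2 n))
          rw [hr2] at this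
          omega
        have hb : p2 (p2 n) < n := by
          have := Nat.right_le_pair (p1 (p2 n)) (p2 (p2 n))
          rw [hr2] at this
          omega
        rw [ls_getD gf false n _ ha, ls_getD gf false n _ hb] at h
        obtain ⟨φ, hφ⟩ := (ih _ ha).1 h.1
        obtain ⟨ψ, hψ⟩ := (ih _ hb).1 h.2
        refine ⟨φ.imp ψ, ?_⟩
        show n = Nat.pair 8 (Nat.pair (gn φ) (gn ψ))
        rw [← hφ, ← hψ, hr2, ← h8, hn]
      rw [if_neg h8] at h
      by_cases h9 : p1 n = 9
      · rw [if_pos h9] at h
        have hr : p2 n < n := by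
          conv_rhs => rw [← hn, h9]
          exact lt_pair (by norm_num)
        have hr2 := pair_p (p2 n)
        have hb : p2 (p2 n) < n := by
          have := Nat.right_le_pair (p1 (p2 n)) (p2 (p2 n))
          rw [hr2] at this
          omega
        rw [ls_getD gf false n _ hb] at h
        obtain ⟨ψ, hψ⟩ := (ih _ hb).1 h
        refine ⟨.all (p1 (p2 n)) ψ, ?_⟩
        show n = Nat.pair 9 (Nat.pair (p1 (p2 n)) (gn ψ))
        rw [← hψ, hr2, ← h9, hn]
      rw [if_neg h9, decide_eq_true_eq] at h
      have e2 := pair_p (p2 n)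
      have e3 := pair_p (p2 (p2 n))
      have e4 := pair_p (p2 (p2 (p2 n)))
      have e5 := pair_p (p2 (p2 (p2 (p2 n))))
      obtain h' | h' | h' | h' | h' | h' : p1 n = 2 ∨ p1 n = 3 ∨ p1 n = 4 ∨ p1 n = 5 ∨ p1 n = 6 ∨
        p1 n = 7 := by omega
      · refine ⟨.eq (p1 (p2 n)) (p2 (p2 n)), ?_⟩
        show n = Nat.pair 2 (Nat.pair (p1 (p2 n)) (p2 (p2 n)))
        rw [e2, ← h', hn]
      · refine ⟨.zero (p2 n), ?_⟩
        show n = Nat.pair 3 (p2 n)
        rw [← h', hn]
      · refine ⟨.succ (p1 (p2 n)) (p2 (p2 n)), ?_⟩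
        show n = Nat.pair 4 (Nat.pair (p1 (p2 n)) (p2 (p2 n)))
        rw [e2, ← h', hn]
      · refine ⟨.add (p1 (p2 n)) (p1 (p2 (p2 n))) (p2 (p2 (p2 n))), ?_⟩
        show n = Nat.pair 5 (Nat.pair (p1 (p2 n)) (Nat.pair (p1 (p2 (p2 n))) (p2 (p2 (p2 n)))))
        rw [e3, e2, ← h', hn]
      · refine ⟨.mul (p1 (p2 n)) (p1 (p2 (p2 n))) (p2 (p2 (p2 n))), ?_⟩
        show n = Nat.pair 6 (Nat.pair (p1 (p2 n)) (Nat.pair (p1 (p2 (p2 n))) (p2 (p2 (p2 n)))))
        rw [e3, e2, ← h', hn]
      · refine ⟨.op (p1 (p2 n)) (p1 (p2 (p2 n))) (p1 (p2 (p2 (p2 n))))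
          (p1 (p2 (p2 (p2 (p2 n))))) (p2 (p2 (p2 (p2 (p2 n))))), ?_⟩
        show n = Nat.pair 7 (Nat.pair (p1 (p2 n)) (Nat.pair (p1 (p2 (p2 n)))
          (Nat.pair (p1 (p2 (p2 (p2 n)))) (Nat.pair (p1 (p2 (p2 (p2 (p2 n)))))
            (p2 (p2 (p2 (p2 (p2 n)))))))))
        rw [e5, e4, e3, e2, ← h', hn]
    · rintro ⟨φ, rfl⟩
      cases φ with
      | bot => simp [gn]
      | eq x y => simp [gn]
      | zero x => simp [gn]
      | succ x y => simp [gn]
      | add x y z => simp [gn]
      | mul x y z => simp [gn]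
      | op i a b c d => simp [gn]
      | imp φ ψ =>
        have h1 : (Ls gf (gn (φ.imp ψ))).getD (gn φ) false = true := by
          rw [ls_getD gf false (gn (φ.imp ψ)) _ (gn_imp_left φ ψ)]
          exact (ih _ (gn_imp_left φ ψ)).2 ⟨φ, rfl⟩
        have h2 : (Ls gf (gn (φ.imp ψ))).getD (gn ψ) false = true := by
          rw [ls_getD gf false (gn (φ.imp ψ)) _ (gn_imp_right φ ψ)]
          exact (ih _ (gn_imp_right φ ψ)).2 ⟨ψ, rfl⟩
        have e1 : p1 (gn (φ.imp ψ)) = 8 := by simp [gn]
        have e2 : p1 (p2 (gn (φ.imp ψ))) = gn φ := by simp [gn]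
        have e3 : p2 (p2 (gn (φ.imp ψ))) = gn ψ := by simp [gn]
        rw [e1, e2, e3, h1, h2]
        simp
      | all x φ =>
        have h1 : (Ls gf (gn (.all x φ))).getD (gn φ) false = true := by
          rw [ls_getD gf false (gn (.all x φ)) _ (gn_all x φ)]
          exact (ih _ (gn_all x φ)).2 ⟨φ, rfl⟩
        have e1 : p1 (gn (.all x φ)) = 9 := by simp [gn]
        have e3 : p2 (p2 (gn (.all x φ))) = gn φ := by simp [gn]
        rw [e1, e3, h1]
        simp

/-! ### Bounds -/

/-- a bound for pairs -/
def q (n : ℕ) : ℕ := (n + 1) * (n + 1)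

/-- the step of the bound -/
def hh (n : ℕ) : ℕ := q (q (q (q (q (n + 10)))))

/-- the bound -/
def B : ℕ → ℕ
  | 0 => 10
  | n + 1 => hh (B n)

theorem le_q (n : ℕ) : n ≤ q n := by unfold q; nlinarith

theorem q_mono {a b : ℕ} (h : a ≤ b) : q a ≤ q b := by
  unfold q; exact Nat.mul_le_mul (by omega) (by omega)

theorem pair_le {a b M : ℕ} (ha : a ≤ M) (hb : b ≤ M) : Nat.pair a b ≤ q M := by
  have h1 := Nat.pair_lt_max_add_one_sq a b
  have h2 : max a b + 1 ≤ M + 1 := by omega
  have h3 : (max a b + 1) ^ 2 ≤ (M + 1) * (M + 1) := by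
    rw [sq]; exact Nat.mul_le_mul h2 h2
  unfold q
  omega

theorem le_hh (n : ℕ) : n + 10 ≤ hh n := by
  unfold hh
  have h1 := le_q (n + 10)
  have h2 := le_q (q (n + 10))
  have h3 := le_q (q (q (n + 10)))
  have h4 := le_q (q (q (q (n + 10))))
  have h5 := le_q (q (q (q (q (n + 10)))))
  omega

theorem B_mono : Monotone B := monotone_nat_of_le_succ fun n => by
  have := le_hh (B n)
  show B n ≤ hh (B n)
  omega

theorem le_B (n : ℕ) : n ≤ B n := by
  induction n with
  | zero => exact Nat.zero_le _
  | succ n ih =>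
    have := le_hh (B n)
    show n + 1 ≤ hh (B n)
    omega

theorem prim_q : Primrec q :=
  Primrec.nat_mul.comp (Primrec.succ) (Primrec.succ)

theorem prim_hh : Primrec hh :=
  prim_q.comp (prim_q.comp (prim_q.comp (prim_q.comp (prim_q.comp
    (Primrec.nat_add.comp Primrec.id (Primrec.const 10))))))

theorem prim_B : Primrec B := by
  refine (Primrec.nat_rec₁ 10 ((prim_hh.comp Primrec.snd).to₂ : Primrec₂ fun _ b => hh b)).of_eq
    fun n => ?_
  induction n with
  | zero => rfl
  | succ n ih => simp only [B, ← ih]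

/-- two nested pairs -/
theorem two_le {k a b M : ℕ} (hk : k ≤ 9) (ha : a ≤ M) (hb : b ≤ M) :
    Nat.pair k (Nat.pair a b) ≤ hh M := by
  have h1 : Nat.pair a b ≤ q (M + 10) := pair_le (by omega) (by omega)
  have h2 : k ≤ q (M + 10) := (by omega : k ≤ M + 10).trans (le_q _)
  refine (pair_le h2 h1).trans ?_
  unfold hh
  exact ((le_q _).trans (le_q _)).trans (le_q _)

theorem three_le {k a b c M : ℕ} (hk : k ≤ 9) (ha : a ≤ M) (hb : b ≤ M) (hc : c ≤ M) :
    Nat.pair k (Nat.pair a (Nat.pair b c)) ≤ hh M := by
  have h1 : Nat.pair b c ≤ q (M + 10) := pair_le (by omega) (by omega)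
  have h2 : M + 10 ≤ q (M + 10) := le_q _
  have h3 : Nat.pair a (Nat.pair b c) ≤ q (q (M + 10)) := pair_le (by omega) h1
  have h4 : q (M + 10) ≤ q (q (M + 10)) := le_q _
  refine (pair_le (by omega) h3).trans ?_
  unfold hh
  exact (le_q _).trans (le_q _)

theorem five_le {k a b c d e M : ℕ} (hk : k ≤ 9) (ha : a ≤ M) (hb : b ≤ M) (hc : c ≤ M)
    (hd : d ≤ M) (he : e ≤ M) :
    Nat.pair k (Nat.pair a (Nat.pair b (Nat.pair c (Nat.pair d e)))) ≤ hh M := by
  have h1 : Nat.pair d e ≤ q (M + 10) := pair_le (by omega) (by omega)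
  have g1 : M + 10 ≤ q (M + 10) := le_q _
  have h2 : Nat.pair c (Nat.pair d e) ≤ q (q (M + 10)) := pair_le (by omega) h1
  have g2 : q (M + 10) ≤ q (q (M + 10)) := le_q _
  have h3 : Nat.pair b (Nat.pair c (Nat.pair d e)) ≤ q (q (q (M + 10))) := pair_le (by omega) h2
  have g3 : q (q (M + 10)) ≤ q (q (q (M + 10))) := le_q _
  have h4 : Nat.pair a (Nat.pair b (Nat.pair c (Nat.pair d e))) ≤ q (q (q (q (M + 10)))) :=
    pair_le (by omega) h3
  have g4 : q (q (q (M + 10))) ≤ q (q (q (q (M + 10)))) := le_q _
  exact pair_le (by omega) h4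

theorem varStr_length (x : ℕ) : (varStr x).length = x + 1 := by
  simp [varStr]

theorem gn_le (φ : Fml) : gn φ ≤ B (str φ).length := by
  have key : ∀ {k n : ℕ}, k < n → ∃ n', n = n' + 1 ∧ k ≤ n' := fun {k n} h => ⟨n - 1, by omega,
    by omega⟩
  induction φ with
  | bot =>
    show Nat.pair 1 0 ≤ B 4
    refine le_trans ?_ (le_trans (le_hh 0) ?_)
    · have : Nat.pair 1 0 = 2 := by decide
      rw [this]; norm_num
    · have h1 : hh 0 ≤ hh (B 3) := by
        unfold hh
        exact q_mono (q_mono (q_mono (q_mono (q_mono (by omega)))))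
      exact h1
  | eq x y =>
    have hl : (str (.eq x y)).length = (x + y + 5) + 1 := by
      simp only [str, List.length_append, varStr_length, List.length_cons, List.length_nil]
      omega
    rw [hl]
    have hB := le_B (x + y + 5)
    exact two_le (by norm_num) (by omega) (by omega)
  | zero x =>
    have hl : (str (.zero x)).length = (x + 4) + 1 := by
      simp only [str, List.length_append, varStr_length, List.length_cons, List.length_nil]
      omega
    rw [hl]
    have hB := le_B (x + 4)
    show Nat.pair 3 x ≤ hh (B (x + 4))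
    refine (pair_le (M := B (x + 4) + 10) (by omega) (by omega)).trans ?_
    unfold hh
    exact (((le_q _).trans (le_q _)).trans (le_q _)).trans (le_q _)
  | succ x y =>
    have hl : (str (.succ x y)).length = (x + y + 5) + 1 := by
      simp only [str, List.length_append, varStr_length, List.length_cons, List.length_nil]
      omega
    rw [hl]
    have hB := le_B (x + y + 5)
    exact two_le (by norm_num) (by omega) (by omega)
  | add x y z =>
    have hl : (str (.add x y z)).length = (x + y + z + 6) + 1 := by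
      simp only [str, List.length_append, varStr_length, List.length_cons, List.length_nil]
      omega
    rw [hl]
    have hB := le_B (x + y + z + 6)
    exact three_le (by norm_num) (by omega) (by omega) (by omega)
  | mul x y z =>
    have hl : (str (.mul x y z)).length = (x + y + z + 6) + 1 := by
      simp only [str, List.length_append, varStr_length, List.length_cons, List.length_nil]
      omega
    rw [hl]
    have hB := le_B (x + y + z + 6)
    exact three_le (by norm_num) (by omega) (by omega) (by omega)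
  | op i a b c d =>
    have hl : (str (.op i a b c d)).length = (i + a + b + c + d + 8) + 1 := by
      simp only [str, List.length_append, varStr_length, List.length_cons, List.length_nil]
      omega
    rw [hl]
    have hB := le_B (i + a + b + c + d + 8)
    exact five_le (by norm_num) (by omega) (by omega) (by omega) (by omega) (by omega)
  | imp φ ψ ih1 ih2 =>
    have hl : (str (φ.imp ψ)).length = ((str φ).length + (str ψ).length + 3) + 1 := by
      simp only [str, List.length_append, List.length_cons, List.length_nil]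
      omega
    rw [hl]
    have h1 := ih1.trans (B_mono (show (str φ).length ≤ (str φ).length + (str ψ).length + 3 by omega))
    have h2 := ih2.trans (B_mono (show (str ψ).length ≤ (str φ).length + (str ψ).length + 3 by omega))
    exact two_le (by norm_num) h1 h2
  | all x φ ih =>
    have hl : (str (.all x φ)).length = (x + (str φ).length + 4) + 1 := by
      simp only [str, List.length_append, varStr_length, List.length_cons, List.length_nil]
      omega
    rw [hl]
    have hB := le_B (x + (str φ).length + 4)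
    have h1 := ih.trans (B_mono (show (str φ).length ≤ x + (str φ).length + 4 by omega))
    exact two_le (by norm_num) (by omega) h1

/-- The Gödel numbers are decidable, the strings can be computed, and there is a bound. -/
theorem gnStr : GnStr :=
  ⟨⟨cv gf, primrec_cv prim_gf, cv_gf⟩, ⟨cv gs, primrec_cv prim_gs, cv_gs⟩,
    ⟨B, prim_B, B_mono, gn_le⟩⟩

end Pool.Agent.TH921.J1546
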