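import Pool.Agent.TH921.Pmin

/-!
# Commuting modulo `M` with a short element lifts (helper921, job 484 of helper64)
-/

set_option autoImplicit false

namespace Pool.Agent.TH64

variable {G : Type*} [Group G]

/-- a shortest element of a coset `M g` -/
theorem exists_min_coset (H : Hyp G) (M : Subgroup G) (g : G) :
    ∃ n ∈ M, ∀ m ∈ M, H.d 1 (n * g) ≤ H.d 1 (m * (n * g)) := by
  classical
  have hne : ∃ k, ∃ n ∈ M, H.d 1 (n * g) = k := ⟨_, 1, M.one_mem, rfl⟩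
  obtain ⟨n, hn, hk⟩ := Nat.find_spec hne
  refine ⟨n, hn, fun m hm => ?_⟩
  rw [hk]
  exact Nat.find_min' hne ⟨m * n, M.mul_mem hm hn, by rw [mul_assoc]⟩

/-- the coordinate of the endpoints of a short segment near two translated lines -/
theorem beh_aux {H : Hyp G} {x : G} (A : Ax H x) {a g w z : G} {R : ℕ} (hz : z = a * w)
    (ha : H.len a ≤ R)
    (h2 : ∀ i : ℤ, |A.s z g (w * x ^ i)| ≤ A.th)
    (hs : (A.c : ℤ) * (R + A.c : ℕ) + A.c + A.th < |A.s z 1 g|) : False := by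
  have hp : (0 : ℤ) ≤ (A.c : ℤ) * ((R + A.c : ℕ) : ℤ) := by positivity
  have e1 := A.s_add z 1 g (A.pr w 1)
  have e2 : |A.s z g (A.pr w 1)| ≤ A.th := h2 _
  have e3 : (A.c : ℤ) * (R + A.c : ℕ) + A.c < |A.s z 1 (A.pr w 1)| := by
    rw [← e1]
    have := abs_sub_abs_le_abs_sub (A.s z 1 g) (- A.s z g (A.pr w 1))
    rw [abs_neg, sub_neg_eq_add] at this
    omega
  have e4 := A.proj_pr z 1 (A.pr w 1) (by omega)
  have e5 := A.len_ge e3
  -- d 1 (pr_w 1) ≤ d 1 (a⁻¹ pr_z 1)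
  have e6 := A.pr_near w 1 (A.κ (z⁻¹ * 1))
  have e7 : H.d 1 (w * x ^ A.κ (z⁻¹ * 1)) = H.d a (A.pr z 1) := by
    rw [← H.d_mul a 1, mul_one, ← mul_assoc, ← hz]
    rfl
  have e8 := H.d_tri a 1 (A.pr z 1)
  rw [H.d_one'] at e8
  omega

theorem comm_small {H : Hyp G} {x : G} (A : Ax H x) (R : ℕ) : ∃ N0 : ℕ, ∀ N ≥ N0,
    ∀ M : Subgroup G, Fill A N M → ∀ a g : G, H.len a ≤ R → a⁻¹ * g * a * g⁻¹ ∈ M →
    ∃ n ∈ M, (n * g) * a = a * (n * g) := by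
  obtain ⟨c', N1, hpm⟩ := pmin A
  refine ⟨N1 + 24 * A.th + 4 * (A.c * R + A.c * A.c + A.c) + c' +
    2 * (A.c * (R + A.c) + A.c + 2 * A.th) + 10, ?_⟩
  intro N hN M F a g ha hcomm
  have hnor := F.normal
  obtain ⟨n₁, hn₁, hmin⟩ := exists_min_coset H M g
  set g' := n₁ * g with hg'
  refine ⟨n₁, hn₁, ?_⟩
  rw [← hg']
  have hn0 : a⁻¹ * g' * a * g'⁻¹ ∈ M := by
    have h1 : a⁻¹ * n₁ * a ∈ M := by
      have := hnor.conj_mem n₁ hn₁ a⁻¹
      rwa [inv_inv] at this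
    have h2 := M.mul_mem (M.mul_mem h1 hcomm) (M.inv_mem hn₁)
    have h3 : a⁻¹ * g' * a * g'⁻¹ = a⁻¹ * n₁ * a * (a⁻¹ * g * a * g⁻¹) * n₁⁻¹ := by
      rw [hg']
      group
    rwa [h3]
  by_cases hone : a⁻¹ * g' * a * g'⁻¹ = 1
  · have h1 : a⁻¹ * g' * a = g' := mul_inv_eq_one.1 hone
    calc g' * a = a * (a⁻¹ * g' * a) := by group
      _ = a * g' := by rw [h1]
  exfalso
  obtain ⟨w, hw⟩ := F.gr _ hn0 hone g'
  rw [show a⁻¹ * g' * a * g'⁻¹ * g' = a⁻¹ * g' * a by group] at hw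
  -- the pieces
  have b1 := hpm N (by omega) M F 1 g' hmin
  have s1 := A.s_add w g' 1 (a⁻¹ * g' * a)
  have s2 := A.s_add w 1 a⁻¹ (a⁻¹ * g' * a)
  have s3 := A.s_add w a⁻¹ (a⁻¹ * g') (a⁻¹ * g' * a)
  have s4 := A.s_symm w 1 g'
  have s5 : A.s w a⁻¹ (a⁻¹ * g') = A.s (a * w) 1 g' := by
    rw [← A.s_mul a w]
    congr 1 <;> group
  have b2 := A.lip_s w 1 a⁻¹
  rw [H.d_one, H.len_inv] at b2
  have b3 := A.lip_s w (a⁻¹ * g') (a⁻¹ * g' * a)
  rw [show H.d (a⁻¹ * g') (a⁻¹ * g' * a) = H.len a by unfold Hyp.d; congr 1; group] at b3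
  have hca : (A.c : ℤ) * (H.len a : ℤ) ≤ A.c * R :=
    mul_le_mul_of_nonneg_left (by exact_mod_cast ha) (by positivity)
  have hp1 : (0 : ℤ) ≤ (A.c : ℤ) * (R : ℤ) := by positivity
  have hp2 : (0 : ℤ) ≤ (A.c : ℤ) * (A.c : ℤ) := by positivity
  have b1w := b1 w
  have b1z := b1 (a * w)
  have hN' : ((N1 : ℤ) + 24 * A.th + 4 * (A.c * R + A.c * A.c + A.c) + c' +
    2 * (A.c * (R + A.c) + A.c + 2 * A.th) + 10) ≤ N := by exact_mod_cast hN
  have hexp : (A.c : ℤ) * (R + A.c) = A.c * R + A.c * A.c := by ring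
  rw [hexp] at hN'
  have hdiff : (N : ℤ) ≤ |A.s (a * w) 1 g' - A.s w 1 g'| + 12 * A.th +
      2 * (A.c * R + A.c * A.c + A.c) := by
    have t1 : A.s w g' (a⁻¹ * g' * a) = (A.s (a * w) 1 g' - A.s w 1 g') + A.s w 1 a⁻¹ +
      A.s w (a⁻¹ * g') (a⁻¹ * g' * a) := by
      rw [← s5]
      omega
    have t2 := abs_add_le ((A.s (a * w) 1 g' - A.s w 1 g') + A.s w 1 a⁻¹)
      (A.s w (a⁻¹ * g') (a⁻¹ * g' * a))
    have t3 := abs_add_le (A.s (a * w) 1 g' - A.s w 1 g') (A.s w 1 a⁻¹)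
    rw [← t1] at t2
    omega
  have hsub := abs_sub (A.s (a * w) 1 g') (A.s w 1 g')
  -- lower bounds
  have l1 : (A.c : ℤ) * (R + A.c : ℕ) + A.c + 2 * A.th < |A.s w 1 g'| := by
    push_cast
    rw [hexp]
    omega
  have l2 : (A.c : ℤ) * (R + A.c : ℕ) + A.c + 2 * A.th < |A.s (a * w) 1 g'| := by
    push_cast
    rw [hexp]
    omega
  have hcr : (0 : ℤ) ≤ (A.c : ℤ) * ((R + A.c : ℕ) : ℤ) := by positivity
  have hne : w⁻¹ * (a * w) ∉ Subgroup.zpowers x := by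
    rintro ⟨j, hj⟩
    have hj' : a * w = w * x ^ j := by
      rw [show x ^ j = w⁻¹ * (a * w) from hj]
      group
    rw [hj', A.s_base, sub_self, abs_zero] at hdiff
    omega
  have q1 := A.beh hne 1
  have q2 := A.beh hne g'
  have key : ∀ (u z p : G), (∀ i : ℤ, |A.s u 1 (z * x ^ i)| ≤ A.th) →
      (∀ i : ℤ, |A.s u g' (z * x ^ i)| ≤ A.th) → |A.s u 1 g'| ≤ 2 * A.th := by
    intro u z p h1 h2
    have e1 := A.s_add u 1 (z * x ^ (0 : ℤ)) g'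
    have e2 := A.s_symm u (z * x ^ (0 : ℤ)) g'
    have h1' := h1 0
    have h2' := h2 0
    have := abs_add_le (A.s u 1 (z * x ^ (0 : ℤ))) (A.s u (z * x ^ (0 : ℤ)) g')
    rw [e1] at this
    rw [e2, abs_neg] at h2'
    omega
  rcases q1 with q1 | q1 <;> rcases q2 with q2 | q2
  · have := key _ _ 1 q1 q2
    omega
  · exact beh_aux A (a := a) (g := g') (w := w) (z := a * w) (R := R) rfl ha q2 (by omega)
  · exact beh_aux A (a := a⁻¹) (g := g') (w := a * w) (z := w) (R := R) (by group)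
      (by rw [H.len_inv]; exact ha) q2 (by omega)
  · have := key _ _ 1 q1 q2
    omega

end Pool.Agent.TH64
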