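import Pool.Agent.TH64.Fill

/-!
# Crossing bounds for minimal lifts (helper921, job 480 of helper64)
-/

set_option autoImplicit false

namespace Pool.Agent.TH64

variable {G : Type*} [Group G]

namespace PAx

variable {H : Hyp G} {x : G} (A : PAx H x)

/-- if `i` is larger than `j` in absolute value by at least `k`, then so is the length -/
theorem len_gap {i j : ℤ} {m : ℕ} (h : |j| + (A.c * m + A.c + 1) ≤ |i|) :
    H.len (x ^ j) + m + 1 ≤ H.len (x ^ i) + A.c := by
  have hm : (0 : ℤ) ≤ A.c * (m : ℤ) := by positivity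
  have hk : |j| + |(|i| - |j|)| = |i| := by
    rw [abs_of_nonneg (by omega : (0 : ℤ) ≤ |i| - |j|)]
    ring
  have h1 := A.sup_z hk
  have h2 : m < H.len (x ^ (|i| - |j|)) := by
    apply A.len_ge
    rw [abs_of_nonneg (by omega : (0 : ℤ) ≤ |i| - |j|)]
    omega
  omega

/-- numeric lemma for `smin` -/
theorem num {N a w : ℤ} (hN : (A.c * (4 * A.c : ℕ) + A.c + 1 : ℤ) ≤ N)
    (ha : 3 * N + 2 * (A.c * (4 * A.c : ℕ) + A.c + 1 : ℤ) ≤ 4 * a)
    (hw : N + 2 * (A.c * (4 * A.c : ℕ) + A.c + 1 : ℤ) ≤ 4 * w)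
    (h : H.len (x ^ a) + H.len (x ^ w) ≤ H.len (x ^ (a - N)) + H.len (x ^ (w - N)) + 2 * A.c) :
    False := by
  set K : ℤ := (A.c * (4 * A.c : ℕ) + A.c + 1 : ℤ) with hK
  have hK1 : 1 ≤ K := by
    have : (0 : ℤ) ≤ (A.c : ℤ) * ((4 * A.c : ℕ) : ℤ) := by positivity
    omega
  have e1 : |a - N| + min N (2 * a - N) = |a| := by
    rw [abs_of_nonneg (by omega : (0 : ℤ) ≤ a)]
    rcases le_or_gt N a with h1 | h1
    · rw [abs_of_nonneg (by omega), min_eq_left (by omega)]
      ring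
    · rw [abs_of_nonpos (by omega), min_eq_right (by omega)]
      ring
  by_cases hw2 : N ≤ 2 * w
  · have e2 : |w - N| ≤ |w| := by
      rw [abs_of_nonneg (by omega : (0 : ℤ) ≤ w)]
      rcases le_or_gt N w with h1 | h1
      · rw [abs_of_nonneg (by omega)]
        omega
      · rw [abs_of_nonpos (by omega)]
        omega
    have h1 := A.len_mono e2
    have h2 := A.len_gap (i := a) (j := a - N) (m := 4 * A.c) (by omega)
    omega
  · push Not at hw2
    -- f(N - w) ≤ f(w) + f(N - 2 w)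
    have h1 : H.len (x ^ (w - N)) ≤ H.len (x ^ w) + H.len (x ^ (N - 2 * w)) := by
      have := H.len_mul (x ^ w) (x ^ (N - 2 * w))
      rw [← zpow_add] at this
      rw [← H.len_inv (x ^ (w - N)), ← zpow_neg]
      rwa [show -(w - N) = w + (N - 2 * w) by ring]
    have hm : |min N (2 * a - N)| = min N (2 * a - N) := abs_of_nonneg (by omega)
    have h2 := A.sup_z (i := a - N) (j := min N (2 * a - N)) (k := a) (by rw [hm]; exact e1)
    have h3 := A.len_gap (i := min N (2 * a - N)) (j := N - 2 * w) (m := 4 * A.c) (by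
      rw [hm, abs_of_nonneg (by omega : (0 : ℤ) ≤ N - 2 * w)]
      omega)
    omega

end PAx

theorem pmin {H : Hyp G} {x : G} (A : Ax H x) : ∃ c' N0 : ℕ, ∀ N ≥ N0, ∀ M : Subgroup G,
    Fill A N M → ∀ u v : G, (∀ m ∈ M, H.d u v ≤ H.d u (m * v)) →
    ∀ w : G, 2 * |A.s w u v| ≤ N + c' := by
  refine ⟨A.c * (4 * A.c) + A.c + 1, A.c * (4 * A.c) + A.c + 1, ?_⟩
  intro N hN M F u v hmin w
  by_contra hcon
  push Not at hcon
  push_cast at hcon
  have hK1 : (0 : ℤ) ≤ (A.c : ℤ) * (4 * (A.c : ℤ)) := by positivity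
  have hN' : ((A.c : ℤ) * (4 * (A.c : ℤ)) + A.c + 1) ≤ N := by exact_mod_cast hN
  obtain ⟨k, hk⟩ : ∃ k : ℤ, |A.s w u v + N * k| = |(|A.s w u v| - N)| := by
    rcases le_or_gt 0 (A.s w u v) with h | h
    · refine ⟨-1, ?_⟩
      rw [abs_of_nonneg h]
      congr 1
      ring
    · refine ⟨1, ?_⟩
      rw [abs_of_neg h, ← abs_neg]
      congr 1
      ring
  have h1 := hmin _ (F.rot w k)
  have h2 := A.proj_pr w u v (by omega)
  have h3 := A.d_le_pr w u (PAx.rt x w (N * k) * v)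
  rw [A.d_rt_pr, A.s_rt_right] at h3
  have h4 := A.len_gap (i := A.s w u v) (j := A.s w u v + N * k) (m := 4 * A.c) (by
    rw [hk]
    push_cast
    rcases le_or_gt (N : ℤ) (|A.s w u v|) with h | h
    · rw [abs_of_nonneg (by omega : (0 : ℤ) ≤ |A.s w u v| - N)]
      omega
    · rw [abs_of_nonpos (by omega : |A.s w u v| - (N : ℤ) ≤ 0)]
      omega)
  omega

theorem smin {H : Hyp G} {x : G} (A : Ax H x) : ∃ c' N0 : ℕ, ∀ N ≥ N0, ∀ M : Subgroup G,
    Fill A N M → ∀ u v z : G,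
    (∀ m ∈ M, H.d u v + H.d u z ≤ H.d (m * u) v + H.d (m * u) z) →
    (∀ m ∈ M, H.d u v + H.d v z ≤ H.d u (m * v) + H.d (m * v) z) →
    ∀ w : G, 4 * A.s w u v ≤ 3 * N + c' := by
  refine ⟨4 * (A.c * (4 * A.c) + A.c + 1), 4 * (A.c * (4 * A.c) + A.c + 1), ?_⟩
  intro N hN M F u v z hu hv w
  by_contra hcon
  push Not at hcon
  push_cast at hcon
  have hK1 : (0 : ℤ) ≤ (A.c : ℤ) * (4 * (A.c : ℤ)) := by positivity
  have hN' : 4 * ((A.c : ℤ) * (4 * (A.c : ℤ)) + A.c + 1) ≤ N := by exact_mod_cast hN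
  have hsum := A.s_add w z u v
  have hsym := A.s_symm w u z
  have g1 := A.proj_pr w u v (by rw [abs_of_nonneg (by omega : 0 ≤ A.s w u v)]; omega)
  by_cases hb : 2 * A.s w u z ≤ N
  · -- rotate v by -N
    have h1 := hv _ (F.rot w (-1))
    have g2 := A.proj_pr w z v (by
      rw [abs_of_nonneg (by omega : 0 ≤ A.s w z v)]; omega)
    have h3 := A.d_le_pr w u (PAx.rt x w (N * (-1)) * v)
    have h4 := A.d_le_pr w z (PAx.rt x w (N * (-1)) * v)
    rw [A.d_rt_pr, A.s_rt_right] at h3 h4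
    rw [H.d_comm v z, H.d_comm (PAx.rt x w (N * (-1)) * v) z] at h1
    refine A.num (N := N) (a := A.s w u v) (w := A.s w z v) (by push_cast; omega)
      (by push_cast; omega) (by push_cast; omega) ?_
    rw [show A.s w u v - (N : ℤ) = A.s w u v + N * (-1) by ring,
      show A.s w z v - (N : ℤ) = A.s w z v + N * (-1) by ring]
    omega
  · push Not at hb
    have h1 := hu _ (F.rot w 1)
    have g2 := A.proj_pr w u z (by
      rw [abs_of_nonneg (by omega : 0 ≤ A.s w u z)]; omega)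
    have h3 := A.d_le_pr w (PAx.rt x w (N * 1) * u) v
    have h4 := A.d_le_pr w (PAx.rt x w (N * 1) * u) z
    rw [A.d_rt_pr, A.s_rt_left] at h3 h4
    refine A.num (N := N) (a := A.s w u v) (w := A.s w u z) (by push_cast; omega)
      (by push_cast; omega) (by push_cast; omega) ?_
    rw [show A.s w u v - (N : ℤ) = A.s w u v - N * 1 by ring,
      show A.s w u z - (N : ℤ) = A.s w u z - N * 1 by ring]
    omega

end Pool.Agent.TH64
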