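import Pool.Agent.TH806.LM.Defs

set_option autoImplicit false

/-! LM project (helper806, MP_112ba8_nt), job MP: the product of the truncated exponentials as an entire function. -/

namespace Pool.Agent.TH921.LM_MP

open Finset Filter Topology Complex
open Pool.Agent.W184.NZ
open Pool.Agent.TH806 Pool.Agent.TH806.LK Pool.Agent.TH806.LM
open Pool.Agent.H306R2.SM (om cl Yf)

lemma diffNC (K : ℕ) (a : ℂ) : Differentiable ℂ (fun z => NC K a z) := by
  unfold NC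
  fun_prop

lemma diffPI (I : Finset ℕ) (hI : ∀ p ∈ I, p.Prime) : Differentiable ℂ (PI I) := by
  unfold PI
  refine Differentiable.fun_sum fun p hp => ?_
  intro s
  have h0 : (p : ℂ) ≠ 0 := by exact_mod_cast (hI p hp).ne_zero
  exact (differentiableAt_id.neg).const_cpow (Or.inl h0)

lemma term_norm (k : ℕ) (z : ℂ) : ‖(((-1 : ℝ) : ℂ)) ^ k / (k.factorial : ℂ) * z ^ k‖ = ‖z‖ ^ k / k.factorial := by
  rw [norm_mul, norm_div, norm_pow, norm_pow, Complex.norm_real, Complex.norm_natCast]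
  simp
  ring

lemma NC_sub_one (K : ℕ) (z : ℂ) : ‖NC K ((-1 : ℝ) : ℂ) z - 1‖ ≤ Real.exp ‖z‖ - 1 := by
  unfold NC
  rw [sum_range_succ']
  have e0 : (((-1 : ℝ) : ℂ)) ^ 0 / ((0 : ℕ).factorial : ℂ) * z ^ 0 = 1 := by simp
  rw [e0, add_sub_cancel_right]
  refine (norm_sum_le _ _).trans ?_
  have h1 := Real.sum_le_exp_of_nonneg (norm_nonneg z) (K + 1)
  rw [sum_range_succ'] at h1
  have e1 : ∑ k ∈ range K, ‖(((-1 : ℝ) : ℂ)) ^ (k + 1) / ((k + 1).factorial : ℂ) * z ^ (k + 1)‖ =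
      ∑ k ∈ range K, ‖z‖ ^ (k + 1) / (k + 1).factorial := sum_congr rfl fun k _ => term_norm (k + 1) z
  rw [e1]
  simp only [pow_zero, Nat.factorial_zero, Nat.cast_one, div_one] at h1
  linarith

lemma NC_le (K : ℕ) (z : ℂ) : ‖NC K ((-1 : ℝ) : ℂ) z‖ ≤ (1 + ‖z‖) ^ K := by
  unfold NC
  refine (norm_sum_le _ _).trans ?_
  rw [add_comm 1 ‖z‖, add_pow]
  refine sum_le_sum fun k hk => ?_
  rw [term_norm, one_pow, mul_one]
  have hk' : k ≤ K := by have := mem_range.mp hk; omega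
  have h1 : (1 : ℝ) ≤ (K.choose k : ℝ) := by exact_mod_cast Nat.choose_pos hk'
  have h2 : (1 : ℝ) ≤ (k.factorial : ℝ) := by exact_mod_cast Nat.factorial_pos k
  have h3 : 0 ≤ ‖z‖ ^ k := by positivity
  calc ‖z‖ ^ k / k.factorial ≤ ‖z‖ ^ k := div_le_self h3 h2
    _ ≤ ‖z‖ ^ k * (K.choose k : ℝ) := le_mul_of_one_le_right h3 h1

lemma cp_norm (p : ℕ) (hp : 144 ≤ p) (s : ℂ) : ‖(p : ℂ) ^ (-s)‖ = (p : ℝ) ^ (-s.re) := by
  have h0 : 0 < p := by omega
  rw [Complex.norm_natCast_cpow_of_pos h0, Complex.neg_re]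

lemma PI_two (I : Finset ℕ) (hI : ∀ p ∈ I, 144 ≤ p) (s : ℂ) (hs : 2 ≤ s.re) :
    ‖PI I s‖ ≤ ∑ p ∈ I, ((p : ℝ) ^ 2)⁻¹ := by
  unfold PI
  refine (norm_sum_le _ _).trans (sum_le_sum fun p hp => ?_)
  rw [cp_norm p (hI p hp)]
  have h1 : (1 : ℝ) ≤ p := by
    have := hI p hp
    have : 1 ≤ p := by omega
    exact_mod_cast this
  have h2 : (p : ℝ) ^ (-s.re) ≤ (p : ℝ) ^ (-(2:ℝ)) := Real.rpow_le_rpow_of_exponent_le h1 (by linarith)
  refine h2.trans (le_of_eq ?_)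
  rw [Real.rpow_neg (by linarith)]
  norm_cast

lemma PI_half (I : Finset ℕ) (hI : ∀ p ∈ I, 144 ≤ p) (s : ℂ) (hs : 1 / 2 ≤ s.re) :
    ‖PI I s‖ ≤ (I.card : ℝ) / 12 := by
  unfold PI
  refine (norm_sum_le _ _).trans ?_
  have h : ∀ p ∈ I, ‖(p : ℂ) ^ (-s)‖ ≤ 1 / 12 := by
    intro p hp
    rw [cp_norm p (hI p hp)]
    have h0 : (144 : ℝ) ≤ p := by exact_mod_cast hI p hp
    have h2 : (p : ℝ) ^ (-s.re) ≤ (p : ℝ) ^ (-(1 / 2 : ℝ)) :=
      Real.rpow_le_rpow_of_exponent_le (by linarith) (by linarith)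
    refine h2.trans ?_
    rw [Real.rpow_neg (by linarith), ← Real.sqrt_eq_rpow, ← one_div]
    refine one_div_le_one_div_of_le (by norm_num) ?_
    refine Real.le_sqrt_of_sq_le ?_
    linarith
  refine (sum_le_card_nsmul _ _ _ h).trans (le_of_eq ?_)
  rw [nsmul_eq_mul]
  ring

lemma sum_sq_le {c : ℝ} {J : ℕ} {I : ℕ → Finset ℕ} {b : ℕ → ℝ} (h : Rg c J I b) :
    ∑ i ∈ range J, ∑ p ∈ I i, ((p : ℝ) ^ 2)⁻¹ ≤ 1 / 143 := by
  have hd : (↑(range J) : Set ℕ).PairwiseDisjoint I := by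
    intro i _ j _ hij
    rcases lt_or_gt_of_ne hij with h1 | h1
    · exact h.dj i j h1
    · exact (h.dj j i h1).symm
  rw [← sum_biUnion hd]
  obtain ⟨N, hN⟩ : ∃ N : ℕ, ∀ p ∈ (range J).biUnion I, p ≤ N := by
    refine ⟨((range J).biUnion I).sup id, fun p hp => ?_⟩
    exact le_sup (f := id) hp
  have hsub : (range J).biUnion I ⊆ Ioc 143 (max N 143) := by
    intro p hp
    rw [mem_Ioc]
    refine ⟨?_, (hN p hp).trans (le_max_left _ _)⟩
    obtain ⟨i, _, hi⟩ := mem_biUnion.mp hp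
    have := (h.pr i p hi).2.1
    omega
  refine (sum_le_sum_of_subset_of_nonneg hsub fun _ _ _ => by positivity).trans ?_
  have h1 := sum_Ioc_inv_sq_le_sub (α := ℝ) (k := 143) (n := max N 143) (by norm_num) (le_max_right _ _)
  refine h1.trans ?_
  have h2 : (0:ℝ) ≤ ((max N 143 : ℕ) : ℝ)⁻¹ := by positivity
  have h3 : ((143 : ℕ) : ℝ)⁻¹ = 1 / 143 := by norm_num
  rw [h3]
  linarith

lemma card_le {I : Finset ℕ} {b : ℝ} (h : ∀ p ∈ I, 144 ≤ p ∧ (p : ℝ) ≤ b) (hb : 10 ≤ b) :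
    1 + (I.card : ℝ) / 12 ≤ b := by
  have hsub : I ⊆ Icc 1 ⌊b⌋₊ := by
    intro p hp
    rw [mem_Icc]
    have := h p hp
    exact ⟨by omega, Nat.le_floor this.2⟩
  have h1 := card_le_card hsub
  rw [Nat.card_Icc, Nat.add_sub_cancel] at h1
  have h2 : (I.card : ℝ) ≤ (⌊b⌋₊ : ℝ) := by exact_mod_cast h1
  have h3 := Nat.floor_le (show 0 ≤ b by linarith)
  linarith

theorem t_MP : Pool.Agent.TH806.LM.P_MP := by
  intro n hn
  refine ⟨1 / 80, by norm_num, fun Rs hRs => ?_⟩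
  filter_upwards [eventually_gt_atTop 0] with T hT
  intro c e P₀ y J I hC hy
  have hR := hC.rg
  refine ⟨?_, ?_, ?_, ?_⟩
  · unfold MP
    refine Differentiable.fun_finsetProd fun i _ => ?_
    exact (diffNC _ _).comp (diffPI (I i) fun p hp => (hR.pr i p hp).1)
  · intro s hs
    unfold MP
    have hz : ∀ i, ‖PI (I i) s‖ ≤ ∑ p ∈ I i, ((p : ℝ) ^ 2)⁻¹ :=
      fun i => PI_two (I i) (fun p hp => (hR.pr i p hp).2.1) s hs
    have hsum : ∑ i ∈ range J, ‖PI (I i) s‖ ≤ 1 / 143 :=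
      (sum_le_sum fun i _ => hz i).trans (sum_sq_le hR)
    have hone : ∀ i ∈ range J, ‖PI (I i) s‖ ≤ 1 := by
      intro i hi
      have h1 := single_le_sum (f := fun i => ‖PI (I i) s‖) (fun _ _ => norm_nonneg _) hi
      have h2 : ‖PI (I i) s‖ ≤ ∑ i ∈ range J, ‖PI (I i) s‖ := h1
      linarith
    have hN : ∀ i ∈ range J, ‖NC (KK n Rs i) ((-1 : ℝ) : ℂ) (PI (I i) s) - 1‖ ≤ 2 * ‖PI (I i) s‖ := by
      intro i hi
      refine (NC_sub_one _ _).trans ?_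
      have h1 := Real.abs_exp_sub_one_le (x := ‖PI (I i) s‖) (by rw [abs_of_nonneg (norm_nonneg _)]; exact hone i hi)
      rw [abs_of_nonneg (norm_nonneg (PI (I i) s))] at h1
      exact (le_abs_self _).trans h1
    have hP := norm_prod_one_add_sub_one_le (range J)
      (fun i => NC (KK n Rs i) ((-1 : ℝ) : ℂ) (PI (I i) s) - 1)
    simp only [add_sub_cancel] at hP
    refine hP.trans ?_
    have h3 : ∑ i ∈ range J, ‖NC (KK n Rs i) ((-1 : ℝ) : ℂ) (PI (I i) s) - 1‖ ≤ 2 / 143 := by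
      refine (sum_le_sum hN).trans ?_
      rw [← mul_sum]
      linarith
    have h4 : Real.exp (∑ i ∈ range J, ‖NC (KK n Rs i) ((-1 : ℝ) : ℂ) (PI (I i) s) - 1‖) ≤ Real.exp (2 / 143) :=
      Real.exp_le_exp.mpr h3
    have h5 := Real.abs_exp_sub_one_le (x := 2 / 143) (by rw [abs_of_nonneg (by norm_num)]; norm_num)
    rw [abs_of_nonneg (show (0:ℝ) ≤ 2 / 143 by norm_num)] at h5
    have h6 := (le_abs_self _).trans h5
    linarith
  · intro s hs
    unfold MP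
    rw [norm_prod]
    have h1 : ∀ i ∈ range J, ‖NC (KK n Rs i) ((-1 : ℝ) : ℂ) (PI (I i) s)‖ ≤ bb y i ^ (40 * n * (Rs + i)) := by
      intro i hi
      refine (NC_le _ _).trans ?_
      have h2 : 1 + ‖PI (I i) s‖ ≤ bb y i := by
        have h3 := PI_half (I i) (fun p hp => (hR.pr i p hp).2.1) s hs
        have h4 := card_le (fun p hp => (hR.pr i p hp).2) (hR.b10 i (mem_range.mp hi))
        linarith
      have e1 : KK n Rs i = 40 * n * (Rs + i) := by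
        unfold KK RR; ring
      rw [e1]
      exact pow_le_pow_left₀ (by positivity) h2 _
    refine (prod_le_prod (fun i _ => norm_nonneg _) h1).trans ?_
    have hy1 : 1 ≤ y := by have := hC.y1; linarith
    refine (len hy1 Rs J (40 * n)).trans ?_
    have h5 : Real.log y * (2 * ((40 * n : ℕ) : ℝ) * ((Rs:ℝ) + 1)) ≤ Real.log T := by
      push_cast
      linarith
    calc Real.exp (Real.log y * (2 * ((40 * n : ℕ) : ℝ) * ((Rs:ℝ) + 1))) ≤ Real.exp (Real.log T) :=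
          Real.exp_le_exp.mpr h5
      _ = T := Real.exp_log hT
  · intro t
    rfl

end Pool.Agent.TH921.LM_MP
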