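import Pool.Agent.TH839.UH.Stm2
import Pool.Agent.W327.HF.Size

/-!
# Simple zeros of the heat flow (job 1157 of helper839)

Adaptation of `Pool.Agent.W355.UN.fwd` (helpers 355, 327, 736, 363): the logarithmic derivative of the
half-line integral `J` at `0` has positive real part.
-/

set_option autoImplicit false

open Complex MeasureTheory Filter Topology Set
open scoped ComplexConjugate

namespace Pool.Agent.TH921.SIMP

open Pool.Agent.W169.HF Pool.Agent.W355.UN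

/-- the logarithmic derivative at `0`, from a comparison of `J z` and `J (-z)` -/
lemma logder_pos {J : ℂ → ℂ} {r M A : ℝ} (hr : 0 < r) (hM : 0 < M)
    (hJ : ∀ z ∈ Metric.ball (0 : ℂ) r, DifferentiableAt ℂ J z)
    (hJ0 : ∀ z ∈ Metric.ball (0 : ℂ) r, J z ≠ 0)
    (hb : ∀ z ∈ Metric.ball (0 : ℂ) r, ‖J z‖ ≤ Real.exp (A * z.re + M) * ‖J (-z)‖)
    (hA : 4 * M < A * r) : 0 < (deriv J 0 / J 0).re := by
  have hneg : ∀ z ∈ Metric.ball (0 : ℂ) r, -z ∈ Metric.ball (0 : ℂ) r := by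
    intro z hz
    rw [mem_ball_zero_iff] at hz ⊢
    rwa [norm_neg]
  have h0r : (0 : ℂ) ∈ Metric.ball (0 : ℂ) r := Metric.mem_ball_self hr
  have hJ00 := hJ0 0 h0r
  obtain ⟨f, hf, hf0, hfk⟩ := W327.HF.exlog (k := fun z => J z / (J (-z) * cexp (A * z))) hr
    (by
      intro z hz
      apply DifferentiableAt.differentiableWithinAt
      apply (hJ z hz).div
      · apply DifferentiableAt.mul
        · exact (hJ (-z) (hneg z hz)).comp z differentiableAt_id.neg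
        · fun_prop
      · exact mul_ne_zero (hJ0 _ (hneg z hz)) (Complex.exp_ne_zero _))
    (fun z hz => div_ne_zero (hJ0 z hz) (mul_ne_zero (hJ0 _ (hneg z hz)) (Complex.exp_ne_zero _)))
    (by simp [hJ00])
  have hre : ∀ z ∈ Metric.ball (0 : ℂ) r, (f z).re ≤ M := by
    intro z hz
    have h1 : ‖J z / (J (-z) * cexp (A * z))‖ ≤ Real.exp M := by
      rw [norm_div, norm_mul, Complex.norm_exp, div_le_iff₀ (mul_pos (norm_pos_iff.2 (hJ0 _ (hneg z hz)))
        (Real.exp_pos _)), Complex.re_ofReal_mul]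
      refine (hb z hz).trans (le_of_eq ?_)
      rw [Real.exp_add]
      ring
    rw [hfk z hz, Complex.norm_exp] at h1
    exact Real.exp_le_exp.1 h1
  have hfd : ∀ w ∈ Metric.ball (0 : ℂ) r, DifferentiableAt ℂ f w := fun w hw =>
    hf.differentiableAt (Metric.isOpen_ball.mem_nhds hw)
  have hbd : ∀ w ∈ Metric.sphere (0 : ℂ) (r / 2), ‖f w‖ ≤ 2 * M := by
    intro w hw
    have hn : ‖w‖ = r / 2 := by rwa [mem_sphere_zero_iff_norm] at hw
    have hwb : w ∈ Metric.ball (0 : ℂ) r := by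
      rw [mem_ball_zero_iff, hn]; linarith
    have h1 := Complex.borelCaratheodory_zero hM hf (fun z hz => hre z hz) hr hwb hf0
    rw [hn] at h1
    have e : 2 * M * (r / 2) / (r - r / 2) = 2 * M := by
      field_simp
      ring
    rwa [e] at h1
  have h1 := Complex.norm_deriv_le_of_forall_mem_sphere_norm_le (c := (0 : ℂ)) (R := r / 2)
    (C := 2 * M) (f := f) (by positivity) (by
      apply DifferentiableOn.diffContOnCl
      rw [closure_ball _ (by positivity)]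
      intro w hw
      refine (hfd w ?_).differentiableWithinAt
      rw [mem_closedBall_zero_iff] at hw
      rw [mem_ball_zero_iff]
      linarith) hbd
  have e1 : 2 * M / (r / 2) = 4 * M / r := by
    field_simp
    ring
  rw [e1] at h1
  -- the derivative of `f`
  have hJd := (hJ 0 h0r).hasDerivAt
  have hJn : HasDerivAt (fun z : ℂ => J (-z)) (-deriv J 0) 0 := by
    have h2 : HasDerivAt J (deriv J 0) (-(0 : ℂ)) := by rw [neg_zero]; exact hJd
    have h3 := HasDerivAt.comp (0 : ℂ) h2 (hasDerivAt_neg (0 : ℂ))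
    rw [mul_neg_one] at h3
    exact h3
  have hE : HasDerivAt (fun z : ℂ => cexp (A * z)) (A : ℂ) 0 := by
    have h2 : HasDerivAt (fun z : ℂ => (A : ℂ) * z) (A : ℂ) 0 := by
      simpa using (hasDerivAt_id (0 : ℂ)).const_mul (A : ℂ)
    have h3 := h2.cexp
    simpa using h3
  have hk : HasDerivAt (fun z => J z / (J (-z) * cexp (A * z)))
      (2 * (deriv J 0 / J 0) - A) 0 := by
    have h2 := hJd.div (hJn.mul hE) (by simpa using hJ00)
    refine h2.congr_deriv ?_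
    simp only [neg_zero, mul_zero, Complex.exp_zero, mul_one, Pi.mul_apply]
    field_simp
    ring
  have hk2 : HasDerivAt (fun z => cexp (f z)) (deriv f 0) 0 := by
    have h2 := (hfd 0 h0r).hasDerivAt.cexp
    rw [hf0, Complex.exp_zero, one_mul] at h2
    exact h2
  have heq : (fun z => J z / (J (-z) * cexp (A * z))) =ᶠ[𝓝 0] fun z => cexp (f z) := by
    filter_upwards [Metric.isOpen_ball.mem_nhds h0r] with z hz
    exact hfk z hz
  have hder : deriv f 0 = 2 * (deriv J 0 / J 0) - A :=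
    (hk2.congr_of_eventuallyEq heq).unique hk
  have h2 : -(4 * M / r) ≤ (deriv f 0).re := by
    have := (Complex.abs_re_le_norm (deriv f 0)).trans h1
    rw [abs_le] at this
    exact this.1
  rw [hder] at h2
  have h3 : 4 * M / r < A := by
    rw [div_lt_iff₀ hr]
    exact hA
  have h4 : (2 * (deriv J 0 / J 0) - (A : ℂ)).re = 2 * (deriv J 0 / J 0).re - A := by
    simp
  rw [h4] at h2
  linarith

/-- the representation of the heat flow on the real line -/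
theorem rep_real {f : ℂ → ℂ} (hf : Slow f) {ε : ℂ}
    (hfe : ∀ u : ℂ, f u = ε * conj (f (-conj u))) {t : ℝ} (ht : 0 < t) (x : ℝ) :
    heat t f x = ((1 / Real.sqrt (4 * Real.pi * t) * Real.exp (-(x ^ 2 / (4 * t))) : ℝ) : ℂ) *
      (J t f ((x / (2 * t) : ℝ) : ℂ) + ε * conj (J t f ((-x / (2 * t) : ℝ) : ℂ))) := by
  have h1 := Pool.Agent.W806.HF.rep (fun s => f (s - 1 / 2)) ε (W327.HF.slow_shift hf) (by
    intro s
    have e : -conj (s - 1 / 2) = 1 - conj s - 1 / 2 := by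
      simp only [map_sub, map_div₀, map_one, map_ofNat]
      ring
    have e2 := hfe (s - 1 / 2)
    rw [e] at e2
    exact e2) t 0 x ht
  have h2 : heat t (fun s => f (s - 1 / 2)) (1 / 2 + (x : ℂ) + ((0 : ℝ) : ℂ) * I) = heat t f x := by
    have e : ∀ v : ℝ, (1 / 2 + (x : ℂ) + ((0 : ℝ) : ℂ) * I + ((2 * Real.sqrt t * v : ℝ) : ℂ) - 1 / 2) =
        (x : ℂ) + ((2 * Real.sqrt t * v : ℝ) : ℂ) := by
      intro v
      push_cast; ring
    unfold heat
    simp only [e]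
  have h3 : ∀ y : ℝ, hh t (fun u : ℝ => f (1 / 2 + (u : ℂ) + ((0 : ℝ) : ℂ) * I - 1 / 2)) y =
      J t f ((y / (2 * t) : ℝ) : ℂ) := by
    intro y
    unfold hh J
    refine integral_congr_ae (Eventually.of_forall fun r => ?_)
    simp only
    congr 1
    · push_cast
      congr 1
      ring
    · congr 1
      push_cast; ring
  rw [h2, h3, h3] at h1
  exact h1

/-- a double zero of the heat flow makes the logarithmic derivative of `J` imaginary -/
theorem re_zero {f : ℂ → ℂ} (hf : Slow f) {ε : ℂ} (hε : ‖ε‖ = 1)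
    (hfe : ∀ u : ℂ, f u = ε * conj (f (-conj u))) {t : ℝ} (ht : 0 < t)
    (h0 : heat t f 0 = 0) (h1 : deriv (heat t f) 0 = 0) : (deriv (J t f) 0 / J t f 0).re = 0 := by
  have hε0 : ε ≠ 0 := by
    intro h
    rw [h, norm_zero] at hε
    norm_num at hε
  have hd := (Pool.Agent.W327.HF.heat_diff hf ht.le).differentiableAt (x := (0 : ℂ)) |>.hasDerivAt
  rw [h1] at hd
  -- the real variable
  have hr1 : HasDerivAt (fun x : ℝ => heat t f (x : ℂ)) 0 0 := by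
    have : HasDerivAt (heat t f) 0 ((0 : ℝ) : ℂ) := by rw [ofReal_zero]; exact hd
    exact this.comp_ofReal
  -- the prefactor
  have hs : 0 < Real.sqrt (4 * Real.pi * t) := Real.sqrt_pos.2 (by positivity)
  have hc : HasDerivAt (fun x : ℝ => (((1 / Real.sqrt (4 * Real.pi * t) *
      Real.exp (-(x ^ 2 / (4 * t))))⁻¹ : ℝ) : ℂ)) 0 0 := by
    have e : (fun x : ℝ => (1 / Real.sqrt (4 * Real.pi * t) *
      Real.exp (-(x ^ 2 / (4 * t))))⁻¹) = fun x : ℝ => Real.sqrt (4 * Real.pi * t) *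
        Real.exp (x ^ 2 / (4 * t)) := by
      funext x
      rw [Real.exp_neg]
      field_simp
    have h2 : HasDerivAt (fun x : ℝ => Real.sqrt (4 * Real.pi * t) *
        Real.exp (x ^ 2 / (4 * t))) 0 0 := by
      have h3 : HasDerivAt (fun x : ℝ => x ^ 2 / (4 * t)) 0 0 := by
        have := (hasDerivAt_pow 2 (0 : ℝ)).div_const (4 * t)
        simpa using this
      have h4 := h3.exp.const_mul (Real.sqrt (4 * Real.pi * t))
      simpa using h4
    rw [← e] at h2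
    have := h2.ofReal_comp
    simpa using this
  have hprod := hc.mul hr1
  have e2 : (fun x : ℝ => (((1 / Real.sqrt (4 * Real.pi * t) *
      Real.exp (-(x ^ 2 / (4 * t))))⁻¹ : ℝ) : ℂ)) * (fun x : ℝ => heat t f (x : ℂ)) =
      fun x : ℝ => J t f ((x / (2 * t) : ℝ) : ℂ) + ε * conj (J t f ((-x / (2 * t) : ℝ) : ℂ)) := by
    funext x
    rw [Pi.mul_apply, rep_real hf hfe ht x, ← mul_assoc, ← ofReal_mul, inv_mul_cancel₀, ofReal_one,
      one_mul]
    positivity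
  rw [e2] at hprod
  simp only [zero_mul, mul_zero, add_zero] at hprod
  -- the derivative of the right-hand side
  have hJ := (W327.HF.J_diff hf ht (0 : ℂ)).hasDerivAt
  have hJ' : HasDerivAt (J t f) (deriv (J t f) 0) ((0 : ℝ) : ℂ) := by rw [ofReal_zero]; exact hJ
  have hJr : HasDerivAt (fun y : ℝ => J t f (y : ℂ)) (deriv (J t f) 0) 0 := hJ'.comp_ofReal
  have hp1 : HasDerivAt (fun x : ℝ => J t f ((x / (2 * t) : ℝ) : ℂ))
      ((1 / (2 * t) : ℝ) • deriv (J t f) 0) 0 := by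
    have h3 : HasDerivAt (fun x : ℝ => x / (2 * t)) (1 / (2 * t)) 0 :=
      (hasDerivAt_id (0 : ℝ)).div_const (2 * t)
    have h4 : HasDerivAt (fun y : ℝ => J t f (y : ℂ)) (deriv (J t f) 0) ((0 : ℝ) / (2 * t)) := by
      rw [zero_div]; exact hJr
    exact h4.scomp (0 : ℝ) h3
  have hp2 : HasDerivAt (fun x : ℝ => J t f ((-x / (2 * t) : ℝ) : ℂ))
      ((-(1 / (2 * t)) : ℝ) • deriv (J t f) 0) 0 := by
    have h3 : HasDerivAt (fun x : ℝ => -x / (2 * t)) (-(1 / (2 * t))) 0 := by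
      have := (hasDerivAt_neg (0 : ℝ)).div_const (2 * t)
      rwa [neg_div] at this
    have h4 : HasDerivAt (fun y : ℝ => J t f (y : ℂ)) (deriv (J t f) 0) (-(0 : ℝ) / (2 * t)) := by
      rw [neg_zero, zero_div]; exact hJr
    exact h4.scomp (0 : ℝ) h3
  have hp3 : HasDerivAt (fun x : ℝ => conj (J t f ((-x / (2 * t) : ℝ) : ℂ)))
      (conj ((-(1 / (2 * t)) : ℝ) • deriv (J t f) 0)) 0 := hp2.star
  have hsum := hp1.add (hp3.const_mul ε)
  have huniq := hsum.unique hprod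
  -- algebra
  have hv := rep_real hf hfe ht 0
  rw [ofReal_zero, h0] at hv
  have hc0 : ((1 / Real.sqrt (4 * Real.pi * t) * Real.exp (-((0 : ℝ) ^ 2 / (4 * t))) : ℝ) : ℂ) ≠ 0 := by
    rw [Ne, ofReal_eq_zero]
    positivity
  have hv2 := (mul_eq_zero.1 hv.symm).resolve_left hc0
  rw [neg_zero, zero_div, ofReal_zero] at hv2
  obtain ⟨P, hP⟩ : ∃ P, P = J t f 0 := ⟨_, rfl⟩
  obtain ⟨D, hD⟩ : ∃ D, D = deriv (J t f) 0 := ⟨_, rfl⟩
  rw [← hP] at hv2 ⊢
  rw [← hD] at huniq ⊢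
  have ht2 : ((1 / (2 * t) : ℝ) : ℂ) ≠ 0 := by
    rw [Ne, ofReal_eq_zero]
    positivity
  have h5 : D - ε * conj D = 0 := by
    have h6 : ((1 / (2 * t) : ℝ) : ℂ) * (D - ε * conj D) = 0 := by
      rw [← huniq]
      simp only [real_smul, map_mul, conj_ofReal]
      push_cast
      ring
    exact (mul_eq_zero.1 h6).resolve_left ht2
  by_cases hP0 : P = 0
  · rw [hP0, div_zero, zero_re]
  have hcP : conj P ≠ 0 := (map_ne_zero _).2 hP0
  have h7 : D / P = -conj (D / P) := by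
    rw [map_div₀]
    have h8 : D = ε * conj D := by linear_combination h5
    have h9 : P = -(ε * conj P) := by linear_combination hv2
    calc D / P = (ε * conj D) / (-(ε * conj P)) := by rw [← h8, ← h9]
      _ = -(conj D / conj P) := by field_simp
  have h10 := congrArg Complex.re h7
  rw [Complex.neg_re, Complex.conj_re] at h10
  linarith

/-- **The zeros of the heat flow on the line are simple**, `K ≤ κ₁ ℓ`. -/
theorem simp_gen {ϑ0 g X : ℝ} (hϑ0 : 0 ≤ ϑ0) (hϑ02 : ϑ0 ≤ 2) (hg : 0 < g) (hg1 : g ≤ 1) (hX : 1 ≤ X) :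
    ∃ κ1 ℓ0 : ℝ, 0 < κ1 ∧ ∀ (K ℓ G t : ℝ) (f : ℂ → ℂ), 1 ≤ K → K ≤ κ1 * ℓ → ℓ0 ≤ ℓ →
      UP K ϑ0 ℓ G f → 0 < t → 2 * ϑ0 + g ≤ 2 * t * ℓ → 2 * t * ℓ ≤ X →
      heat t f 0 = 0 → deriv (heat t f) 0 ≠ 0 := by
  have hX0 : 0 < X := by linarith
  obtain ⟨Y, hY⟩ : ∃ Y : ℝ, Y = 3 := ⟨_, rfl⟩
  obtain ⟨R, hR⟩ : ∃ R : ℝ, R = 2 * X + 2 * Y + 4 := ⟨_, rfl⟩
  obtain ⟨ζ, hζd⟩ : ∃ ζ : ℝ, ζ = g / (160 * X) := ⟨_, rfl⟩
  have hζ : 0 < ζ := by rw [hζd]; positivity
  have hζ2 : ζ * (160 * X) = g := by rw [hζd]; field_simp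
  have hζX : ζ * X = g / 160 := by linarith
  have hζg : ζ ≤ g / 160 := by
    have : ζ * 1 ≤ ζ * X := mul_le_mul_of_nonneg_left hX hζ.le
    linarith
  obtain ⟨κ, hκ⟩ : ∃ κ : ℝ, κ = g ^ 2 / (1600 * X) := ⟨_, rfl⟩
  obtain ⟨δ, hδ⟩ : ∃ δ : ℝ, δ = ζ ^ 2 * X / 2 := ⟨_, rfl⟩
  have hκp : 0 < κ := by rw [hκ]; positivity
  have hδp : 0 < δ := by rw [hδ]; positivity
  obtain ⟨κ0, hκ0d⟩ : ∃ κ0 : ℝ, κ0 = min (min (g / (400000 * X)) (δ * g / (8 * X))) (ζ * g / 16) :=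
    ⟨_, rfl⟩
  have hκ0 : 0 < κ0 := by
    rw [hκ0d]
    exact lt_min (lt_min (by positivity) (by positivity)) (by positivity)
  have hκ01 : κ0 * (400000 * X) ≤ g := by
    rw [← le_div_iff₀ (by positivity), hκ0d]
    exact (min_le_left _ _).trans (min_le_left _ _)
  have hκ02 : κ0 * (8 * X) ≤ δ * g := by
    rw [← le_div_iff₀ (by positivity), hκ0d]
    exact (min_le_left _ _).trans (min_le_right _ _)
  have hκ03 : κ0 ≤ ζ * g / 16 := by rw [hκ0d]; exact min_le_right _ _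
  obtain ⟨ℓ1, hℓ1⟩ : ∃ ℓ1 : ℝ, ∀ ℓ : ℝ, ℓ1 ≤ ℓ → 2 * ℓ / g ≤ Real.exp (δ / 8 * ℓ) := by
    have h1 : Tendsto (fun x : ℝ => Real.exp (δ / 8 * x) / x) atTop atTop := by
      have := tendsto_exp_mul_div_rpow_atTop 1 (δ / 8) (by positivity)
      simpa using this
    obtain ⟨t3, ht3⟩ := Filter.eventually_atTop.1 ((h1.eventually_ge_atTop (2 / g)).and
      (eventually_gt_atTop (0 : ℝ)))
    refine ⟨t3, fun ℓ hℓ => ?_⟩
    obtain ⟨h3, h4⟩ := ht3 ℓ hℓ
    rw [le_div_iff₀ h4] at h3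
    calc 2 * ℓ / g = 2 / g * ℓ := by ring
      _ ≤ _ := h3
  have hR1 : 1 ≤ R := by rw [hR, hY]; linarith
  refine ⟨min (1 / (96 * X)) (κ0 / (1 + 2 * R ^ 2)),
    max (max (96 * X) (8 * R / κ)) (max (max (8 / δ) (X * (30000 ^ 2 + 400 / g ^ 2)))
      (max ℓ1 (max (R / κ0) 1))), lt_min (by positivity) (by positivity), ?_⟩
  intro K ℓ G t f hK hKℓ hℓ hUP ht hL1 hL2 h0
  have g1 := (le_max_left _ _).trans hℓ
  have g2 := (le_max_right _ _).trans hℓ
  have k1 := (le_max_left _ _).trans g1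
  have k2 := (le_max_right _ _).trans g1
  have k3 := (le_max_left _ _).trans ((le_max_left _ _).trans g2)
  have k4 := (le_max_right _ _).trans ((le_max_left _ _).trans g2)
  have k5 := (le_max_left _ _).trans ((le_max_right _ _).trans g2)
  have k6 := (le_max_left _ _).trans ((le_max_right _ _).trans ((le_max_right _ _).trans g2))
  have k7 := (le_max_right _ _).trans ((le_max_right _ _).trans ((le_max_right _ _).trans g2))
  rw [div_le_iff₀ hκp] at k2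
  rw [div_le_iff₀ hδp] at k3
  rw [div_le_iff₀ hκ0] at k6
  have hℓ0 : 0 < ℓ := by linarith
  have hG : 0 < G := hUP.hG
  have hK96 : 96 * X * K ≤ ℓ := by
    have h1 : K ≤ 1 / (96 * X) * ℓ := hKℓ.trans (mul_le_mul_of_nonneg_right (min_le_left _ _) hℓ0.le)
    rw [one_div, inv_mul_eq_div, le_div_iff₀ (by positivity)] at h1
    linarith
  have hKκ : K * (1 + 2 * R ^ 2) ≤ κ0 * ℓ := by
    have h1 : K ≤ κ0 / (1 + 2 * R ^ 2) * ℓ :=
      hKℓ.trans (mul_le_mul_of_nonneg_right (min_le_right _ _) hℓ0.le)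
    rw [div_mul_eq_mul_div, le_div_iff₀ (by positivity)] at h1
    exact h1
  have hK16 : 16 * X * (2 * K + 1) ≤ ℓ := by nlinarith
  have hK8 : 8 * X * (2 * K + 1) ≤ ℓ := by nlinarith
  have hUD := hUP.toUD
  have hPf : Pf κ0 ϑ0 (2 * X + 2 * Y + 4) ℓ G f := by
    rw [← hR]
    exact hUP.pf (by linarith) hϑ0 hKκ
  have hgL : g ≤ 2 * t * ℓ := by linarith
  -- the bounds for `J`
  have hlow : ∀ a : ℂ, |a.im| ≤ ζ * ℓ → 2 * t * a.re ≤ 3 → -(ζ * ℓ) ≤ a.re →
      G * Real.exp (t * (ℓ + a.re) ^ 2 - ζ ^ 2 * X * ℓ) ≤ ‖J t f a‖ := by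
    intro a ha1 ha2 ha3
    refine Pool.Agent.W736.HF2.core sadl hK hϑ02 hϑ0 (by linarith) hg hg1 hX (Y := Y) (by rw [hY])
      hζ hζ2.le hκ hδ hκ0 hκ01 hκ02 hUD hPf ht hgL hL2 hK16 (by rw [← hR]; linarith) (by linarith)
      k4 (hℓ1 ℓ k5) a ha1 (by rw [hY]; exact ha2) ?_
    have c3 : -(ζ * (2 * t * ℓ)) ≤ 2 * t * a.re := by
      have := mul_le_mul_of_nonneg_left ha3 (by positivity : (0 : ℝ) ≤ 2 * t)
      linarith only [this]
    have c4 : ζ * (2 * t * ℓ) ≤ ζ * X := mul_le_mul_of_nonneg_left hL2 hζ.le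
    linarith only [c3, c4, hζX, hL1, hg]
  have hupp : ∀ α : ℝ, 2 * t * α ≤ 3 → -(g / 64 * ℓ) ≤ α →
      IntegrableOn (fun r : ℝ => Real.exp (-(r ^ 2 / (4 * t)) + α * r) * ‖f r‖) (Ioi 0) ∧
      ∫ r in Ioi (0 : ℝ), Real.exp (-(r ^ 2 / (4 * t)) + α * r) * ‖f r‖ ≤
        G * Real.exp (t * (ℓ + α) ^ 2 + 2 * κ0 * ℓ) := by
    intro α ha1 ha2
    exact ju' hK hϑ02 hϑ0 (by linarith) hg hg1 hX (Y := Y) (by rw [hY]) hκ0 hK8
      (by rw [← hR]; linarith) k7 hUD hPf ht hL2 (by rw [hY]; exact ha1) (Or.inl ⟨hL1, ha2⟩)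
  obtain ⟨ε, hε, hfe⟩ := hUD.fe
  have hb1 : 2 * t * (ζ * ℓ) ≤ 3 := by
    have : 2 * t * (ζ * ℓ) = ζ * (2 * t * ℓ) := by ring
    rw [this]
    have h5 : ζ * (2 * t * ℓ) ≤ ζ * X := mul_le_mul_of_nonneg_left hL2 hζ.le
    linarith
  have hb2 : ζ * ℓ ≤ g / 64 * ℓ := mul_le_mul_of_nonneg_right (by linarith) hℓ0.le
  have hzX : ζ ^ 2 * X = ζ * (g / 160) := by
    have : ζ ^ 2 * X = ζ * (ζ * X) := by ring
    rw [this, hζX]
  have hLζ : ζ * g ≤ ζ * (2 * t * ℓ) := mul_le_mul_of_nonneg_left hgL hζ.le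
  have hζg0 : 0 < ζ * g := by positivity
  have hball : ∀ z ∈ Metric.ball (0 : ℂ) (ζ * ℓ), |z.re| ≤ ζ * ℓ ∧ |z.im| ≤ ζ * ℓ := by
    intro z hz
    rw [mem_ball_zero_iff] at hz
    exact ⟨(Complex.abs_re_le_norm z).trans hz.le, (Complex.abs_im_le_norm z).trans hz.le⟩
  have hlow' : ∀ z ∈ Metric.ball (0 : ℂ) (ζ * ℓ),
      G * Real.exp (t * (ℓ + z.re) ^ 2 - ζ ^ 2 * X * ℓ) ≤ ‖J t f z‖ := by
    intro z hz
    obtain ⟨b1, b2⟩ := hball z hz
    rw [abs_le] at b1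
    refine hlow z b2 ?_ b1.1
    have : 2 * t * z.re ≤ 2 * t * (ζ * ℓ) := mul_le_mul_of_nonneg_left b1.2 (by positivity)
    linarith
  have hne : ∀ z ∈ Metric.ball (0 : ℂ) (ζ * ℓ), J t f z ≠ 0 := by
    intro z hz
    exact norm_pos_iff.1 (lt_of_lt_of_le (by positivity) (hlow' z hz))
  have hpos := logder_pos (J := J t f) (r := ζ * ℓ) (A := 4 * t * ℓ)
    (M := (2 * κ0 + ζ ^ 2 * X) * ℓ) (by positivity) (by positivity)
    (fun z _ => W327.HF.J_diff hUD.slow ht z) hne ?_ ?_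
  · intro hder
    rw [re_zero hUD.slow hε hfe ht h0 hder] at hpos
    exact lt_irrefl _ hpos
  · intro z hz
    have hz' : -z ∈ Metric.ball (0 : ℂ) (ζ * ℓ) := by
      rw [mem_ball_zero_iff] at hz ⊢
      rwa [norm_neg]
    obtain ⟨b1, b2⟩ := hball z hz
    rw [abs_le] at b1
    have q1 := (W327.HF.J_norm_le (t := t) (f := f) z).trans (hupp z.re (by
      have : 2 * t * z.re ≤ 2 * t * (ζ * ℓ) := mul_le_mul_of_nonneg_left b1.2 (by positivity)
      linarith) (by linarith)).2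
    have q2 := hlow' (-z) hz'
    rw [Complex.neg_re] at q2
    calc ‖J t f z‖ ≤ G * Real.exp (t * (ℓ + z.re) ^ 2 + 2 * κ0 * ℓ) := q1
      _ = Real.exp (4 * t * ℓ * z.re + (2 * κ0 + ζ ^ 2 * X) * ℓ) *
            (G * Real.exp (t * (ℓ + -z.re) ^ 2 - ζ ^ 2 * X * ℓ)) := by
          rw [mul_left_comm, ← Real.exp_add]
          congr 2; ring
      _ ≤ _ := by gcongr
  · have e : 4 * t * ℓ * (ζ * ℓ) = 2 * (ζ * (2 * t * ℓ)) * ℓ := by ring
    rw [e]
    have e2 : 4 * ((2 * κ0 + ζ ^ 2 * X) * ℓ) = (4 * (2 * κ0 + ζ ^ 2 * X)) * ℓ := by ring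
    rw [e2]
    refine mul_lt_mul_of_pos_right ?_ hℓ0
    rw [hzX]
    linarith

theorem simp : Pool.Agent.TH839.UH.S_SIMP := by
  obtain ⟨κ1, ℓ0, h1, h2⟩ := simp_gen (ϑ0 := 1 / 2) (g := 1 / 2) (X := 3) (by norm_num) (by norm_num)
    (by norm_num) (by norm_num) (by norm_num)
  refine ⟨κ1, ℓ0, h1, fun K ℓ G t f hK hKℓ hℓ hUP ht hL => ?_⟩
  exact h2 K ℓ G t f hK hKℓ hℓ hUP ht (by rw [hL]; norm_num) (by rw [hL])

end Pool.Agent.TH921.SIMP
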