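import Pool.Agent.TH279.UP.Defs3

set_option autoImplicit false

/-! Root counting with multiplicities on the dual of the Fermat hypersurface. -/

open MvPolynomial Pool.Agent.TH279.UP

namespace Pool.Agent.TH921.J3471

noncomputable section

/-- the derivative through `finSuccEquiv` -/
theorem fse_pderiv (N : ℕ) (f : MvPolynomial (Fin (N + 1)) ℂ) :
    finSuccEquiv ℂ N (pderiv 0 f) = Polynomial.derivative (finSuccEquiv ℂ N f) := by
  induction f using MvPolynomial.induction_on with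
  | C a =>
    rw [pderiv_C, map_zero]
    have : finSuccEquiv ℂ N (C a) = Polynomial.C (C a) := by
      simp [finSuccEquiv_apply]
    rw [this, Polynomial.derivative_C]
  | add p q hp hq => rw [map_add, map_add, hp, hq, map_add, map_add]
  | mul_X p i hp =>
    rw [Derivation.leibniz, smul_eq_mul, smul_eq_mul, map_add, map_mul, map_mul, map_mul,
      Polynomial.derivative_mul, hp]
    have hX : finSuccEquiv ℂ N (pderiv 0 (X i : MvPolynomial (Fin (N + 1)) ℂ)) =
        Polynomial.derivative (finSuccEquiv ℂ N (X i)) := by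
      refine Fin.cases ?_ (fun j => ?_) i
      · rw [pderiv_X_self, map_one, finSuccEquiv_X_zero, Polynomial.derivative_X]
      · rw [pderiv_X_of_ne (Fin.succ_ne_zero j), map_zero, finSuccEquiv_X_succ,
          Polynomial.derivative_C]
    rw [hX]
    ring

theorem fse_iter (N k : ℕ) (f : MvPolynomial (Fin (N + 1)) ℂ) :
    finSuccEquiv ℂ N ((pderiv 0)^[k] f) = Polynomial.derivative^[k] (finSuccEquiv ℂ N f) := by
  induction k with
  | zero => rfl
  | succ k ih => rw [Function.iterate_succ_apply', Function.iterate_succ_apply', fse_pderiv, ih]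

/-- the specialised polynomial -/
def spec {N : ℕ} (R : MvPolynomial (Fin (N + 1)) ℂ) (a : Fin N → ℂ) : Polynomial ℂ :=
  (finSuccEquiv ℂ N R).map (eval a)

theorem spec_natDegree {N : ℕ} (R : MvPolynomial (Fin (N + 1)) ℂ) (a : Fin N → ℂ) :
    (spec R a).natDegree ≤ R.totalDegree := by
  unfold spec
  refine (Polynomial.natDegree_map_le).trans ?_
  rw [natDegree_finSuccEquiv]
  exact degreeOf_le_totalDegree R 0

theorem spec_iter {N : ℕ} (R : MvPolynomial (Fin (N + 1)) ℂ) (a : Fin N → ℂ) (k : ℕ) (s : ℂ) :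
    (Polynomial.derivative^[k] (spec R a)).eval s = eval (Fin.cons s a) ((pderiv 0)^[k] R) := by
  rw [eval_eq_eval_mv_eval', fse_iter]
  unfold spec
  rw [Polynomial.iterate_derivative_map]

/-- a multiset count -/
theorem count_roots (p : Polynomial ℂ) (hp : p ≠ 0) (δ : ℕ) (S : Finset ℂ)
    (h : ∀ s ∈ S, ∀ k < δ, (Polynomial.derivative^[k] p).eval s = 0) :
    δ * S.card ≤ p.natDegree := by
  rcases Nat.eq_zero_or_pos δ with rfl | hδ
  · simp
  have h1 : δ • S.val ≤ p.roots := by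
    rw [Multiset.le_iff_count]
    intro s
    rw [Multiset.count_nsmul, Polynomial.count_roots]
    by_cases hs : s ∈ S
    · have h2 : δ - 1 < p.rootMultiplicity s := by
        rw [Polynomial.lt_rootMultiplicity_iff_isRoot_iterate_derivative hp]
        intro m hm
        exact h s hs m (by omega)
      rw [Multiset.count_eq_one_of_mem S.nodup (by exact hs)]
      omega
    · rw [Multiset.count_eq_zero_of_notMem (by exact hs)]
      simp
  have h3 := Multiset.card_le_card h1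
  rw [Multiset.card_nsmul] at h3
  exact h3.trans p.card_roots'

/-- the roots of unity extended by `1` -/
def ex {n e : ℕ} (ζ : Fin n → rootsOfUnity e ℂ) : Fin (n + 1) → ℂ :=
  Fin.snoc (α := fun _ => ℂ) (fun i => ((ζ i : ℂˣ) : ℂ)) 1

theorem ex_pow {n e : ℕ} (ζ : Fin n → rootsOfUnity e ℂ) (i : Fin (n + 1)) : ex ζ i ^ e = 1 := by
  unfold ex
  refine Fin.lastCases ?_ (fun j => ?_) i
  · rw [Fin.snoc_last, one_pow]
  · rw [Fin.snoc_castSucc]
    have := (mem_rootsOfUnity' e _).1 (ζ j).2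
    exact this

/-- the linear form in the `d`-th powers -/
def TP {n e : ℕ} (d : ℕ) (ζ : Fin n → rootsOfUnity e ℂ) : MvPolynomial (Fin (n + 1)) ℂ :=
  ∑ i, C (ex ζ i) * X i ^ d

theorem eval_TP {n e : ℕ} (d : ℕ) (ζ : Fin n → rootsOfUnity e ℂ) (α : Fin (n + 1) → ℂ) :
    eval α (TP d ζ) = ∑ i, ex ζ i * α i ^ d := by
  unfold TP
  simp

theorem TP_ne {n e : ℕ} (d : ℕ) (hd : 1 ≤ d) (ζ : Fin n → rootsOfUnity e ℂ) : TP d ζ ≠ 0 := by
  intro h
  have h1 := eval_TP d ζ (Pi.single (Fin.last n) 1)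
  rw [h, map_zero, Finset.sum_eq_single (Fin.last n)] at h1
  · unfold ex at h1
    rw [Fin.snoc_last] at h1
    simp at h1
  · intro j _ hj
    rw [Pi.single_eq_of_ne hj, zero_pow (by omega), mul_zero]
  · simp

theorem TP_pow_ne {n : ℕ} (d : ℕ) (hd : 2 ≤ d) (ζ ζ' : Fin n → rootsOfUnity (d - 1) ℂ)
    (hne : ζ ≠ ζ') : TP d ζ ^ (d - 1) - TP d ζ' ^ (d - 1) ≠ 0 := by
  obtain ⟨i, hi⟩ : ∃ i, ζ i ≠ ζ' i := by
    by_contra hcon
    push Not at hcon
    exact hne (funext hcon)
  intro h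
  obtain ⟨w, hw⟩ := IsAlgClosed.exists_pow_nat_eq (-((ζ' i : ℂˣ) : ℂ)) (by omega : 0 < d)
  set α : Fin (n + 1) → ℂ := Fin.snoc (α := fun _ => ℂ) (Pi.single i 1) w with hα
  have key : ∀ ξ : Fin n → rootsOfUnity (d - 1) ℂ, eval α (TP d ξ) =
      ((ξ i : ℂˣ) : ℂ) - ((ζ' i : ℂˣ) : ℂ) := by
    intro ξ
    rw [eval_TP, Fin.sum_univ_castSucc]
    unfold ex
    rw [hα]
    simp only [Fin.snoc_castSucc, Fin.snoc_last]
    rw [Finset.sum_eq_single i]
    · rw [Pi.single_eq_same, hw]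
      ring
    · intro j _ hj
      rw [Pi.single_eq_of_ne hj, zero_pow (by omega), mul_zero]
    · simp
  have h1 := congrArg (eval α) h
  rw [map_sub, map_pow, map_pow, map_zero, key, key, sub_self, zero_pow (by omega), sub_zero] at h1
  have h2 := pow_eq_zero_iff (by omega : d - 1 ≠ 0) |>.1 h1
  rw [sub_eq_zero] at h2
  apply hi
  apply Subtype.ext
  apply Units.ext
  exact h2

theorem FERMATD : S_FERMATD := by
  intro n d δ r R hn hd hRr hr hvan
  by_contra hR
  -- the leading coefficient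
  set p := finSuccEquiv ℂ (n + 1) R with hp
  have hp0 : p ≠ 0 := by
    rw [hp]
    exact (map_ne_zero_iff _ (finSuccEquiv ℂ (n + 1)).injective).2 hR
  set c : MvPolynomial (Fin (n + 1)) ℂ := p.leadingCoeff with hc
  have hc0 : c ≠ 0 := Polynomial.leadingCoeff_ne_zero.2 hp0
  set sub : Fin (n + 1) → MvPolynomial (Fin (n + 1)) ℂ := fun i => C (d : ℂ) * X i ^ (d - 1)
    with hsub
  set c' : MvPolynomial (Fin (n + 1)) ℂ := aeval sub c with hc'
  have hc'eval : ∀ α : Fin (n + 1) → ℂ, eval α c' = eval (fun i => (d : ℂ) * α i ^ (d - 1)) c := by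
    intro α
    rw [hc', ← coe_aeval_eq_eval, ← coe_aeval_eq_eval]
    simp only [RingHom.coe_coe]
    rw [← AlgHom.comp_apply, comp_aeval]
    congr 2
    funext i
    simp [hsub]
  have hdC : (d : ℂ) ≠ 0 := by exact_mod_cast (by omega : d ≠ 0)
  have hc'0 : c' ≠ 0 := by
    intro h
    apply hc0
    apply MvPolynomial.funext
    intro a
    have : ∀ i, ∃ w : ℂ, w ^ (d - 1) = a i / d := fun i =>
      IsAlgClosed.exists_pow_nat_eq _ (by omega : 0 < d - 1)
    choose α hα using this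
    have h1 := hc'eval α
    rw [h, map_zero] at h1
    rw [map_zero]
    rw [h1]
    congr 2
    funext i
    rw [hα]
    field_simp
  have hz1 : NeZero (d - 1) := ⟨by omega⟩
  have hz : NeZero d := ⟨by omega⟩
  have hf1 : Finite (rootsOfUnity (d - 1) ℂ) :=
    Nat.finite_of_card_ne_zero (by rw [Complex.card_rootsOfUnity]; omega)
  have hf : Finite (rootsOfUnity d ℂ) :=
    Nat.finite_of_card_ne_zero (by rw [Complex.card_rootsOfUnity]; omega)
  let _ : Fintype (rootsOfUnity (d - 1) ℂ) := Fintype.ofFinite _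
  let _ : Fintype (rootsOfUnity d ℂ) := Fintype.ofFinite _
  classical
  set Q : MvPolynomial (Fin (n + 1)) ℂ := c' *
    (∏ ζ : Fin n → rootsOfUnity (d - 1) ℂ, TP d ζ) *
    ∏ q : (Fin n → rootsOfUnity (d - 1) ℂ) × (Fin n → rootsOfUnity (d - 1) ℂ),
      if q.1 = q.2 then 1 else (TP d q.1 ^ (d - 1) - TP d q.2 ^ (d - 1)) with hQ
  have hQ0 : Q ≠ 0 := by
    rw [hQ]
    refine mul_ne_zero (mul_ne_zero hc'0 ?_) ?_
    · exact Finset.prod_ne_zero_iff.2 fun ζ _ => TP_ne d (by omega) ζ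
    · refine Finset.prod_ne_zero_iff.2 fun q _ => ?_
      split_ifs with h
      · exact one_ne_zero
      · exact TP_pow_ne d hd _ _ h
  obtain ⟨α, hα⟩ : ∃ α, eval α Q ≠ 0 := by
    by_contra hcon
    push Not at hcon
    exact hQ0 (MvPolynomial.funext fun a => by rw [hcon a, map_zero])
  rw [hQ, map_mul, map_mul, map_prod, map_prod] at hα
  have hα1 : eval α c' ≠ 0 := left_ne_zero_of_mul (left_ne_zero_of_mul hα)
  have hα2 : ∀ ζ : Fin n → rootsOfUnity (d - 1) ℂ, eval α (TP d ζ) ≠ 0 := fun ζ =>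
    (Finset.prod_ne_zero_iff.1 (right_ne_zero_of_mul (left_ne_zero_of_mul hα))) ζ
      (Finset.mem_univ _)
  have hα3 : ∀ ζ ζ' : Fin n → rootsOfUnity (d - 1) ℂ, ζ ≠ ζ' →
      eval α (TP d ζ) ^ (d - 1) ≠ eval α (TP d ζ') ^ (d - 1) := by
    intro ζ ζ' hne h
    have h1 := (Finset.prod_ne_zero_iff.1 (right_ne_zero_of_mul hα)) (ζ, ζ') (Finset.mem_univ _)
    rw [if_neg hne, map_sub, map_pow, map_pow, h, sub_self] at h1
    exact h1 rfl
  set a : Fin (n + 1) → ℂ := fun i => (d : ℂ) * α i ^ (d - 1) with ha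
  have hspec0 : spec R a ≠ 0 := by
    intro h
    have h1 : (spec R a).coeff p.natDegree = 0 := by rw [h, Polynomial.coeff_zero]
    unfold spec at h1
    rw [Polynomial.coeff_map, ← hp] at h1
    rw [hc'eval α] at hα1
    exact hα1 h1
  -- the roots
  have hw : ∀ ζ : Fin n → rootsOfUnity (d - 1) ℂ, ∃ w : ℂ, w ^ d = - eval α (TP d ζ) := fun ζ =>
    IsAlgClosed.exists_pow_nat_eq _ (by omega : 0 < d)
  choose w hw using hw
  set Φ : (Fin n → rootsOfUnity (d - 1) ℂ) × rootsOfUnity d ℂ → ℂ := fun q =>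
    (d : ℂ) * (((q.2 : ℂˣ) : ℂ) * w q.1) ^ (d - 1) with hΦ
  have hη : ∀ η : rootsOfUnity d ℂ, ((η : ℂˣ) : ℂ) ^ d = 1 := fun η =>
    (mem_rootsOfUnity' d _).1 η.2
  have hx0d : ∀ q : (Fin n → rootsOfUnity (d - 1) ℂ) × rootsOfUnity d ℂ,
      (((q.2 : ℂˣ) : ℂ) * w q.1) ^ d = - eval α (TP d q.1) := by
    intro q
    rw [mul_pow, hη, one_mul, hw]
  have hx0 : ∀ q : (Fin n → rootsOfUnity (d - 1) ℂ) × rootsOfUnity d ℂ,
      ((q.2 : ℂˣ) : ℂ) * w q.1 ≠ 0 := by
    intro q h
    have := hx0d q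
    rw [h, zero_pow (by omega)] at this
    exact hα2 q.1 (by
      have h2 := neg_eq_zero.1 this.symm
      exact h2)
  have hd1 : d - 1 + 1 = d := by omega
  have hΦinj : Function.Injective Φ := by
    intro q q' h
    have hpow : ∀ q, Φ q ^ d = (d : ℂ) ^ d * (-1) ^ (d - 1) * eval α (TP d q.1) ^ (d - 1) := by
      intro q
      simp only [hΦ]
      rw [mul_pow, ← pow_mul, mul_comm (d - 1) d, pow_mul, hx0d, neg_pow]
      ring
    have h1 : q.1 = q'.1 := by
      by_contra hne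
      apply hα3 q.1 q'.1 hne
      have h2 := hpow q
      rw [h, hpow q'] at h2
      have h3 : (d : ℂ) ^ d * (-1) ^ (d - 1) ≠ 0 :=
        mul_ne_zero (pow_ne_zero _ hdC) (pow_ne_zero _ (by norm_num))
      exact (mul_left_cancel₀ h3 h2).symm
    have hmul : ∀ q, Φ q * (((q.2 : ℂˣ) : ℂ) * w q.1) = - (d * eval α (TP d q.1)) := by
      intro q
      simp only [hΦ]
      rw [mul_assoc, ← pow_succ, hd1, hx0d]
      ring
    have hΦ0 : Φ q ≠ 0 := by
      simp only [hΦ]
      exact mul_ne_zero hdC (pow_ne_zero _ (hx0 q))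
    have h4 : ((q.2 : ℂˣ) : ℂ) * w q.1 = ((q'.2 : ℂˣ) : ℂ) * w q'.1 := by
      apply mul_left_cancel₀ hΦ0
      rw [hmul q, h, hmul q', h1]
    have hw0 : w q.1 ≠ 0 := right_ne_zero_of_mul (hx0 q)
    rw [← h1] at h4
    have h5 := mul_right_cancel₀ hw0 h4
    exact Prod.ext h1 (Subtype.ext (Units.ext h5))
  set S : Finset ℂ := Finset.univ.image Φ with hS
  have hScard : S.card = d * (d - 1) ^ n := by
    rw [hS, Finset.card_image_of_injective _ hΦinj, Finset.card_univ, Fintype.card_prod,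
      Fintype.card_fun, Fintype.card_fin]
    have e1 := Complex.card_rootsOfUnity (d - 1)
    have e2 := Complex.card_rootsOfUnity d
    rw [Nat.card_eq_fintype_card] at e1 e2
    rw [e1, e2, mul_comm]
  have hroots : ∀ s ∈ S, ∀ k < δ, (Polynomial.derivative^[k] (spec R a)).eval s = 0 := by
    intro s hs k hk
    obtain ⟨q, _, rfl⟩ := Finset.mem_image.1 hs
    rw [spec_iter]
    set x0 : ℂ := ((q.2 : ℂˣ) : ℂ) * w q.1 with hx0def
    have h1 := hvan k hk (Fin.cons x0 (fun i => ex q.1 i * α i)) (by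
        rw [Fin.cons_zero]; exact hx0 q) (by
        rw [Fin.sum_univ_succ, Fin.cons_zero, hx0d q, eval_TP]
        simp only [Fin.cons_succ]
        rw [neg_add_eq_zero]
        refine Finset.sum_congr rfl fun i _ => ?_
        have e1 : ex q.1 i ^ d = ex q.1 i := by
          calc ex q.1 i ^ d = ex q.1 i ^ (d - 1 + 1) := congrArg _ hd1.symm
            _ = ex q.1 i := by rw [pow_succ, ex_pow, one_mul]
        rw [mul_pow, e1])
    rw [← h1]
    congr 2
    funext i
    refine Fin.cases ?_ (fun j => ?_) i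
    · rw [Fin.cons_zero, Fin.cons_zero]
    · rw [Fin.cons_succ, Fin.cons_succ, mul_pow, ex_pow, one_mul]
  have hfin := count_roots (spec R a) hspec0 δ S hroots
  rw [hScard] at hfin
  have := spec_natDegree R a
  omega

end

end Pool.Agent.TH921.J3471
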