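import Pool.Agent.TH614.HS.Base

/-! Project HS, piece EX (job 3905): every generator has a simple circle root of the first kind. -/

set_option autoImplicit false

namespace Pool.Agent.TH921.J3905

open Pool.Agent.TH614.HS

section
variable {L : Type} [Field L] {D : HD L}

lemma circ_inv {S : L} (h : D.circ S) : D.circ S⁻¹ := by
  unfold HD.circ at *
  rw [inv_pow, h, inv_one]

lemma circ_sq {S : L} (h : D.circ S) : D.circ (S ^ 2) := by
  unfold HD.circ at *
  rw [← pow_mul, mul_comm, pow_mul, h, one_pow]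

lemma half (D : HD L) : 2 * ((D.q + 1) / 2) = D.q + 1 := by
  have := D.h4
  omega

lemma half_odd (D : HD L) : Odd ((D.q + 1) / 2) := by
  have := D.h4
  rw [Nat.odd_iff]
  omega

lemma Nm_pow {S : L} (h : D.circ S) : D.Nm S ^ (D.q + 1) = 1 := by
  unfold HD.Nm
  unfold HD.circ at h
  rw [← pow_mul]
  have e : (1 + D.q ^ 2 + D.q ^ 4) * (D.q + 1) = (D.q ^ 3 + 1) * (D.q ^ 2 + D.q + 1) := by ring
  rw [e, pow_mul, h, one_pow]

lemma Nm_sq (S : L) : D.Nm (S ^ 2) = D.Nm S ^ 2 := by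
  unfold HD.Nm
  rw [← pow_mul, ← pow_mul, mul_comm]

lemma Nm_sq_pow {S : L} (h : D.circ S) : D.Nm (S ^ 2) ^ ((D.q + 1) / 2) = 1 := by
  rw [Nm_sq, ← pow_mul, half, Nm_pow h]

lemma alg {T x T3 x3 T2 x2 T5 x5 T4 x4 T1 x1 : L} (b1 : T * T3 = 1) (b2 : T2 * T5 = 1)
    (b3 : T4 * T1 = 1) (he : x * x3 + x2 * x5 + x4 * x1 = 0) :
    T * x * (T3 * x3) + T2 * x2 * (T5 * x5) + T4 * x4 * (T1 * x1) = 0 := by
  linear_combination he + x * x3 * b1 + x2 * x5 * b2 + x4 * x1 * b3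

lemma isL_mul {S x : L} (hS : D.circ S) (hx : D.isL x) : D.isL (S ^ 2 * x) := by
  obtain ⟨h0, h6, he⟩ := hx
  have hT := circ_sq hS
  have hTne := hT.ne
  have hT3 := hT.inv
  generalize S ^ 2 = T at hT hTne hT3
  have hT6 : T ^ (D.q ^ 6) = T := by
    have h := D.pp T 3 3
    rw [hT3, inv_pow, hT3, inv_inv] at h
    exact h.symm
  have b1 : T * T ^ (D.q ^ 3) = 1 := by rw [hT3, mul_inv_cancel₀ hTne]
  have b2 : T ^ (D.q ^ 2) * T ^ (D.q ^ 5) = 1 := by
    have h := D.pp T 3 2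
    have h' : T ^ (D.q ^ 5) = (T ^ (D.q ^ 3)) ^ (D.q ^ 2) := h.symm
    rw [h', ← mul_pow, b1, one_pow]
  have b3 : T ^ (D.q ^ 4) * T ^ D.q = 1 := by
    have h := D.pq T 3
    have h' : T ^ (D.q ^ 4) = (T ^ (D.q ^ 3)) ^ D.q := h.symm
    rw [h', ← mul_pow, mul_comm _ T, b1, one_pow]
  refine ⟨mul_ne_zero hTne h0, ?_, ?_⟩
  · rw [mul_pow, hT6, h6]
  · rw [mul_pow, mul_pow, mul_pow, mul_pow, mul_pow]
    exact alg b1 b2 b3 he

/-- the generators attached to `S` -/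
def LS (D : HD L) (S : L) : Set L := {x | D.isL x ∧ PiN D (D.Nm S) (S ^ 2 * x)}

lemma LS_card [IsAlgClosed L] (hCS : S_CS) {S : L} (hS : D.circ S) :
    (LS D S).ncard = D.q ^ 2 - 1 := by
  have h := hCS L D (D.Nm S) (Nm_pow hS)
  have hne := hS.ne
  have hinj : Function.Injective (fun x : L => S ^ 2 * x) := fun a b hab =>
    mul_left_cancel₀ (pow_ne_zero _ hne) hab
  rw [← h, ← Set.ncard_image_of_injective (LS D S) hinj]
  congr 1
  ext y
  constructor
  · rintro ⟨x, ⟨hx, hp⟩, rfl⟩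
    exact ⟨isL_mul hS hx, hp⟩
  · rintro ⟨hy, hp⟩
    have e : S ^ 2 * ((S⁻¹) ^ 2 * y) = y := by field_simp
    refine ⟨(S⁻¹) ^ 2 * y, ⟨isL_mul (circ_inv hS) hy, ?_⟩, e⟩
    rw [e]
    exact hp

lemma noram [IsAlgClosed L] (hRAM : S_RAM) {x s mu eta : L} (hx : D.isL x)
    (hm : D.Nm s ^ ((D.q + 1) / 2) = 1) (hr : D.RD x s mu eta) : mu + D.th * eta ≠ 0 := by
  intro h0
  obtain ⟨be, g, ep, hR⟩ := hRAM L D x s mu eta hx hr h0
  have hN : D.Nm s = -1 := hR.2.2.2.2.1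
  rw [hN, (half_odd D).neg_one_pow] at hm
  exact D.two_ne (by linear_combination -hm)

lemma disj [IsAlgClosed L] (hCR : S_CR) (hRT : S_RT) (hEPS : S_EPS) (hC4 : S_C4)
    (hCROSS : S_CROSS) (hRAM : S_RAM) {x S S' : L} (hx : D.isL x) (hS : D.circ S)
    (hS' : D.circ S') (hne : S ≠ S') (h : PiN D (D.Nm S) (S ^ 2 * x))
    (h' : PiN D (D.Nm S') (S' ^ 2 * x)) : False := by
  by_cases hneg : S' = -S
  · subst hneg
    have hodd : Odd (1 + D.q ^ 2 + D.q ^ 4) := by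
      have h2 : Odd (D.q ^ 2) := D.qodd.pow
      have h4 : Odd (D.q ^ 4) := D.qodd.pow
      exact (odd_one.add_odd h2).add_odd h4
    have hN : D.Nm (-S) = -D.Nm S := hodd.neg_pow S
    rw [hN, neg_sq] at h'
    have hy : S ^ 2 * x ≠ 0 := mul_ne_zero (pow_ne_zero _ hS.ne) hx.1
    have h5 := Nm_pow hS
    unfold PiN at h h'
    generalize D.Nm S = n at h h' h5
    generalize S ^ 2 * x = y at h h' hy
    have h4 : 4 * (n ^ 2 + 1) * y = 0 := by linear_combination h + h'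
    have hn2 : n ^ 2 = -1 := by
      rcases mul_eq_zero.1 h4 with h6 | h6
      · rcases mul_eq_zero.1 h6 with h7 | h7
        · exact absurd h7 D.four_ne
        · linear_combination h7
      · exact absurd h6 hy
    rw [← half, pow_mul, hn2, (half_odd D).neg_one_pow] at h5
    exact D.two_ne (by linear_combination -h5)
  · have hss : S ^ 2 ≠ S' ^ 2 := by
      intro h2
      rcases sq_eq_sq_iff_eq_or_eq_neg.1 h2 with h3 | h3
      · exact hne h3
      · exact hneg (by rw [h3, neg_neg])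
    have hc := circ_sq hS
    have hc' := circ_sq hS'
    have e1 := hCR L D x S hx hS h
    have e2 := hCR L D x S' hx hS' h'
    obtain ⟨mu, eta, r1⟩ := (hRT L D x (S ^ 2) hx).1 e1
    obtain ⟨mu', eta', r2⟩ := (hRT L D x (S' ^ 2) hx).1 e2
    have m1 := Nm_sq_pow hS
    have m2 := Nm_sq_pow hS'
    have n1 := noram hRAM hx m1 r1
    have n2 := noram hRAM hx m2 r2
    obtain ⟨ep, p1⟩ := hEPS L D x (S ^ 2) mu eta hx hc r1
    obtain ⟨ep', p2⟩ := hEPS L D x (S' ^ 2) mu' eta' hx hc' r2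
    have c4 := hC4 L D x (S ^ 2) mu eta ep (S' ^ 2) mu' eta' ep' hx hc hc' hss r1 r2 n1 p1 p2
    have cc := hCROSS L D x (S ^ 2) mu eta ep (S' ^ 2) mu' eta' ep' hx hc hc' r1 r2 n1 n2 p1 p2
    rw [mul_pow, m1, m2, ← cc] at c4
    have h1 : ep * ep = 1 := by
      rcases p1.1 with h | h <;> rw [h] <;> ring
    rw [h1] at c4
    exact D.two_ne (by linear_combination c4)

end

theorem EX : S_CS → S_CR → S_NL → S_RT → S_EPS → S_C4 → S_CROSS → S_RAM → S_EX := by
  intro hCS hCR hNL hRT hEPS hC4 hCROSS hRAM L _ _ D x hx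
  classical
  obtain ⟨hn1, hn2⟩ := hNL L D
  have hq5 := D.h5
  have hq2 : 0 < D.q ^ 2 - 1 := by
    have : 5 ^ 2 ≤ D.q ^ 2 := Nat.pow_le_pow_left hq5 2
    omega
  have hfU : {x : L | D.isL x}.Finite := by
    apply Set.finite_of_ncard_ne_zero
    rw [hn1]
    positivity
  have hfC : {s : L | D.circ s}.Finite := by
    apply Set.finite_of_ncard_ne_zero
    rw [hn2]
    positivity
  have hsub : ∀ S, LS D S ⊆ {x : L | D.isL x} := fun S x hx => hx.1
  have hfL : ∀ S, (LS D S).Finite := fun S => hfU.subset (hsub S)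
  have hcard : (hfC.toFinset.biUnion fun S => (hfL S).toFinset).card =
      (D.q ^ 2 - 1) * (D.q ^ 3 + 1) := by
    rw [Finset.card_biUnion]
    · rw [Finset.sum_congr rfl (g := fun _ => D.q ^ 2 - 1) fun S hS => by
        rw [← Set.ncard_eq_toFinset_card _ (hfL S)]
        exact LS_card hCS (hfC.mem_toFinset.1 hS)]
      rw [Finset.sum_const, smul_eq_mul, ← Set.ncard_eq_toFinset_card _ hfC, hn2, mul_comm]
    · intro S hS S' hS' hne
      rw [Function.onFun, Finset.disjoint_left]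
      intro a ha ha'
      rw [Set.Finite.mem_toFinset] at ha ha'
      exact disj hCR hRT hEPS hC4 hCROSS hRAM ha.1 (hfC.mem_toFinset.1 hS)
        (hfC.mem_toFinset.1 hS') hne ha.2 ha'.2
  have heq : (hfC.toFinset.biUnion fun S => (hfL S).toFinset) = hfU.toFinset := by
    apply Finset.eq_of_subset_of_card_le
    · intro a ha
      rw [Finset.mem_biUnion] at ha
      obtain ⟨S, -, ha⟩ := ha
      rw [Set.Finite.mem_toFinset] at ha ⊢
      exact hsub S ha
    · rw [hcard, ← Set.ncard_eq_toFinset_card _ hfU, hn1]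
  have hxm : x ∈ hfC.toFinset.biUnion fun S => (hfL S).toFinset := by
    rw [heq, Set.Finite.mem_toFinset]
    exact hx
  rw [Finset.mem_biUnion] at hxm
  obtain ⟨S, hS, hxS⟩ := hxm
  rw [Set.Finite.mem_toFinset] at hS hxS
  have hS' : D.circ S := hS
  have e1 := hCR L D x S hx hS' hxS.2
  obtain ⟨mu, eta, r1⟩ := (hRT L D x (S ^ 2) hx).1 e1
  exact ⟨S ^ 2, mu, eta, circ_sq hS', Nm_sq_pow hS', r1, noram hRAM hx (Nm_sq_pow hS') r1⟩

end Pool.Agent.TH921.J3905
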